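import Mathlib

set_option autoImplicit false
set_option linter.unusedSectionVars false

/-!
# Alternating functions of `n` integers and the operators `α_k`

`f` is alternating with support in the nonnegative tuples, `(α_k f)(l) = ∑ i, f (l + k e_i)`.
-/

namespace Pool.Agent.Q156.SC

open Finset

variable {n : ℕ} {K : Type} [Field K] [CharZero K]

/-- sum of the coordinates -/
def tot (l : Fin n → ℤ) : ℤ := ∑ i, l i

theorem tot_add (l m : Fin n → ℤ) : tot (l + m) = tot l + tot m := by
  unfold tot
  simp [Finset.sum_add_distrib]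

theorem tot_sub (l m : Fin n → ℤ) : tot (l - m) = tot l - tot m := by
  unfold tot
  simp [Finset.sum_sub_distrib]

theorem tot_single (i : Fin n) (k : ℤ) : tot (Pi.single i k) = k := by
  unfold tot
  simp

/-- bounded from below on the support -/
def BB (F : (Fin n → ℤ) → K) : Prop := ∃ B : ℤ, ∀ l, F l ≠ 0 → ∀ i, -B ≤ l i

theorem BB.fin {F : (Fin n → ℤ) → K} (h : BB F) (D : ℤ) :
    (Function.support fun l => if tot l = D then F l else 0).Finite := by
  obtain ⟨B, hB⟩ := h
  apply Set.Finite.subset (Set.Finite.pi (t := fun _ : Fin n => Set.Icc (-B) (D + n * |B|))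
    (fun _ => Set.finite_Icc _ _))
  intro l hl
  rw [Function.mem_support] at hl
  have h1 : tot l = D := by
    by_contra hne
    rw [if_neg hne] at hl
    exact hl rfl
  rw [if_pos h1] at hl
  have h2 := hB l hl
  rw [Set.mem_pi]
  intro i _
  refine ⟨h2 i, ?_⟩
  have h3 : D = l i + ∑ j ∈ univ.erase i, l j := by
    rw [← h1]
    unfold tot
    rw [← Finset.add_sum_erase _ _ (Finset.mem_univ i)]
  have h4 : ∑ j ∈ univ.erase i, (-|B|) ≤ ∑ j ∈ univ.erase i, l j := by
    apply Finset.sum_le_sum
    intro j _
    have := h2 j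
    have := le_abs_self B
    linarith
  rw [Finset.sum_const, nsmul_eq_mul] at h4
  have h5 : ((univ.erase i).card : ℤ) ≤ n := by
    have : (univ.erase i).card ≤ (univ : Finset (Fin n)).card := Finset.card_le_card
      (Finset.erase_subset _ _)
    rw [Finset.card_univ, Fintype.card_fin] at this
    exact_mod_cast this
  have h6 : (0 : ℤ) ≤ |B| := abs_nonneg B
  nlinarith

/-- the sum over the tuples of total `D` -/
noncomputable def Sm (D : ℤ) (F : (Fin n → ℤ) → K) : K := ∑ᶠ l, if tot l = D then F l else 0

theorem Sm_congr {D : ℤ} {F G : (Fin n → ℤ) → K} (h : ∀ l, tot l = D → F l = G l) :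
    Sm D F = Sm D G := by
  unfold Sm
  apply finsum_congr
  intro l
  by_cases h1 : tot l = D
  · rw [if_pos h1, if_pos h1, h l h1]
  · rw [if_neg h1, if_neg h1]

theorem Sm_shift (D : ℤ) (F : (Fin n → ℤ) → K) (v : Fin n → ℤ) :
    Sm D (fun l => F (l + v)) = Sm (D + tot v) F := by
  unfold Sm
  rw [← finsum_comp_equiv (Equiv.addRight v)
    (f := fun l => if tot l = D + tot v then F l else 0)]
  apply finsum_congr
  intro l
  have h1 : (Equiv.addRight v) l = l + v := rfl
  simp only [h1, tot_add, add_left_inj]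

theorem Sm_swap (D : ℤ) (F : (Fin n → ℤ) → K) (i j : Fin n) :
    Sm D (fun l => F (l ∘ Equiv.swap i j)) = Sm D F := by
  unfold Sm
  rw [← finsum_comp_equiv (Equiv.arrowCongr (Equiv.swap i j) (Equiv.refl ℤ))
    (f := fun l => if tot l = D then F l else 0)]
  apply finsum_congr
  intro l
  have h1 : (Equiv.arrowCongr (Equiv.swap i j) (Equiv.refl ℤ)) l = l ∘ Equiv.swap i j := by
    ext x
    simp [Equiv.arrowCongr]
  rw [h1]
  have h2 : tot (l ∘ Equiv.swap i j) = tot l := by
    unfold tot
    exact Equiv.sum_comp (Equiv.swap i j) l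
  rw [h2]

theorem Sm_sum {ι : Type} (D : ℤ) (s : Finset ι) (F : ι → (Fin n → ℤ) → K)
    (h : ∀ i ∈ s, BB (F i)) : Sm D (fun l => ∑ i ∈ s, F i l) = ∑ i ∈ s, Sm D (F i) := by
  unfold Sm
  rw [← finsum_sum_comm]
  · apply finsum_congr
    intro l
    by_cases h1 : tot l = D
    · simp [h1]
    · simp [h1]
  · intro i hi
    exact (h i hi).fin D

theorem Sm_add (D : ℤ) (F G : (Fin n → ℤ) → K) (hF : BB F) (hG : BB G) :
    Sm D (fun l => F l + G l) = Sm D F + Sm D G := by
  unfold Sm
  rw [← finsum_add_distrib (hF.fin D) (hG.fin D)]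
  apply finsum_congr
  intro l
  split_ifs <;> simp

theorem Sm_mul (D : ℤ) (c : K) (F : (Fin n → ℤ) → K) (hF : BB F) :
    Sm D (fun l => c * F l) = c * Sm D F := by
  unfold Sm
  rw [← smul_eq_mul, smul_finsum' c (hF.fin D)]
  apply finsum_congr
  intro l
  split_ifs <;> simp

theorem Sm_zero (D : ℤ) (F : (Fin n → ℤ) → K) (h : ∀ l, tot l = D → F l = 0) : Sm D F = 0 := by
  unfold Sm
  have h0 : (fun l : Fin n → ℤ => if tot l = D then F l else 0) = fun _ => 0 := by
    ext l
    by_cases h1 : tot l = D
    · rw [if_pos h1, h l h1]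
    · rw [if_neg h1]
  rw [h0, finsum_zero]

/-- alternating functions, zero unless all coordinates are nonnegative -/
structure Alt (f : (Fin n → ℤ) → K) : Prop where
  neg : ∀ l i, l i < 0 → f l = 0
  swap : ∀ l (i j : Fin n), i ≠ j → f (l ∘ Equiv.swap i j) = - f l

theorem Alt.nonneg {f : (Fin n → ℤ) → K} (hf : Alt f) {l : Fin n → ℤ} (h : f l ≠ 0) (i : Fin n) :
    0 ≤ l i := by
  by_contra h1
  exact h (hf.neg l i (by omega))

theorem Alt.inj {f : (Fin n → ℤ) → K} (hf : Alt f) {l : Fin n → ℤ} (i j : Fin n) (hij : i ≠ j)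
    (h : l i = l j) : f l = 0 := by
  have h1 := hf.swap l i j hij
  have h2 : l ∘ Equiv.swap i j = l := by
    ext x
    rw [Function.comp_apply]
    by_cases hx : x = i
    · rw [hx, Equiv.swap_apply_left, h]
    · by_cases hy : x = j
      · rw [hy, Equiv.swap_apply_right, h]
      · rw [Equiv.swap_apply_of_ne_of_ne hx hy]
  rw [h2] at h1
  have h3 : (2 : K) * f l = 0 := by linear_combination h1
  rcases mul_eq_zero.1 h3 with h4 | h4
  · exact absurd h4 two_ne_zero
  · exact h4

theorem Alt.bb {f : (Fin n → ℤ) → K} (hf : Alt f) (v : Fin n → ℤ) (g : (Fin n → ℤ) → K) :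
    BB (fun l => f (l + v) * g l) := by
  obtain ⟨B, hB⟩ : ∃ B : ℤ, ∀ i, v i ≤ B := by
    refine ⟨∑ i, |v i|, fun i => (le_abs_self _).trans ?_⟩
    exact Finset.single_le_sum (f := fun i => |v i|) (fun i _ => abs_nonneg _) (Finset.mem_univ i)
  refine ⟨B, fun l hl i => ?_⟩
  have h1 : f (l + v) ≠ 0 := left_ne_zero_of_mul hl
  have h2 := hf.nonneg h1 i
  have h3 := hB i
  rw [Pi.add_apply] at h2
  omega

theorem BB.mono {F G : (Fin n → ℤ) → K} (h : BB F) (h2 : ∀ l, G l ≠ 0 → F l ≠ 0) : BB G := by
  obtain ⟨B, hB⟩ := h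
  exact ⟨B, fun l hl i => hB l (h2 l hl) i⟩

/-- `(α_k f)(l) = ∑ i, f (l + k e_i)` -/
def al (k : ℤ) (f : (Fin n → ℤ) → K) (l : Fin n → ℤ) : K := ∑ i, f (l + Pi.single i k)

/-- `⟨f, g⟩` in total degree `D` -/
noncomputable def E (f g : (Fin n → ℤ) → K) (D : ℤ) : K := Sm D (fun l => f l * g l)

noncomputable def G (f g : (Fin n → ℤ) → K) (i j : Fin n) (k D : ℤ) : K :=
  Sm D (fun l => f l * g (l + (Pi.single j k - Pi.single i k)))

theorem G_neg {f g : (Fin n → ℤ) → K} (hf : Alt f) (hg : Alt g) {i j : Fin n} (hij : i ≠ j)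
    (k D : ℤ) : G f g i j (-k) D = G f g i j k D := by
  unfold G
  refine (Sm_swap D (fun l => f l * g (l + (Pi.single j (-k) - Pi.single i (-k)))) i j).symm.trans ?_
  apply Sm_congr
  intro l _
  have h1 : l ∘ Equiv.swap i j + (Pi.single j (-k) - Pi.single i (-k)) =
      (l + (Pi.single j k - Pi.single i k)) ∘ Equiv.swap i j := by
    ext x
    simp only [Pi.add_apply, Pi.sub_apply, Function.comp_apply]
    by_cases hx : x = i
    · subst hx
      rw [Equiv.swap_apply_left]
      simp [hij, hij.symm]
    · by_cases hy : x = j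
      · subst hy
        rw [Equiv.swap_apply_right]
        simp [hij, hij.symm]
      · rw [Equiv.swap_apply_of_ne_of_ne hx hy]
        simp [hx, hy]
  rw [h1, hf.swap _ _ _ hij, hg.swap _ _ _ hij]
  ring

theorem G_zero (f g : (Fin n → ℤ) → K) (i j : Fin n) (D : ℤ) : G f g i j 0 D = E f g D := by
  unfold G E
  simp

theorem le_tot {l : Fin n → ℤ} (h : ∀ i, 0 ≤ l i) (i : Fin n) : l i ≤ tot l := by
  unfold tot
  exact Finset.single_le_sum (f := l) (fun j _ => h j) (Finset.mem_univ i)

theorem sum_Icc_symm (H : ℤ → K) (hH : ∀ k, H (-k) = H k) (N : ℕ) :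
    ∑ k ∈ Finset.Icc (-(N : ℤ)) N, H k = 2 * (∑ k ∈ Finset.range N, H (k + 1)) + H 0 := by
  induction N with
  | zero => simp
  | succ N ih =>
    have h1 : Finset.Icc (-((N + 1 : ℕ) : ℤ)) ((N + 1 : ℕ) : ℤ) =
        insert (-((N + 1 : ℕ) : ℤ)) (insert ((N + 1 : ℕ) : ℤ) (Finset.Icc (-(N : ℤ)) N)) := by
      ext x
      simp only [Finset.mem_Icc, Finset.mem_insert]
      push_cast
      omega
    rw [h1, Finset.sum_insert, Finset.sum_insert, ih, Finset.sum_range_succ, hH]
    · push_cast
      ring
    · simp
    · simp only [Finset.mem_insert, Finset.mem_Icc]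
      push_cast
      omega

theorem sum_G {f g : (Fin n → ℤ) → K} (hf : Alt f) (hg : Alt g) {i j : Fin n} (hij : i ≠ j)
    (D : ℤ) (N : ℕ) (hN : D ≤ N) :
    2 * (∑ k ∈ Finset.range N, G f g i j (k + 1) D) + E f g D = 0 := by
  rw [← G_zero f g i j D, ← sum_Icc_symm (fun k => G f g i j k D) (fun k => G_neg hf hg hij k D)]
  unfold G
  refine (Sm_sum D (Finset.Icc (-(N : ℤ)) N)
    (fun k l => f l * g (l + (Pi.single j k - Pi.single i k))) ?_).symm.trans ?_
  rotate_left
  · apply Sm_zero
    intro l hl
    by_cases hfl : f l = 0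
    · apply Finset.sum_eq_zero
      intro k _
      rw [hfl, zero_mul]
    · rw [← Finset.mul_sum]
      have hpos := hf.nonneg hfl
      have h0 : ∀ k, g (l + (Pi.single j k - Pi.single i k)) ≠ 0 → -l j ≤ k ∧ k ≤ l i := by
        intro k hk
        have h1 := hg.nonneg hk i
        have h2 := hg.nonneg hk j
        simp only [Pi.add_apply, Pi.sub_apply, Pi.single_eq_same, Pi.single_eq_of_ne hij,
          Pi.single_eq_of_ne hij.symm] at h1 h2
        constructor <;> omega
      have hi := le_tot hpos i
      have hj := le_tot hpos j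
      have h1 : ∑ k ∈ Finset.Icc (-(N : ℤ)) N, g (l + (Pi.single j k - Pi.single i k)) =
          ∑ k ∈ Finset.Icc (-l j) (l i), g (l + (Pi.single j k - Pi.single i k)) := by
        symm
        apply Finset.sum_subset
        · intro k hk
          rw [Finset.mem_Icc] at hk ⊢
          constructor <;> omega
        · intro k _ hk
          by_contra hne
          apply hk
          rw [Finset.mem_Icc]
          exact h0 k hne
      rw [h1]
      have h2 : ∑ k ∈ Finset.Icc (-l j) (l i), g (l + (Pi.single j k - Pi.single i k)) =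
          - ∑ k ∈ Finset.Icc (-l j) (l i), g (l + (Pi.single j k - Pi.single i k)) := by
        rw [← Finset.sum_neg_distrib]
        apply Finset.sum_nbij' (fun k => l i - l j - k) (fun k => l i - l j - k)
        · intro k hk
          rw [Finset.mem_Icc] at hk ⊢
          constructor <;> omega
        · intro k hk
          rw [Finset.mem_Icc] at hk ⊢
          constructor <;> omega
        · intro k _
          ring
        · intro k _
          ring
        · intro k _
          rw [← hg.swap _ i j hij]
          congr 1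
          ext x
          simp only [Pi.add_apply, Pi.sub_apply, Function.comp_apply]
          by_cases hx : x = i
          · subst hx
            rw [Equiv.swap_apply_left]
            simp [hij, hij.symm]
            ring
          · by_cases hy : x = j
            · subst hy
              rw [Equiv.swap_apply_right]
              simp [hij, hij.symm]
              ring
            · rw [Equiv.swap_apply_of_ne_of_ne hx hy]
              simp [hx, hy]
      have h3 : (2 : K) * ∑ k ∈ Finset.Icc (-l j) (l i),
          g (l + (Pi.single j k - Pi.single i k)) = 0 := by linear_combination h2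
      rcases mul_eq_zero.1 h3 with h4 | h4
      · exact absurd h4 two_ne_zero
      · rw [h4, mul_zero]
  · intro k _
    have := hf.bb 0 (fun l => g (l + (Pi.single j k - Pi.single i k)))
    simpa using this

/-- `⟨α_k f, α_k g⟩`, indexed by the total degree of `f` and `g` -/
noncomputable def T (f g : (Fin n → ℤ) → K) (k D : ℤ) : K :=
  Sm (D - k) (fun l => if ∀ i, 0 ≤ l i then al k f l * al k g l else 0)

/-- `⟨α_{-k} f, α_{-k} g⟩`, indexed by the total degree after raising -/
noncomputable def S (f g : (Fin n → ℤ) → K) (k D : ℤ) : K :=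
  Sm D (fun l => al (-k) f l * al (-k) g l)

/-- the off-diagonal part -/
noncomputable def off (f g : (Fin n → ℤ) → K) (k D : ℤ) : K :=
  ∑ i, ∑ j ∈ univ.erase i, G f g i j k D

theorem T_eq {f g : (Fin n → ℤ) → K} (hf : Alt f) (hg : Alt g) (k D : ℤ) :
    T f g k D = off f g k D + ∑ i, Sm D (fun l => if k ≤ l i then f l * g l else 0) := by
  unfold T al off
  have e1 : ∀ l : Fin n → ℤ, (if ∀ i, 0 ≤ l i then
      (∑ i, f (l + Pi.single i k)) * (∑ i, g (l + Pi.single i k)) else 0) =
      ∑ i, ∑ j, if ∀ i, 0 ≤ l i then f (l + Pi.single i k) * g (l + Pi.single j k) else 0 := by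
    intro l
    by_cases h : ∀ i, 0 ≤ l i
    · simp only [if_pos h]
      rw [Finset.sum_mul_sum]
    · simp only [if_neg h]
      simp
  have hb : ∀ i j, BB (fun l : Fin n → ℤ =>
      if ∀ i, 0 ≤ l i then f (l + Pi.single i k) * g (l + Pi.single j k) else 0) := by
    intro i j
    apply (hf.bb (Pi.single i k) (fun l => g (l + Pi.single j k))).mono
    intro l hl h0
    apply hl
    split_ifs
    · exact h0
    · rfl
  have hsum : ∀ (F : Fin n → Fin n → (Fin n → ℤ) → K), (∀ i j, BB (F i j)) →
      Sm (D - k) (fun l => ∑ i, ∑ j, F i j l) = ∑ i, ∑ j, Sm (D - k) (F i j) := by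
    intro F hF
    have hF2 : ∀ i, BB (fun l => ∑ j, F i j l) := by
      intro i
      choose B hB using hF i
      refine ⟨∑ j, |B j|, fun l hl a => ?_⟩
      obtain ⟨j, _, hj⟩ := Finset.exists_ne_zero_of_sum_ne_zero hl
      have h1 := hB j l hj a
      have h2 : |B j| ≤ ∑ j, |B j| := Finset.single_le_sum (f := fun j => |B j|)
        (fun j _ => abs_nonneg _) (Finset.mem_univ j)
      have h3 := le_abs_self (B j)
      omega
    rw [Sm_sum _ _ (fun i l => ∑ j, F i j l) (fun i _ => hF2 i)]
    apply Finset.sum_congr rfl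
    intro i _
    rw [Sm_sum _ _ (F i) (fun j _ => hF i j)]
  rw [Sm_congr (fun l _ => e1 l), hsum _ hb, ← Finset.sum_add_distrib]
  apply Finset.sum_congr rfl
  intro i _
  rw [← Finset.sum_erase_add _ _ (Finset.mem_univ i)]
  congr 1
  · apply Finset.sum_congr rfl
    intro j hj
    have hij : i ≠ j := fun h => Finset.ne_of_mem_erase hj h.symm
    have e2 : ∀ l : Fin n → ℤ,
        (if ∀ i, 0 ≤ l i then f (l + Pi.single i k) * g (l + Pi.single j k) else 0) =
        (fun m : Fin n → ℤ => f m * g (m + (Pi.single j k - Pi.single i k))) (l + Pi.single i k) := by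
      intro l
      have h3 : l + Pi.single i k + (Pi.single j k - Pi.single i k) = l + Pi.single j k := by
        ext x
        simp only [Pi.add_apply, Pi.sub_apply]
        ring
      dsimp only
      rw [h3]
      by_cases h : ∀ i, 0 ≤ l i
      · rw [if_pos h]
      · rw [if_neg h]
        push Not at h
        obtain ⟨c, hc⟩ := h
        by_cases hci : c = i
        · subst hci
          rw [hg.neg _ c (by simp [hij]; exact hc), mul_zero]
        · rw [hf.neg _ c (by simp [hci]; exact hc), zero_mul]
    refine (Sm_congr (fun l _ => e2 l)).trans ((Sm_shift _ (fun m : Fin n → ℤ =>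
      f m * g (m + (Pi.single j k - Pi.single i k))) (Pi.single i k)).trans ?_)
    rw [tot_single]
    unfold G
    congr 1
    ring
  · have e2 : ∀ l : Fin n → ℤ,
        (if ∀ i, 0 ≤ l i then f (l + Pi.single i k) * g (l + Pi.single i k) else 0) =
        (fun m : Fin n → ℤ => if k ≤ m i then f m * g m else 0) (l + Pi.single i k) := by
      intro l
      dsimp only
      have h3 : (l + (Pi.single i k : Fin n → ℤ)) i = l i + k := by simp
      rw [h3]
      by_cases h : ∀ i, 0 ≤ l i
      · rw [if_pos h, if_pos (by have := h i; omega)]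
      · rw [if_neg h]
        by_cases h4 : k ≤ l i + k
        · rw [if_pos h4]
          push Not at h
          obtain ⟨c, hc⟩ := h
          by_cases hci : c = i
          · subst hci
            omega
          · rw [hf.neg _ c (by simp [hci]; exact hc), zero_mul]
        · rw [if_neg h4]
    refine (Sm_congr (fun l _ => e2 l)).trans ((Sm_shift _ (fun m : Fin n → ℤ =>
      if k ≤ m i then f m * g m else 0) (Pi.single i k)).trans ?_)
    rw [tot_single]
    congr 1
    ring

theorem S_eq {f g : (Fin n → ℤ) → K} (hf : Alt f) (hg : Alt g) (k D : ℤ) :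
    S f g k D = off f g k (D - k) + n * E f g (D - k) := by
  unfold S al off
  have e1 : ∀ l : Fin n → ℤ,
      (∑ i, f (l + Pi.single i (-k))) * (∑ i, g (l + Pi.single i (-k))) =
      ∑ i, ∑ j, f (l + Pi.single i (-k)) * g (l + Pi.single j (-k)) := by
    intro l
    rw [Finset.sum_mul_sum]
  have hb : ∀ i j, BB (fun l : Fin n → ℤ =>
      f (l + Pi.single i (-k)) * g (l + Pi.single j (-k))) := by
    intro i j
    exact hf.bb (Pi.single i (-k)) (fun l => g (l + Pi.single j (-k)))
  have hsum : ∀ (F : Fin n → Fin n → (Fin n → ℤ) → K), (∀ i j, BB (F i j)) →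
      Sm D (fun l => ∑ i, ∑ j, F i j l) = ∑ i, ∑ j, Sm D (F i j) := by
    intro F hF
    have hF2 : ∀ i, BB (fun l => ∑ j, F i j l) := by
      intro i
      choose B hB using hF i
      refine ⟨∑ j, |B j|, fun l hl a => ?_⟩
      obtain ⟨j, _, hj⟩ := Finset.exists_ne_zero_of_sum_ne_zero hl
      have h1 := hB j l hj a
      have h2 : |B j| ≤ ∑ j, |B j| := Finset.single_le_sum (f := fun j => |B j|)
        (fun j _ => abs_nonneg _) (Finset.mem_univ j)
      have h3 := le_abs_self (B j)
      omega
    rw [Sm_sum _ _ (fun i l => ∑ j, F i j l) (fun i _ => hF2 i)]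
    apply Finset.sum_congr rfl
    intro i _
    rw [Sm_sum _ _ (F i) (fun j _ => hF i j)]
  rw [Sm_congr (fun l _ => e1 l), hsum _ hb]
  have e3 : (n : K) * E f g (D - k) = ∑ _i : Fin n, E f g (D - k) := by
    rw [Finset.sum_const, Finset.card_univ, Fintype.card_fin, nsmul_eq_mul]
  rw [e3, ← Finset.sum_add_distrib]
  apply Finset.sum_congr rfl
  intro i _
  rw [← Finset.sum_erase_add _ _ (Finset.mem_univ i)]
  congr 1
  · apply Finset.sum_congr rfl
    intro j hj
    have hij : i ≠ j := fun h => Finset.ne_of_mem_erase hj h.symm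
    have e2 : ∀ l : Fin n → ℤ, f (l + Pi.single i (-k)) * g (l + Pi.single j (-k)) =
        (fun m : Fin n → ℤ => f m * g (m + (Pi.single j (-k) - Pi.single i (-k))))
          (l + Pi.single i (-k)) := by
      intro l
      have h3 : l + Pi.single i (-k) + (Pi.single j (-k) - Pi.single i (-k)) =
          l + Pi.single j (-k) := by
        ext x
        simp only [Pi.add_apply, Pi.sub_apply]
        ring
      dsimp only
      rw [h3]
    refine (Sm_congr (fun l _ => e2 l)).trans ((Sm_shift _ (fun m : Fin n → ℤ =>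
      f m * g (m + (Pi.single j (-k) - Pi.single i (-k)))) (Pi.single i (-k))).trans ?_)
    rw [tot_single, ← G_neg hf hg hij]
    unfold G
    congr 1
  · have e2 : ∀ l : Fin n → ℤ, f (l + Pi.single i (-k)) * g (l + Pi.single i (-k)) =
        (fun m : Fin n → ℤ => f m * g m) (l + Pi.single i (-k)) := by
      intro l
      rfl
    refine (Sm_congr (fun l _ => e2 l)).trans ((Sm_shift _ (fun m : Fin n → ℤ =>
      f m * g m) (Pi.single i (-k))).trans ?_)
    rw [tot_single]
    unfold E
    congr 1

theorem BB.sum {ι : Type} [Fintype ι] {F : ι → (Fin n → ℤ) → K} (hF : ∀ i, BB (F i)) :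
    BB (fun l => ∑ j, F j l) := by
  choose B hB using hF
  refine ⟨∑ j, |B j|, fun l hl a => ?_⟩
  obtain ⟨j, _, hj⟩ := Finset.exists_ne_zero_of_sum_ne_zero hl
  have h1 := hB j l hj a
  have h2 : |B j| ≤ ∑ j, |B j| := Finset.single_le_sum (f := fun j => |B j|)
    (fun j _ => abs_nonneg _) (Finset.mem_univ j)
  have h3 := le_abs_self (B j)
  omega

theorem Alt.bb0 {f : (Fin n → ℤ) → K} (hf : Alt f) (g : (Fin n → ℤ) → K) :
    BB (fun l => f l * g l) := by
  have := hf.bb 0 g
  simpa using this

theorem Alt.bb0' {f : (Fin n → ℤ) → K} (hf : Alt f) (g : (Fin n → ℤ) → K) :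
    BB (fun l => g l * f l) := by
  have := hf.bb 0 g
  simp only [add_zero] at this
  apply this.mono
  intro l hl
  rwa [mul_comm]

/-- `⟨f, α_{-k} g⟩` in total degree `D` -/
noncomputable def M (f g : (Fin n → ℤ) → K) (k D : ℤ) : K := Sm D (fun l => f l * al (-k) g l)

theorem M_shift {f g : (Fin n → ℤ) → K} (hf : Alt f) (k D : ℤ) :
    Sm D (fun l => al k f l * g l) = M f g k (D + k) := by
  unfold M al
  have e1 : ∀ l : Fin n → ℤ, (∑ i, f (l + Pi.single i k)) * g l =
      ∑ i, f (l + Pi.single i k) * g l := by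
    intro l
    rw [Finset.sum_mul]
  have e2 : ∀ l : Fin n → ℤ, f l * (∑ i, g (l + Pi.single i (-k))) =
      ∑ i, f l * g (l + Pi.single i (-k)) := by
    intro l
    rw [Finset.mul_sum]
  have s1 : Sm D (fun l => ∑ i, f (l + Pi.single i k) * g l) =
      ∑ i, Sm D (fun l => f (l + Pi.single i k) * g l) :=
    Sm_sum _ _ (fun i l => f (l + Pi.single i k) * g l) (fun i _ => hf.bb _ _)
  have s2 : Sm (D + k) (fun l => ∑ i, f l * g (l + Pi.single i (-k))) =
      ∑ i, Sm (D + k) (fun l => f l * g (l + Pi.single i (-k))) :=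
    Sm_sum _ _ (fun i l => f l * g (l + Pi.single i (-k))) (fun i _ => hf.bb0 _)
  rw [Sm_congr (fun l _ => e1 l), Sm_congr (fun l _ => e2 l), s1, s2]
  apply Finset.sum_congr rfl
  intro i _
  have e3 : ∀ l : Fin n → ℤ, f (l + Pi.single i k) * g l =
      (fun m : Fin n → ℤ => f m * g (m + Pi.single i (-k))) (l + Pi.single i k) := by
    intro l
    dsimp only
    congr 2
    ext x
    by_cases hx : x = i
    · subst hx
      simp
    · simp [hx]
  refine (Sm_congr (fun l _ => e3 l)).trans ((Sm_shift _ (fun m : Fin n → ℤ =>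
      f m * g (m + Pi.single i (-k))) (Pi.single i k)).trans ?_)
  rw [tot_single]

/-- the boundary equation `α_k f = β f + σ α_{-k} f` in total degree `D` -/
def Bdry (f : (Fin n → ℤ) → K) (β σ : K) (k D : ℤ) : Prop :=
  ∀ l : Fin n → ℤ, (∀ i, 0 ≤ l i) → tot l = D → al k f l = β * f l + σ * al (-k) f l

theorem M_rec {f g : (Fin n → ℤ) → K} (hf : Alt f) (hg : Alt g) {β σ : K} {k D : ℤ}
    (hb : Bdry f β σ k D) : M f g k (D + k) = β * E f g D + σ * M g f k D := by
  rw [← M_shift hf]
  have e1 : ∀ l : Fin n → ℤ, tot l = D → al k f l * g l =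
      β * (f l * g l) + σ * (g l * al (-k) f l) := by
    intro l hl
    by_cases h : ∀ i, 0 ≤ l i
    · rw [hb l h hl]
      ring
    · push Not at h
      obtain ⟨c, hc⟩ := h
      rw [hg.neg l c hc]
      ring
  rw [Sm_congr e1, Sm_add _ (fun l => β * (f l * g l)) (fun l => σ * (g l * al (-k) f l)),
    Sm_mul _ β (fun l => f l * g l) (hf.bb0 _), Sm_mul _ σ (fun l => g l * al (-k) f l) (hg.bb0 _)]
  · rfl
  · apply (hf.bb0 g).mono
    intro l hl
    exact right_ne_zero_of_mul hl
  · apply (hg.bb0 (al (-k) f)).mono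
    intro l hl
    exact right_ne_zero_of_mul hl

theorem T_rec {f g : (Fin n → ℤ) → K} (hf : Alt f) (hg : Alt g) {β σ β' σ' : K} {k D : ℤ}
    (hk : 0 ≤ k) (hb : Bdry f β σ k D) (hb' : Bdry g β' σ' k D) :
    T f g k (D + k) = β * β' * E f g D + β * σ' * M f g k D + β' * σ * M g f k D +
      σ * σ' * S f g k D := by
  unfold T
  rw [add_sub_cancel_right]
  have hneg : ∀ (h : (Fin n → ℤ) → K), Alt h → ∀ l : Fin n → ℤ, ∀ c, l c < 0 → al (-k) h l = 0 := by
    intro h hh l c hc
    unfold al
    apply Finset.sum_eq_zero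
    intro i _
    apply hh.neg _ c
    by_cases hx : c = i
    · subst hx
      simp
      omega
    · simp [hx]
      exact hc
  have e1 : ∀ l : Fin n → ℤ, tot l = D → (if ∀ i, 0 ≤ l i then al k f l * al k g l else 0) =
      β * β' * (f l * g l) + β * σ' * (f l * al (-k) g l) + β' * σ * (g l * al (-k) f l) +
        σ * σ' * (al (-k) f l * al (-k) g l) := by
    intro l hl
    by_cases h : ∀ i, 0 ≤ l i
    · rw [if_pos h, hb l h hl, hb' l h hl]
      ring
    · rw [if_neg h]
      push Not at h
      obtain ⟨c, hc⟩ := h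
      rw [hf.neg l c hc, hg.neg l c hc, hneg f hf l c hc]
      ring
  have b1 : BB (fun l => β * β' * (f l * g l)) := (hf.bb0 g).mono
    fun l hl => right_ne_zero_of_mul hl
  have b2 : BB (fun l => β * σ' * (f l * al (-k) g l)) := (hf.bb0 (al (-k) g)).mono
    fun l hl => right_ne_zero_of_mul hl
  have b3 : BB (fun l => β' * σ * (g l * al (-k) f l)) := (hg.bb0 (al (-k) f)).mono
    fun l hl => right_ne_zero_of_mul hl
  have b4' : BB (fun l => al (-k) f l * al (-k) g l) := by
    have e2 : ∀ l : Fin n → ℤ, al (-k) f l * al (-k) g l =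
        ∑ i, f (l + Pi.single i (-k)) * al (-k) g l := by
      intro l
      unfold al
      rw [Finset.sum_mul]
    have b := BB.sum (F := fun i l => f (l + Pi.single i (-k)) * al (-k) g l)
      (fun i => hf.bb _ _)
    apply b.mono
    intro l hl
    rw [← e2 l]
    exact hl
  have b4 : BB (fun l => σ * σ' * (al (-k) f l * al (-k) g l)) := b4'.mono
    fun l hl => right_ne_zero_of_mul hl
  have badd : ∀ {F G : (Fin n → ℤ) → K}, BB F → BB G → BB (fun l => F l + G l) := by
    intro F G hF hG
    obtain ⟨B, hB⟩ := hF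
    obtain ⟨C, hC⟩ := hG
    refine ⟨max B C, fun l hl i => ?_⟩
    by_cases h : F l = 0
    · have h2 : G l ≠ 0 := by
        intro h3
        apply hl
        dsimp only
        rw [h, h3, add_zero]
      have := hC l h2 i
      have := le_max_right B C
      omega
    · have := hB l h i
      have := le_max_left B C
      omega
  rw [Sm_congr e1, Sm_add _ (fun l => β * β' * (f l * g l) + β * σ' * (f l * al (-k) g l) +
      β' * σ * (g l * al (-k) f l)) (fun l => σ * σ' * (al (-k) f l * al (-k) g l))
      (badd (badd b1 b2) b3) b4,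
    Sm_add _ (fun l => β * β' * (f l * g l) + β * σ' * (f l * al (-k) g l))
      (fun l => β' * σ * (g l * al (-k) f l)) (badd b1 b2) b3,
    Sm_add _ (fun l => β * β' * (f l * g l)) (fun l => β * σ' * (f l * al (-k) g l)) b1 b2,
    Sm_mul _ _ (fun l => f l * g l) (hf.bb0 _), Sm_mul _ _ (fun l => f l * al (-k) g l) (hf.bb0 _),
    Sm_mul _ _ (fun l => g l * al (-k) f l) (hg.bb0 _),
    Sm_mul _ _ (fun l => al (-k) f l * al (-k) g l) b4']
  rfl

/-- every tuple in the support of `f` of total `D` has exactly `k` coordinates below `k` -/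
def Full (f : (Fin n → ℤ) → K) (k D : ℤ) : Prop :=
  ∀ l : Fin n → ℤ, tot l = D → f l ≠ 0 → ((univ.filter fun i => l i < k).card : ℤ) = k

theorem T_S {f g : (Fin n → ℤ) → K} (hf : Alt f) (hg : Alt g) {k D : ℤ} (h : Full f k D) :
    S f g k (D + k) = T f g k D + k * E f g D := by
  rw [S_eq hf hg, T_eq hf hg, add_sub_cancel_right]
  have e1 : ∑ i, Sm D (fun l => if k ≤ l i then f l * g l else 0) = (n - k) * E f g D := by
    rw [← Sm_sum D univ (fun i l => if k ≤ l i then f l * g l else 0)]
    · unfold E
      rw [← Sm_mul _ _ (fun l => f l * g l) (hf.bb0 g)]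
      apply Sm_congr
      intro l hl
      by_cases hfl : f l = 0
      · rw [hfl]
        simp
      · have h1 := h l hl hfl
        rw [← Finset.sum_filter, Finset.sum_const, nsmul_eq_mul]
        congr 1
        have h2 := Finset.card_filter_add_card_filter_not (s := (univ : Finset (Fin n)))
          (fun i => l i < k)
        rw [Finset.card_univ, Fintype.card_fin] at h2
        have h3 : (univ.filter fun i => ¬ l i < k) = univ.filter fun i => k ≤ l i := by
          apply Finset.filter_congr
          intro i _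
          exact not_lt
        rw [h3] at h2
        have h4 : ((univ.filter fun i => k ≤ l i).card : ℤ) = n - k := by omega
        have h5 : (((univ.filter fun i => k ≤ l i).card : ℤ) : K) = ((n - k : ℤ) : K) := by
          rw [h4]
        push_cast at h5
        exact h5
    · intro i _
      apply (hf.bb0 g).mono
      intro l hl h0
      apply hl
      split_ifs
      · exact h0
      · rfl
  rw [e1]
  ring

/-- the sum of the operators `α_{-k} α_k` is the degree -/
theorem sum_T {f g : (Fin n → ℤ) → K} (hf : Alt f) (hg : Alt g) (D : ℕ) :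
    ∑ k ∈ Finset.range D, T f g (k + 1) D = (D - n * (n - 1) / 2) * E f g D := by
  have e0 : ∀ k ∈ Finset.range D, T f g (k + 1) D = off f g (k + 1) D +
      ∑ i, Sm D (fun l => if (k : ℤ) + 1 ≤ l i then f l * g l else 0) := by
    intro k _
    rw [T_eq hf hg]
  rw [Finset.sum_congr rfl e0, Finset.sum_add_distrib]
  have e1 : ∑ k ∈ Finset.range D, off f g (k + 1) D = -(n * (n - 1) / 2) * E f g D := by
    unfold off
    rw [Finset.sum_comm]
    have e2 : ∀ i : Fin n, ∑ k ∈ Finset.range D, ∑ j ∈ univ.erase i, G f g i j (k + 1) D =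
        (n - 1) * (-(1 / 2) * E f g D) := by
      intro i
      rw [Finset.sum_comm]
      have e3 : ∀ j ∈ univ.erase i, ∑ k ∈ Finset.range D, G f g i j (k + 1) D =
          -(1 / 2) * E f g D := by
        intro j hj
        have := sum_G hf hg (fun h : i = j => Finset.ne_of_mem_erase hj h.symm) D D le_rfl
        linear_combination (1 / 2) * this
      rw [Finset.sum_congr rfl e3, Finset.sum_const, Finset.card_erase_of_mem (Finset.mem_univ i),
        Finset.card_univ, Fintype.card_fin, nsmul_eq_mul, Nat.cast_sub, Nat.cast_one]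
      exact Nat.one_le_iff_ne_zero.2 (fun h => by subst h; exact i.elim0)
    rw [Finset.sum_congr rfl (fun i _ => e2 i), Finset.sum_const, Finset.card_univ,
      Fintype.card_fin, nsmul_eq_mul]
    ring
  have e4 : ∑ k ∈ Finset.range D, ∑ i, Sm (D : ℤ)
      (fun l => if (k : ℤ) + 1 ≤ l i then f l * g l else 0) = D * E f g D := by
    rw [Finset.sum_comm]
    have e5 : ∀ i : Fin n, ∑ k ∈ Finset.range D, Sm (D : ℤ)
        (fun l => if (k : ℤ) + 1 ≤ l i then f l * g l else 0) =
        Sm (D : ℤ) (fun l => (l i : K) * (f l * g l)) := by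
      intro i
      rw [← Sm_sum (D : ℤ) (Finset.range D)
        (fun (k : ℕ) l => if (k : ℤ) + 1 ≤ l i then f l * g l else 0)]
      · apply Sm_congr
        intro l hl
        by_cases hfl : f l = 0
        · rw [hfl]
          simp
        · have hpos := hf.nonneg hfl
          have hle := le_tot hpos i
          rw [← Finset.sum_filter, Finset.sum_const, nsmul_eq_mul]
          congr 1
          have h1 : (Finset.range D).filter (fun k : ℕ => (k : ℤ) + 1 ≤ l i) =
              Finset.range (l i).toNat := by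
            ext k
            rw [Finset.mem_filter, Finset.mem_range, Finset.mem_range]
            have := hpos i
            omega
          rw [h1, Finset.card_range]
          have h2 : (((l i).toNat : ℤ) : K) = (l i : K) := by
            rw [Int.toNat_of_nonneg (hpos i)]
          rw [← h2]
          push_cast
          rfl
      · intro k _
        apply (hf.bb0 g).mono
        intro l hl h0
        apply hl
        split_ifs
        · exact h0
        · rfl
    rw [Finset.sum_congr rfl (fun i _ => e5 i), ← Sm_sum (D : ℤ) univ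
      (fun i l => (l i : K) * (f l * g l))]
    · unfold E
      rw [← Sm_mul _ _ (fun l => f l * g l) (hf.bb0 g)]
      apply Sm_congr
      intro l hl
      rw [← Finset.sum_mul]
      congr 1
      have h1 : ((tot l : ℤ) : K) = ((D : ℤ) : K) := by rw [hl]
      unfold tot at h1
      push_cast at h1
      exact h1
    · intro i _
      apply (hf.bb0 g).mono
      intro l hl
      exact right_ne_zero_of_mul hl
  rw [e1, e4]
  ring

end Pool.Agent.Q156.SC
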