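import Mathlib
import Pool.Agent.Q156.SC.Alt

set_option autoImplicit false
set_option linter.unusedSectionVars false

/-!
# The boundary equations of the symplectic dimension function
-/

namespace Pool.Agent.Q156.SC

open Finset Polynomial

variable {n : ℕ} {K : Type} [Field K] [CharZero K]

/-! ## The rational identity -/

section rat

variable (y : Fin n → K) (k : K) (A : Finset (Fin n))

/-- index set of the nodes -/
def nodes : Finset (Option (Fin n ⊕ Fin n)) :=
  Finset.insertNone ((univ : Finset (Fin n)).disjSum A)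

/-- the nodes -/
def nd : Option (Fin n ⊕ Fin n) → K
  | none => -k / 2
  | some (Sum.inl i) => y i
  | some (Sum.inr i) => -y i

theorem card_nodes : (nodes A).card = n + A.card + 1 := by
  unfold nodes
  rw [Finset.card_insertNone, Finset.card_disjSum, Finset.card_univ, Fintype.card_fin]

theorem sum_nodes (F : Option (Fin n ⊕ Fin n) → K) :
    ∑ t ∈ nodes A, F t = F none + (∑ i, F (some (Sum.inl i)) + ∑ i ∈ A, F (some (Sum.inr i))) := by
  unfold nodes
  rw [Finset.sum_insertNone, Finset.sum_disjSum]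

theorem prod_nodes (F : Option (Fin n ⊕ Fin n) → K) :
    ∏ t ∈ nodes A, F t = F none * ((∏ i, F (some (Sum.inl i))) * ∏ i ∈ A, F (some (Sum.inr i))) := by
  unfold nodes
  rw [Finset.prod_insertNone, Finset.prod_disjSum]

/-- numerator -/
noncomputable def num : K[X] := X * ((∏ j ∈ A, (X + C (k - y j))) * ∏ j, (X + C (k + y j)))

/-- denominator -/
noncomputable def den : K[X] := ∏ t ∈ nodes A, (X - C (nd y k t))

theorem num_monic : (num y k A).Monic := by
  unfold num
  apply monic_X.mul
  apply Monic.mul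
  · exact monic_prod_of_monic _ _ fun j _ => monic_X_add_C _
  · exact monic_prod_of_monic _ _ fun j _ => monic_X_add_C _

theorem den_monic : (den y k A).Monic := by
  unfold den
  exact monic_prod_of_monic _ _ fun j _ => monic_X_sub_C _

theorem num_natDegree : (num y k A).natDegree = n + A.card + 1 := by
  unfold num
  have m1 : (∏ j ∈ A, (X + C (k - y j))).Monic := monic_prod_of_monic _ _ fun j _ => monic_X_add_C _
  have m2 : (∏ j, (X + C (k + y j))).Monic := monic_prod_of_monic _ _ fun j _ => monic_X_add_C _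
  rw [monic_X.natDegree_mul (m1.mul m2), m1.natDegree_mul m2,
    natDegree_prod_of_monic _ _ (fun j _ => monic_X_add_C _),
    natDegree_prod_of_monic _ _ (fun j _ => monic_X_add_C _)]
  simp only [natDegree_X_add_C, natDegree_X, Finset.sum_const, smul_eq_mul, mul_one,
    Finset.card_univ, Fintype.card_fin]
  ring

theorem den_natDegree : (den y k A).natDegree = n + A.card + 1 := by
  unfold den
  rw [natDegree_prod_of_monic _ _ (fun j _ => monic_X_sub_C _)]
  simp only [natDegree_X_sub_C, Finset.sum_const, smul_eq_mul, mul_one]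
  exact card_nodes A

theorem rat_sum (hinj : Set.InjOn (nd y k) (nodes A)) :
    ∑ t ∈ nodes A, (num y k A).eval (nd y k t) / ∏ t' ∈ (nodes A).erase t, (nd y k t - nd y k t') =
      (∑ j ∈ A, (k - y j) + ∑ j, (k + y j)) + ∑ t ∈ nodes A, nd y k t := by
  have hdeg : (num y k A - den y k A).degree < (nodes A).card := by
    have h1 : (num y k A - den y k A).degree < (num y k A).degree := by
      apply degree_sub_lt_left
      · rw [degree_eq_natDegree (num_monic y k A).ne_zero,
          degree_eq_natDegree (den_monic y k A).ne_zero, num_natDegree, den_natDegree]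
      · exact (num_monic y k A).ne_zero
      · rw [(num_monic y k A).leadingCoeff, (den_monic y k A).leadingCoeff]
    rw [degree_eq_natDegree (num_monic y k A).ne_zero, num_natDegree] at h1
    rw [card_nodes]
    exact h1
  have h1 := Lagrange.coeff_eq_sum hinj hdeg
  have h2 : ∀ t ∈ nodes A, (num y k A - den y k A).eval (nd y k t) =
      (num y k A).eval (nd y k t) := by
    intro t ht
    rw [eval_sub]
    have : (den y k A).eval (nd y k t) = 0 := by
      unfold den
      rw [eval_prod]
      apply Finset.prod_eq_zero ht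
      simp
    rw [this, sub_zero]
  have h3 : ∑ t ∈ nodes A, (num y k A).eval (nd y k t) /
      ∏ t' ∈ (nodes A).erase t, (nd y k t - nd y k t') =
      ∑ t ∈ nodes A, (num y k A - den y k A).eval (nd y k t) /
      ∏ t' ∈ (nodes A).erase t, (nd y k t - nd y k t') := by
    apply Finset.sum_congr rfl
    intro t ht
    rw [h2 t ht]
  rw [h3, ← h1, coeff_sub, card_nodes]
  have h4 : (num y k A).coeff (n + A.card + 1 - 1) = (num y k A).nextCoeff := by
    rw [nextCoeff_of_natDegree_pos (by rw [num_natDegree]; omega), num_natDegree]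
  have h5 : (den y k A).coeff (n + A.card + 1 - 1) = (den y k A).nextCoeff := by
    rw [nextCoeff_of_natDegree_pos (by rw [den_natDegree]; omega), den_natDegree]
  rw [h4, h5]
  have h6 : (den y k A).nextCoeff = - ∑ t ∈ nodes A, nd y k t := by
    unfold den
    rw [Monic.nextCoeff_prod _ _ (fun j _ => monic_X_sub_C _)]
    simp [nextCoeff_X_sub_C]
  have m1 : (∏ j ∈ A, (X + C (k - y j))).Monic := monic_prod_of_monic _ _ fun j _ => monic_X_add_C _
  have m2 : (∏ j, (X + C (k + y j))).Monic := monic_prod_of_monic _ _ fun j _ => monic_X_add_C _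
  have h7 : (num y k A).nextCoeff = ∑ j ∈ A, (k - y j) + ∑ j, (k + y j) := by
    unfold num
    rw [monic_X.nextCoeff_mul (m1.mul m2), m1.nextCoeff_mul m2,
      Monic.nextCoeff_prod _ _ (fun j _ => monic_X_add_C _),
      Monic.nextCoeff_prod _ _ (fun j _ => monic_X_add_C _)]
    simp only [nextCoeff_X_add_C]
    have : (X : K[X]).nextCoeff = 0 := by
      have := nextCoeff_X_add_C (0 : K)
      simpa using this
    rw [this, zero_add]
  rw [h6, h7]
  ring

theorem prod_neg' (F H : Fin n → K) (h : ∀ j, F j = -H j) :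
    ∏ j, F j = (-1) ^ n * ∏ j, H j := by
  simp only [h, Finset.prod_neg, Finset.card_univ, Fintype.card_fin]

theorem mul_prod_J (B : Finset (Fin n)) (F : Fin n → K) (i : Fin n) :
    (∏ j ∈ B, F j) * ∏ j ∈ Bᶜ, F j = F i * ∏ j ∈ univ.erase i, F j := by
  rw [Finset.prod_mul_prod_compl, Finset.mul_prod_erase _ _ (Finset.mem_univ i)]

/-- the quotient for a raised coordinate -/
def addT (i : Fin n) : K :=
  (∏ j ∈ univ.erase i, ((y i + k - y j) * (y i + k + y j) / ((y i - y j) * (y i + y j)))) *
    ∏ j ∈ Aᶜ, ((y i + y j) / (y i + k - y j))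

/-- the quotient for a lowered coordinate -/
def remT (i : Fin n) : K :=
  (∏ j ∈ univ.erase i, ((y i - k - y j) * (y i - k + y j) / ((y i - y j) * (y i + y j)))) *
    ∏ j ∈ Aᶜ, ((y i - y j) / (y i - k + y j))

theorem num_eval (x : K) : (num y k A).eval x =
    x * ((∏ j ∈ A, (x + k - y j)) * ∏ j, (x + k + y j)) := by
  unfold num
  rw [eval_mul, eval_mul, eval_prod, eval_prod, eval_X]
  simp only [eval_add, eval_X, eval_C]
  congr 2
  · apply Finset.prod_congr rfl
    intro j _
    ring
  · apply Finset.prod_congr rfl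
    intro j _
    ring

theorem erase_none : (nodes A).erase none =
    ((univ : Finset (Fin n)).disjSum A).map Function.Embedding.some := by
  ext t
  unfold nodes
  rw [Finset.mem_erase, Finset.mem_insertNone, Finset.mem_map]
  constructor
  · rintro ⟨h1, h2⟩
    obtain ⟨x, rfl⟩ := Option.ne_none_iff_exists'.1 h1
    exact ⟨x, h2 x rfl, rfl⟩
  · rintro ⟨x, hx, rfl⟩
    refine ⟨Option.some_ne_none x, ?_⟩
    intro a ha
    rw [Function.Embedding.some_apply, Option.mem_some_iff] at ha
    rw [← ha]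
    exact hx

theorem prod_erase (F : Option (Fin n ⊕ Fin n) → K) (t : Option (Fin n ⊕ Fin n))
    (ht : t ∈ nodes A) (h0 : F t ≠ 0) :
    ∏ t' ∈ (nodes A).erase t, F t' = (F none * ((∏ i, F (some (Sum.inl i))) *
      ∏ i ∈ A, F (some (Sum.inr i)))) / F t := by
  rw [← prod_nodes, eq_div_iff h0, mul_comm, Finset.mul_prod_erase _ _ ht]

theorem term_inl (_hk : k ≠ 0) (h1 : ∀ i j, i ≠ j → y i ≠ y j) (h2 : ∀ i j, y i + y j ≠ 0)
    (h3 : ∀ i, 2 * y i + k ≠ 0) (h5 : ∀ i, ∀ j ∈ Aᶜ, y i + k - y j ≠ 0) (i : Fin n) :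
    (num y k A).eval (nd y k (some (Sum.inl i))) /
      ∏ t' ∈ (nodes A).erase (some (Sum.inl i)), (nd y k (some (Sum.inl i)) - nd y k t') =
      k * addT y k A i := by
  have hprod : ∏ t' ∈ (nodes A).erase (some (Sum.inl i)), (nd y k (some (Sum.inl i)) - nd y k t') =
      (y i + k / 2) * ((∏ j ∈ univ.erase i, (y i - y j)) * ∏ j ∈ A, (y i + y j)) := by
    have e1 : (nodes A).erase (some (Sum.inl i)) =
        Finset.insertNone ((univ.erase i).disjSum A) := by
      ext t
      unfold nodes
      rcases t with _ | (j | j)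
      · simp
      · simp [Finset.mem_insertNone]
      · simp [Finset.mem_insertNone]
    rw [e1, Finset.prod_insertNone, Finset.prod_disjSum]
    simp only [nd]
    congr 1
    · ring
    · congr 1
      apply Finset.prod_congr rfl
      intro j _
      ring
  rw [hprod, num_eval]
  simp only [nd]
  have a1 := mul_prod_J A (fun j => y i + k - y j) i
  have a2 := mul_prod_J A (fun j => y i + y j) i
  have a3 : ∏ j, (y i + k + y j) = (2 * y i + k) * ∏ j ∈ univ.erase i, (y i + k + y j) := by
    rw [← Finset.mul_prod_erase _ _ (Finset.mem_univ i)]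
    congr 1
    ring
  rw [show y i + k - y i = k by ring] at a1
  rw [show y i + y i = 2 * y i by ring] at a2
  have n1 : ∏ j ∈ Aᶜ, (y i + k - y j) ≠ 0 := Finset.prod_ne_zero_iff.2 fun j hj => h5 i j hj
  have n2 : ∏ j ∈ A, (y i + y j) ≠ 0 := Finset.prod_ne_zero_iff.2 fun j _ => h2 i j
  have n3 : ∏ j ∈ univ.erase i, (y i - y j) ≠ 0 := Finset.prod_ne_zero_iff.2 fun j hj =>
    sub_ne_zero.2 (h1 i j (fun h => Finset.ne_of_mem_erase hj h.symm))
  have n4 : ∏ j ∈ univ.erase i, (y i + y j) ≠ 0 := Finset.prod_ne_zero_iff.2 fun j _ => h2 i j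
  have n5 := h3 i
  have n6 : y i + k / 2 ≠ 0 := by
    intro h
    apply n5
    linear_combination 2 * h
  have n7 : y i ≠ 0 := by
    intro h
    exact h2 i i (by rw [h, add_zero])
  rw [a3]
  unfold addT
  rw [Finset.prod_div_distrib, Finset.prod_div_distrib, Finset.prod_mul_distrib,
    Finset.prod_mul_distrib]
  rw [div_eq_iff (mul_ne_zero n6 (mul_ne_zero n3 n2))]
  generalize hp1 : ∏ j ∈ univ.erase i, (y i + k - y j) = p1 at *
  generalize hp2 : ∏ j ∈ univ.erase i, (y i + k + y j) = p2 at *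
  generalize hp3 : ∏ j ∈ univ.erase i, (y i - y j) = p3 at *
  generalize hp4 : ∏ j ∈ univ.erase i, (y i + y j) = p4 at *
  generalize hp5 : ∏ j ∈ Aᶜ, (y i + y j) = p5 at *
  generalize hp6 : ∏ j ∈ Aᶜ, (y i + k - y j) = p6 at *
  generalize hp7 : ∏ j ∈ A, (y i + k - y j) = p7 at *
  generalize hp8 : ∏ j ∈ A, (y i + y j) = p8 at *
  -- a1 : p7 * p6 = k * p1 ; a2 : p8 * p5 = 2 y p4
  field_simp
  linear_combination (2 * y i * (2 * y i + k) * p2 * p4) * a1 -
    (k * p1 * p2 * (2 * y i + k)) * a2

theorem term_inr (hk : k ≠ 0) (h1 : ∀ i j, i ≠ j → y i ≠ y j) (h2 : ∀ i j, y i + y j ≠ 0)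
    (h4 : ∀ i, 2 * y i - k ≠ 0) (h6 : ∀ i, ∀ j ∈ Aᶜ, y i - k + y j ≠ 0) (i : Fin n)
    (hi : i ∈ A) :
    (num y k A).eval (nd y k (some (Sum.inr i))) /
      ∏ t' ∈ (nodes A).erase (some (Sum.inr i)), (nd y k (some (Sum.inr i)) - nd y k t') =
      k * remT y k A i := by
  have hprod : ∏ t' ∈ (nodes A).erase (some (Sum.inr i)), (nd y k (some (Sum.inr i)) - nd y k t') =
      (-y i + k / 2) * ((∏ j, (-y i - y j)) * ∏ j ∈ A.erase i, (-y i + y j)) := by
    have e1 : (nodes A).erase (some (Sum.inr i)) =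
        Finset.insertNone ((univ : Finset (Fin n)).disjSum (A.erase i)) := by
      ext t
      unfold nodes
      rcases t with _ | (j | j)
      · simp
      · simp [Finset.mem_insertNone]
      · simp [Finset.mem_insertNone]
    rw [e1, Finset.prod_insertNone, Finset.prod_disjSum]
    simp only [nd]
    congr 1
    · ring
    · congr 1
      apply Finset.prod_congr rfl
      intro j _
      ring
  rw [hprod, num_eval]
  simp only [nd]
  have hicompl : i ∉ Aᶜ := fun h => (Finset.mem_compl.1 h) hi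
  have a1 := mul_prod_J A (fun j => y i - k + y j) i
  have a2 : (∏ j ∈ A.erase i, (y i - y j)) * ∏ j ∈ Aᶜ, (y i - y j) =
      ∏ j ∈ univ.erase i, (y i - y j) := by
    rw [← Finset.prod_union]
    · congr 1
      ext x
      simp only [Finset.mem_union, Finset.mem_erase, Finset.mem_compl, Finset.mem_univ, and_true]
      constructor
      · rintro (h | h)
        · exact h.1
        · intro hx
          rw [hx] at h
          exact h hi
      · intro h
        by_cases hx : x ∈ A
        · exact Or.inl ⟨h, hx⟩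
        · exact Or.inr hx
    · rw [Finset.disjoint_left]
      intro x hx hx'
      exact (Finset.mem_compl.1 hx') (Finset.mem_of_mem_erase hx)
  have a3 : ∏ j ∈ A, (-y i + k - y j) = (-1) ^ A.card * ∏ j ∈ A, (y i - k + y j) := by
    rw [← Finset.prod_const, ← Finset.prod_mul_distrib]
    apply Finset.prod_congr rfl
    intro j _
    ring
  have a4 : ∏ j, (-y i + k + y j) = (-1) ^ n * (-k * ∏ j ∈ univ.erase i, (y i - k - y j)) := by
    have : ∏ j, (-y i + k + y j) = (-1) ^ n * ∏ j, (y i - k - y j) :=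
      prod_neg' _ _ (fun j => by ring)
    rw [this, ← Finset.mul_prod_erase _ _ (Finset.mem_univ i)]
    congr 2
    ring
  have a5 : ∏ j, (-y i - y j) = (-1) ^ n * (2 * y i * ∏ j ∈ univ.erase i, (y i + y j)) := by
    have : ∏ j, (-y i - y j) = (-1) ^ n * ∏ j, (y i + y j) :=
      prod_neg' _ _ (fun j => by ring)
    rw [this, ← Finset.mul_prod_erase _ _ (Finset.mem_univ i)]
    congr 2
    ring
  have a6 : (-1 : K) * ∏ j ∈ A.erase i, (-y i + y j) =
      (-1) ^ A.card * ∏ j ∈ A.erase i, (y i - y j) := by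
    have : ∏ j ∈ A.erase i, (-y i + y j) = (-1) ^ (A.erase i).card *
        ∏ j ∈ A.erase i, (y i - y j) := by
      rw [← Finset.prod_const, ← Finset.prod_mul_distrib]
      apply Finset.prod_congr rfl
      intro j _
      ring
    rw [this, ← mul_assoc, ← pow_succ', Finset.card_erase_add_one hi]
  rw [show y i - k + y i = 2 * y i - k by ring] at a1
  have n1 : ∏ j ∈ Aᶜ, (y i - k + y j) ≠ 0 := Finset.prod_ne_zero_iff.2 fun j hj => h6 i j hj
  have n3 : ∏ j ∈ univ.erase i, (y i - y j) ≠ 0 := Finset.prod_ne_zero_iff.2 fun j hj =>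
    sub_ne_zero.2 (h1 i j (fun h => Finset.ne_of_mem_erase hj h.symm))
  have n4 : ∏ j ∈ univ.erase i, (y i + y j) ≠ 0 := Finset.prod_ne_zero_iff.2 fun j _ => h2 i j
  have n5 := h4 i
  have n6 : -y i + k / 2 ≠ 0 := by
    intro h
    apply n5
    linear_combination (-2) * h
  have n7 : y i ≠ 0 := by
    intro h
    exact h2 i i (by rw [h, add_zero])
  have n8 : ∏ j ∈ A.erase i, (-y i + y j) ≠ 0 := Finset.prod_ne_zero_iff.2 fun j hj => by
    have := h1 i j (fun h => Finset.ne_of_mem_erase hj h.symm)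
    intro h
    apply this
    linear_combination -h
  rw [a3, a4, a5]
  unfold remT
  rw [Finset.prod_div_distrib, Finset.prod_div_distrib, Finset.prod_mul_distrib,
    Finset.prod_mul_distrib]
  have s1 : ((-1 : K) ^ A.card) ^ 2 = 1 := by rw [← pow_mul, mul_comm, pow_mul]; norm_num
  have s2 : ((-1 : K) ^ n) ^ 2 = 1 := by rw [← pow_mul, mul_comm, pow_mul]; norm_num
  have m1 : ((-1 : K) ^ n) ≠ 0 := pow_ne_zero _ (by norm_num)
  rw [div_eq_iff (mul_ne_zero n6 (mul_ne_zero (mul_ne_zero m1 (mul_ne_zero (mul_ne_zero two_ne_zero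
    n7) n4)) n8))]
  generalize hp1 : ∏ j ∈ univ.erase i, (y i - k - y j) = p1 at *
  generalize hp2 : ∏ j ∈ univ.erase i, (y i - k + y j) = p2 at *
  generalize hp3 : ∏ j ∈ univ.erase i, (y i - y j) = p3 at *
  generalize hp4 : ∏ j ∈ univ.erase i, (y i + y j) = p4 at *
  generalize hp5 : ∏ j ∈ Aᶜ, (y i - y j) = p5 at *
  generalize hp6 : ∏ j ∈ Aᶜ, (y i - k + y j) = p6 at *
  generalize hp7 : ∏ j ∈ A, (y i - k + y j) = p7 at *
  generalize hp8 : ∏ j ∈ A.erase i, (-y i + y j) = p8 at *
  generalize hp9 : ∏ j ∈ A.erase i, (y i - y j) = p9 at *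
  generalize hs : (-1 : K) ^ A.card = sA at *
  generalize hs' : (-1 : K) ^ n = sn at *
  -- a1 : p7 * p6 = (2y - k) p2 ; a2 : p9 * p5 = p3 ; a6 : -p8 = sA p9
  have e8 : p8 = -(sA * p9) := by linear_combination -a6
  rw [e8]
  have n5' : p5 ≠ 0 := by
    intro h
    rw [h, mul_zero] at a2
    exact n3 a2.symm
  have n9' : p9 ≠ 0 := by
    intro h
    rw [h, zero_mul] at a2
    exact n3 a2.symm
  rw [← a2]
  have e7 : p7 = (2 * y i - k) * p2 / p6 := by
    rw [eq_div_iff n1]
    exact a1
  rw [e7]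
  field_simp
  ring

theorem term_none (_hk : k ≠ 0) (h3 : ∀ i, 2 * y i + k ≠ 0) (h4 : ∀ i, 2 * y i - k ≠ 0) :
    (num y k A).eval (nd y k none) /
      ∏ t' ∈ (nodes A).erase none, (nd y k none - nd y k t') =
      -(k / 2) * (-1) ^ (n + A.card) := by
  have hprod : ∏ t' ∈ (nodes A).erase none, (nd y k none - nd y k t') =
      ((∏ j, (-k / 2 - y j)) * ∏ j ∈ A, (-k / 2 + y j)) := by
    rw [erase_none, Finset.prod_map, Finset.prod_disjSum]
    simp only [nd, Function.Embedding.some_apply]
    congr 1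
    apply Finset.prod_congr rfl
    intro j _
    ring
  rw [hprod, num_eval]
  simp only [nd]
  have a1 : ∏ j ∈ A, (-k / 2 + k - y j) = (-1) ^ A.card * ∏ j ∈ A, (-k / 2 + y j) := by
    rw [← Finset.prod_const, ← Finset.prod_mul_distrib]
    apply Finset.prod_congr rfl
    intro j _
    ring
  have a2 : ∏ j, (-k / 2 + k + y j) = (-1) ^ n * ∏ j, (-k / 2 - y j) :=
    prod_neg' _ _ (fun j => by ring)
  have n1 : ∏ j ∈ A, (-k / 2 + y j) ≠ 0 := Finset.prod_ne_zero_iff.2 fun j _ => by
    intro h
    apply h4 j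
    linear_combination 2 * h
  have n2 : ∏ j, (-k / 2 - y j) ≠ 0 := Finset.prod_ne_zero_iff.2 fun j _ => by
    intro h
    apply h3 j
    linear_combination (-2) * h
  rw [a1, a2, div_eq_iff (mul_ne_zero n2 n1), pow_add]
  ring

theorem rat_identity (hk : k ≠ 0) (h1 : ∀ i j, i ≠ j → y i ≠ y j) (h2 : ∀ i j, y i + y j ≠ 0)
    (h3 : ∀ i, 2 * y i + k ≠ 0) (h4 : ∀ i, 2 * y i - k ≠ 0)
    (h5 : ∀ i, ∀ j ∈ Aᶜ, y i + k - y j ≠ 0) (h6 : ∀ i, ∀ j ∈ Aᶜ, y i - k + y j ≠ 0) :
    k * (∑ i, addT y k A i + ∑ i ∈ A, remT y k A i) =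
      (n + A.card) * k + 2 * ∑ j ∈ Aᶜ, y j - k / 2 + (k / 2) * (-1) ^ (n + A.card) := by
  have hinj : Set.InjOn (nd y k) (nodes A) := by
    intro s _ t _ hst
    rcases s with _ | (i | i) <;> rcases t with _ | (j | j) <;> simp only [nd] at hst
    · rfl
    · exact absurd (by linear_combination (-2) * hst : 2 * y j + k = 0) (h3 j)
    · exact absurd (by linear_combination 2 * hst : 2 * y j - k = 0) (h4 j)
    · exact absurd (by linear_combination 2 * hst : 2 * y i + k = 0) (h3 i)
    · by_cases hij : i = j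
      · rw [hij]
      · exact absurd hst (h1 i j hij)
    · exact absurd (by linear_combination hst : y i + y j = 0) (h2 i j)
    · exact absurd (by linear_combination (-2) * hst : 2 * y i - k = 0) (h4 i)
    · exact absurd (by linear_combination -hst : y i + y j = 0) (h2 i j)
    · by_cases hij : i = j
      · rw [hij]
      · exact absurd (neg_injective hst) (h1 i j hij)
  have h := rat_sum y k A hinj
  rw [sum_nodes, sum_nodes, term_none y k A hk h3 h4] at h
  rw [Finset.sum_congr rfl (fun i _ => term_inl y k A hk h1 h2 h3 h5 i),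
    Finset.sum_congr rfl (fun i hi => term_inr y k A hk h1 h2 h4 h6 i hi),
    ← Finset.mul_sum, ← Finset.mul_sum] at h
  simp only [nd] at h
  have e3 : ∑ j ∈ A, y j + ∑ j ∈ Aᶜ, y j = ∑ j, y j := Finset.sum_add_sum_compl A y
  simp only [Finset.sum_sub_distrib, Finset.sum_add_distrib, Finset.sum_const, Finset.sum_neg_distrib,
    Finset.card_univ, Fintype.card_fin, nsmul_eq_mul] at h
  linear_combination h - 2 * e3

end rat

end Pool.Agent.Q156.SC
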