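import Mathlib

set_option autoImplicit false
set_option linter.unusedSectionVars false

/-!
# Binomial series and logarithmic derivatives
-/

namespace Pool.Agent.Q156.SC

open Finset PowerSeries

section general

variable {R : Type*} [CommRing R] [Algebra ℚ R]

/-- the binomial coefficient `a (a - 1) ... (a - m + 1) / m!` -/
noncomputable def binom (a : R) (m : ℕ) : R :=
  algebraMap ℚ R (1 / (m.factorial : ℚ)) * ∏ r ∈ Finset.range m, (a - r)

/-- the binomial series `(1 - x^k)^a = ∑ m, binom a m * (-x^k)^m`, for `k ≥ 1` -/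
noncomputable def pw (k : ℕ) (a : R) : PowerSeries R :=
  PowerSeries.mk fun n => if k ∣ n then (-1) ^ (n / k) * binom a (n / k) else 0

theorem map_binom {S : Type*} [CommRing S] [Algebra ℚ S] (φ : R →ₐ[ℚ] S) (a : R) (m : ℕ) :
    φ (binom a m) = binom (φ a) m := by
  unfold binom
  rw [map_mul, AlgHom.commutes, map_prod]
  congr 1
  apply Finset.prod_congr rfl
  intro r _
  rw [map_sub, map_natCast]

theorem map_pw {S : Type*} [CommRing S] [Algebra ℚ S] (φ : R →ₐ[ℚ] S) (k : ℕ) (a : R) :
    PowerSeries.map (φ : R →+* S) (pw k a) = pw k (φ a) := by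
  ext n
  rw [PowerSeries.coeff_map]
  unfold pw
  rw [PowerSeries.coeff_mk, PowerSeries.coeff_mk]
  split_ifs
  · have h := map_binom φ a (n / k)
    rw [map_mul, map_pow, map_neg, map_one]
    congr 1
  · exact map_zero _

end general

/-- `x d/dx` -/
noncomputable def th (F : PowerSeries ℚ) : PowerSeries ℚ := PowerSeries.mk fun n => n * coeff n F

theorem coeff_th (F : PowerSeries ℚ) (n : ℕ) : coeff n (th F) = n * coeff n F := by
  unfold th
  rw [PowerSeries.coeff_mk]

theorem th_mul (F G : PowerSeries ℚ) : th (F * G) = th F * G + F * th G := by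
  ext n
  rw [coeff_th, map_add, PowerSeries.coeff_mul, PowerSeries.coeff_mul, PowerSeries.coeff_mul,
    Finset.mul_sum, ← Finset.sum_add_distrib]
  apply Finset.sum_congr rfl
  intro x hx
  rw [Finset.HasAntidiagonal.mem_antidiagonal] at hx
  rw [coeff_th, coeff_th, ← hx]
  push_cast
  ring

/-- the geometric series `∑_{r ≥ 1} x^{k r}` -/
noncomputable def geo (k : ℕ) : PowerSeries ℚ :=
  PowerSeries.mk fun n => if k ∣ n ∧ n ≠ 0 then 1 else 0

theorem coeff_one_sub_mul (k : ℕ) (F : PowerSeries ℚ) (n : ℕ) :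
    coeff n ((1 - X ^ k) * F) = coeff n F - if k ≤ n then coeff (n - k) F else 0 := by
  rw [sub_mul, one_mul, map_sub, PowerSeries.coeff_X_pow_mul']

theorem geo_mul {k : ℕ} (hk : 1 ≤ k) : (1 - X ^ k) * geo k = X ^ k := by
  ext n
  rw [coeff_one_sub_mul, PowerSeries.coeff_X_pow]
  unfold geo
  rw [PowerSeries.coeff_mk, PowerSeries.coeff_mk]
  by_cases h : k ∣ n
  · obtain ⟨m, rfl⟩ := h
    rcases Nat.eq_zero_or_pos m with h0 | h0
    · subst h0
      rw [Nat.mul_zero, if_neg (by simp), if_neg (by omega), if_neg (by omega)]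
      ring
    · have h1 : k ≤ k * m := Nat.le_mul_of_pos_right k h0
      have h2 : k * m ≠ 0 := by omega
      rw [if_pos ⟨Dvd.intro m rfl, h2⟩, if_pos h1]
      rcases Nat.lt_or_ge m 2 with h3 | h3
      · have : m = 1 := by omega
        subst this
        rw [Nat.mul_one, Nat.sub_self, if_neg (by simp), if_pos rfl]
        ring
      · have h4 : k * m - k = k * (m - 1) := by
          rw [Nat.mul_sub_one]
        have h5 : k * 1 ≤ k * (m - 1) := Nat.mul_le_mul_left k (by omega)
        have h6 : k * 2 ≤ k * m := Nat.mul_le_mul_left k h3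
        rw [h4, if_pos ⟨Dvd.intro _ rfl, by omega⟩, if_neg (by omega)]
        ring
  · have hnk : ¬ n = k := by
      rintro rfl
      exact h (dvd_refl _)
    rw [if_neg (fun h1 => h h1.1), if_neg hnk]
    by_cases h1 : k ≤ n
    · rw [if_pos h1, if_neg]
      · ring
      · rintro ⟨h2, _⟩
        apply h
        have := Nat.dvd_add h2 (dvd_refl k)
        rwa [Nat.sub_add_cancel h1] at this
    · rw [if_neg h1]
      ring

theorem one_sub_ne {k : ℕ} (hk : 1 ≤ k) : (1 - X ^ k : PowerSeries ℚ) ≠ 0 := by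
  intro h
  have := congrArg (coeff 0) h
  rw [map_sub, PowerSeries.coeff_X_pow, if_neg (by omega)] at this
  simp at this

/-- `F` has logarithmic derivative `C` -/
def LD (F C : PowerSeries ℚ) : Prop := th F = C * F

theorem LD.mul {F C F' C' : PowerSeries ℚ} (h : LD F C) (h' : LD F' C') :
    LD (F * F') (C + C') := by
  unfold LD at *
  rw [th_mul, h, h']
  ring

theorem LD_one : LD 1 0 := by
  unfold LD
  ext n
  rw [coeff_th, zero_mul, PowerSeries.coeff_one]
  split_ifs with h
  · subst h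
    simp
  · simp

theorem LD.prod {ι : Type} (s : Finset ι) (F C : ι → PowerSeries ℚ) (h : ∀ i ∈ s, LD (F i) (C i)) :
    LD (∏ i ∈ s, F i) (∑ i ∈ s, C i) := by
  classical
  induction s using Finset.induction_on with
  | empty => exact LD_one
  | insert a s ha ih =>
    rw [Finset.prod_insert ha, Finset.sum_insert ha]
    exact (h a (Finset.mem_insert_self _ _)).mul (ih (fun i hi => h i (Finset.mem_insert_of_mem hi)))

theorem LD_one_sub {k : ℕ} (hk : 1 ≤ k) :
    LD (1 - X ^ k) (PowerSeries.C (-(k : ℚ)) * geo k) := by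
  unfold LD
  rw [mul_assoc, mul_comm (geo k), geo_mul hk]
  ext n
  rw [coeff_th, map_sub, PowerSeries.coeff_C_mul, PowerSeries.coeff_X_pow, PowerSeries.coeff_one]
  by_cases h : n = k
  · subst h
    rw [if_pos rfl, if_neg (by omega)]
    ring
  · rw [if_neg h]
    by_cases h0 : n = 0
    · subst h0
      simp
    · rw [if_neg h0]
      ring

theorem binom_succ (a : ℚ) (m : ℕ) :
    ((m : ℚ) + 1) * binom a (m + 1) = (a - m) * binom a m := by
  unfold binom
  rw [Finset.prod_range_succ, Nat.factorial_succ]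
  simp only [eq_ratCast, Rat.cast_id]
  have h1 : ((m : ℚ) + 1) ≠ 0 := by positivity
  have h2 : ((m.factorial : ℕ) : ℚ) ≠ 0 := by positivity
  push_cast
  field_simp

theorem LD_pw {k : ℕ} (hk : 1 ≤ k) (a : ℚ) :
    LD (pw k a) (PowerSeries.C (-(a * k : ℚ)) * geo k) := by
  unfold LD
  apply mul_left_cancel₀ (one_sub_ne hk)
  have e1 : (1 - X ^ k) * (PowerSeries.C (-(a * k : ℚ)) * geo k * pw k a) =
      PowerSeries.C (-(a * k : ℚ)) * (X ^ k * pw k a) := by
    have e0 := geo_mul hk
    calc (1 - X ^ k) * (PowerSeries.C (-(a * k : ℚ)) * geo k * pw k a) =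
        PowerSeries.C (-(a * k : ℚ)) * (((1 - X ^ k) * geo k) * pw k a) := by ring
      _ = _ := by rw [e0]
  rw [e1]
  ext n
  rw [coeff_one_sub_mul, PowerSeries.coeff_C_mul, PowerSeries.coeff_X_pow_mul', coeff_th, coeff_th]
  unfold pw
  rw [PowerSeries.coeff_mk, PowerSeries.coeff_mk]
  rcases Nat.lt_or_ge n k with h | h
  · have hkn : ¬ k ≤ n := by omega
    rw [if_neg hkn, if_neg hkn]
    by_cases h0 : n = 0
    · subst h0
      simp
    · rw [if_neg]
      · ring
      · intro h1
        have := Nat.le_of_dvd (by omega) h1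
        omega
  · obtain ⟨m, rfl⟩ : ∃ m, n = m + k := ⟨n - k, by omega⟩
    rw [if_pos h, if_pos h, Nat.add_sub_cancel]
    have e2 : k ∣ m + k ↔ k ∣ m := (Nat.dvd_add_left (dvd_refl k))
    by_cases hd : k ∣ m
    · rw [if_pos hd, if_pos (e2.2 hd), Nat.add_div_right _ (by omega)]
      obtain ⟨q, rfl⟩ := hd
      rw [Nat.mul_div_cancel_left _ (by omega)]
      have hb := binom_succ a q
      push_cast
      rw [pow_succ]
      linear_combination (-(-1) ^ q * (k : ℚ)) * hb
    · rw [if_neg hd, if_neg (fun h1 => hd (e2.1 h1))]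
      ring

/-- uniqueness -/
theorem LD.unique {F C G C' : PowerSeries ℚ} (h : LD F C) (h' : LD G C') (M : ℕ)
    (h0 : coeff 0 F = coeff 0 G) (hC0 : coeff 0 C = 0)
    (hC : ∀ m, m ≤ M → coeff m C = coeff m C') : ∀ N, N ≤ M → coeff N F = coeff N G := by
  intro N
  induction N using Nat.strong_induction_on with
  | _ N ih =>
    intro hN
    rcases Nat.eq_zero_or_pos N with h1 | h1
    · subst h1
      exact h0
    · have e1 := congrArg (coeff N) h
      have e2 := congrArg (coeff N) h'
      rw [coeff_th, PowerSeries.coeff_mul] at e1 e2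
      have e3 : ∑ x ∈ HasAntidiagonal.antidiagonal N, coeff x.1 C * coeff x.2 F =
          ∑ x ∈ HasAntidiagonal.antidiagonal N, coeff x.1 C' * coeff x.2 G := by
        apply Finset.sum_congr rfl
        intro x hx
        rw [Finset.HasAntidiagonal.mem_antidiagonal] at hx
        rw [← hC x.1 (by omega)]
        by_cases hx1 : x.1 = 0
        · rw [hx1, hC0]
          ring
        · rw [ih x.2 (by omega) (by omega)]
      rw [e3, ← e2] at e1
      have h2 : (N : ℚ) ≠ 0 := by exact_mod_cast (by omega : N ≠ 0)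
      exact mul_left_cancel₀ h2 e1

/-! ## Divisor sums -/

theorem sum_progression (a b : ℕ) (hb : b < a) {m M : ℕ} (h1 : 1 ≤ m) (hM : m ≤ M) :
    ∑ j ∈ Icc 1 M, (if a * j - b ∣ m then ((a * j - b : ℕ) : ℚ) else 0) =
      ∑ y ∈ m.divisorsAntidiagonal, (if a ∣ y.2 + b then (y.2 : ℚ) else 0) := by
  rw [← Finset.sum_filter, ← Finset.sum_filter]
  have key : ∀ j, 1 ≤ j → b < a * j := by
    intro j hj
    exact lt_of_lt_of_le hb (Nat.le_mul_of_pos_right a hj)
  apply Finset.sum_bij (fun j _ => (m / (a * j - b), a * j - b))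
  · intro j hj
    rw [Finset.mem_filter, Finset.mem_Icc] at hj
    rw [Finset.mem_filter, Nat.mem_divisorsAntidiagonal]
    have := key j hj.1.1
    refine ⟨⟨Nat.div_mul_cancel hj.2, by omega⟩, ?_⟩
    show a ∣ a * j - b + b
    rw [Nat.sub_add_cancel this.le]
    exact Dvd.intro j rfl
  · intro i hi j hj hij
    rw [Finset.mem_filter, Finset.mem_Icc] at hi hj
    simp only [Prod.mk.injEq] at hij
    have h2 := key i hi.1.1
    have h3 := key j hj.1.1
    have h4 : a * i = a * j := by omega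
    exact Nat.eq_of_mul_eq_mul_left (by omega) h4
  · rintro ⟨c, d⟩ h
    rw [Finset.mem_filter, Nat.mem_divisorsAntidiagonal] at h
    obtain ⟨⟨h2, h3⟩, ⟨j, hj⟩⟩ := h
    simp only at h2 hj
    have hd : d ≠ 0 := by
      rintro rfl
      rw [Nat.mul_zero] at h2
      omega
    have hc : c ≠ 0 := by
      rintro rfl
      rw [Nat.zero_mul] at h2
      omega
    have hj0 : j ≠ 0 := by
      rintro rfl
      rw [Nat.mul_zero] at hj
      omega
    have hdm : d ≤ m := by
      rw [← h2]
      exact Nat.le_mul_of_pos_left d (by omega)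
    refine ⟨j, ?_, ?_⟩
    · rw [Finset.mem_filter, Finset.mem_Icc]
      have e1 : a * j - b = d := by omega
      rw [e1]
      refine ⟨⟨by omega, ?_⟩, ?_⟩
      · by_contra hc
        have h4 : a * (M + 1) ≤ a * j := Nat.mul_le_mul_left a (by omega)
        have h5 : a * (M + 1) = a * M + a := by ring
        have h6 : M ≤ a * M := Nat.le_mul_of_pos_left M (by omega)
        omega
      · rw [← h2]
        exact Dvd.intro_left c rfl
    · have e1 : a * j - b = d := by omega
      rw [e1]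
      have e2 : m / d = c := by
        rw [← h2]
        exact Nat.mul_div_cancel _ (by omega)
      rw [e2]
  · intro j _
    rfl

theorem sum_swap {m : ℕ} (φ : ℕ → ℕ → ℚ) :
    ∑ y ∈ m.divisorsAntidiagonal, φ y.1 y.2 = ∑ y ∈ m.divisorsAntidiagonal, φ y.2 y.1 := by
  conv_rhs => rw [← Nat.map_swap_divisorsAntidiagonal]
  rw [Finset.sum_map]
  rfl

theorem sum_double {m : ℕ} (ψ : ℕ → ℕ → ℚ) :
    ∑ y ∈ m.divisorsAntidiagonal, (if 2 ∣ y.1 then ψ (y.1 / 2) (2 * y.2) else 0) =
      ∑ y ∈ m.divisorsAntidiagonal, (if 2 ∣ y.2 then ψ y.1 y.2 else 0) := by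
  rw [← Finset.sum_filter, ← Finset.sum_filter]
  apply Finset.sum_bij (fun y _ => (y.1 / 2, 2 * y.2))
  · rintro ⟨c, d⟩ h
    rw [Finset.mem_filter, Nat.mem_divisorsAntidiagonal] at h ⊢
    obtain ⟨⟨h1, h2⟩, ⟨e, h3⟩⟩ := h
    simp only at h1 h3
    refine ⟨⟨?_, h2⟩, Dvd.intro _ rfl⟩
    show c / 2 * (2 * d) = m
    rw [← h1, h3, Nat.mul_div_cancel_left _ (by omega)]
    ring
  · rintro ⟨c, d⟩ h ⟨c', d'⟩ h' hh
    rw [Finset.mem_filter] at h h'
    obtain ⟨e, h3⟩ := h.2
    obtain ⟨e', h3'⟩ := h'.2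
    simp only [Prod.mk.injEq] at hh h3 h3'
    ext
    · show c = c'
      omega
    · show d = d'
      omega
  · rintro ⟨c, d⟩ h
    rw [Finset.mem_filter, Nat.mem_divisorsAntidiagonal] at h
    obtain ⟨⟨h1, h2⟩, ⟨e, h3⟩⟩ := h
    simp only at h1 h3
    refine ⟨(2 * c, e), ?_, ?_⟩
    · rw [Finset.mem_filter, Nat.mem_divisorsAntidiagonal]
      refine ⟨⟨?_, h2⟩, Dvd.intro _ rfl⟩
      show 2 * c * e = m
      rw [← h1, h3]
      ring
    · simp only [Prod.mk.injEq]
      omega
  · rintro ⟨c, d⟩ _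
    rfl

end Pool.Agent.Q156.SC
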