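import Mathlib
import Pool.Agent.Q156.SC.Ps

set_option autoImplicit false
set_option linter.unusedSectionVars false

/-!
# The divisor sum identities
-/

namespace Pool.Agent.Q156.SC

open Finset

/-- `1` for even `k`, else `0` -/
def ev (k : ℕ) : ℚ := if 2 ∣ k then 1 else 0

/-- coefficients, case `V_z, V_{-z}` -/
def tauA (z : ℚ) (k j : ℕ) : ℚ :=
  if 2 ∣ j then -(j : ℚ) * (z ^ 2 + ev k) + k else (j : ℚ) * (-z ^ 2 + ev k)

theorem sum_tauA (z : ℚ) (m : ℕ) :
    ∑ y ∈ m.divisorsAntidiagonal, tauA z y.1 y.2 =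
      ∑ y ∈ m.divisorsAntidiagonal, (if 4 ∣ y.2 + 2 then (y.2 : ℚ) else 0) +
      (-z ^ 2) * ∑ y ∈ m.divisorsAntidiagonal, (y.2 : ℚ) := by
  have h1 := sum_swap (m := m) (fun k j => if 2 ∣ j then (k : ℚ) else 0)
  have h2 := sum_double (m := m) (fun _ j => if 4 ∣ j + 2 then (j : ℚ) else 0)
  have e1 : ∀ y ∈ m.divisorsAntidiagonal, tauA z y.1 y.2 = (-z ^ 2) * (y.2 : ℚ) +
      (if 2 ∣ y.1 then (if 2 ∣ y.2 then -(y.2 : ℚ) else y.2) else 0) +
      (if 2 ∣ y.2 then (y.1 : ℚ) else 0) := by
    intro y _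
    unfold tauA ev
    split_ifs <;> ring
  have e2 : ∀ y ∈ m.divisorsAntidiagonal,
      (if 2 ∣ y.1 then (if 2 ∣ y.2 then -(y.2 : ℚ) else y.2) else 0) +
      (if 2 ∣ y.1 then (y.2 : ℚ) else 0) =
      (if 2 ∣ y.1 then (if 4 ∣ 2 * y.2 + 2 then ((2 * y.2 : ℕ) : ℚ) else 0) else 0) := by
    intro y _
    by_cases h3 : 2 ∣ y.1
    · by_cases h4 : 2 ∣ y.2
      · rw [if_pos h3, if_pos h3, if_pos h3, if_pos h4, if_neg (by omega)]
        ring
      · rw [if_pos h3, if_pos h3, if_pos h3, if_neg h4, if_pos (by omega)]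
        push_cast
        ring
    · rw [if_neg h3, if_neg h3, if_neg h3]
      ring
  have e3 : ∀ y ∈ m.divisorsAntidiagonal,
      (if 2 ∣ y.2 then (if 4 ∣ y.2 + 2 then (y.2 : ℚ) else 0) else 0) =
      (if 4 ∣ y.2 + 2 then (y.2 : ℚ) else 0) := by
    intro y _
    by_cases h4 : 4 ∣ y.2 + 2
    · rw [if_pos h4, if_pos (by omega)]
    · rw [if_neg h4]
      split_ifs <;> rfl
  rw [Finset.sum_congr rfl e1, Finset.sum_add_distrib, Finset.sum_add_distrib, h1, add_assoc,
    ← Finset.sum_add_distrib, Finset.sum_congr rfl e2, h2, Finset.sum_congr rfl e3,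
    ← Finset.mul_sum]
  ring

def c1 (j : ℕ) : ℚ := if j % 4 = 1 then 1 else if j % 4 = 3 then -1 else 0

def c2 (j : ℕ) : ℚ := if j % 4 = 2 then 1 else if j % 4 = 0 then -1 else 0

theorem c1_succ (j : ℕ) : c1 (j + 1) = - c2 j := by
  unfold c1 c2
  have : j % 4 < 4 := Nat.mod_lt _ (by omega)
  rcases (by omega : j % 4 = 0 ∨ j % 4 = 1 ∨ j % 4 = 2 ∨ j % 4 = 3) with h | h | h | h
  · simp (disch := omega) only [if_pos, if_neg]; norm_num
  · simp (disch := omega) only [if_pos, if_neg]; norm_num
  · simp (disch := omega) only [if_pos, if_neg]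
  · simp (disch := omega) only [if_pos, if_neg]; norm_num

theorem c2_succ (j : ℕ) : c2 (j + 1) = c1 j := by
  unfold c1 c2
  have : j % 4 < 4 := Nat.mod_lt _ (by omega)
  rcases (by omega : j % 4 = 0 ∨ j % 4 = 1 ∨ j % 4 = 2 ∨ j % 4 = 3) with h | h | h | h <;>
    simp (disch := omega) only [if_pos, if_neg]

/-- coefficients, case `V_z, U` -/
def tauB (z : ℚ) (k j : ℕ) : ℚ :=
  c1 j * j * (z * (1 - ev k)) + c2 j * ((j : ℚ) / 2 * (z ^ 2 + 2 * z * ev k + (2 * ev k - 1)) - k)

/-- the exponents of the product -/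
def ex (t : ℚ) (j : ℕ) : ℚ :=
  t * (t - 1) / 2 * (if 8 ∣ j + 0 then (j : ℚ) else 0) +
  (1 - t * (t - 1) / 2) * (if 8 ∣ j + 6 then (j : ℚ) else 0) +
  t * (if 4 ∣ j + 1 then (j : ℚ) else 0) +
  (-t) * (if 4 ∣ j + 3 then (j : ℚ) else 0) +
  (t * (t + 1) / 2 - 1) * (if 8 ∣ j + 4 then (j : ℚ) else 0) +
  (1 - t * (t + 1) / 2) * (if 8 ∣ j + 2 then (j : ℚ) else 0)

/-- auxiliary -/
def ps1 (j : ℕ) : ℚ :=
  if j % 8 = 0 then -(j : ℚ) / 2 else if j % 8 = 2 then (j : ℚ) / 2 else
  if j % 8 = 4 then (j : ℚ) / 2 else if j % 8 = 6 then -(j : ℚ) / 2 else 0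

def ps2 (j : ℕ) : ℚ := if j % 8 = 4 then (j : ℚ) else 0

theorem case8 (j : ℕ) : j % 8 = 0 ∨ j % 8 = 1 ∨ j % 8 = 2 ∨ j % 8 = 3 ∨ j % 8 = 4 ∨ j % 8 = 5 ∨
    j % 8 = 6 ∨ j % 8 = 7 := by omega

theorem sum_tauB (t : ℚ) (m : ℕ) :
    (-1) ^ m * ∑ y ∈ m.divisorsAntidiagonal, tauB (-t) y.1 y.2 =
      - ∑ y ∈ m.divisorsAntidiagonal, ex t y.2 := by
  rcases Nat.even_or_odd m with hm | hm
  swap
  · -- odd
    rw [hm.neg_one_pow, neg_one_mul, neg_inj]
    apply Finset.sum_congr rfl
    rintro ⟨k, j⟩ hy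
    rw [Nat.mem_divisorsAntidiagonal] at hy
    have h1 : Odd (k * j) := by rw [hy.1]; exact hm
    rw [Nat.odd_mul] at h1
    obtain ⟨hk, hj⟩ := h1
    rw [Nat.odd_iff] at hk hj
    simp only
    unfold tauB ex c1 c2 ev
    rcases case8 j with h | h | h | h | h | h | h | h
    · omega
    · simp (disch := omega) only [if_pos, if_neg]
      ring
    · omega
    · simp (disch := omega) only [if_pos, if_neg]
      ring
    · omega
    · simp (disch := omega) only [if_pos, if_neg]
      ring
    · omega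
    · simp (disch := omega) only [if_pos, if_neg]
      ring
  · -- even
    rw [hm.neg_one_pow, one_mul]
    have d1 := sum_double (m := m) (fun _ j => ps1 j)
    have d2 := sum_double (m := m) (fun _ j => ps2 j)
    have d3 := sum_double (m := m) (fun k j => c2 j * k)
    have d4 := sum_swap (m := m) (fun k j => if 2 ∣ k then c2 (2 * j) * ((k / 2 : ℕ) : ℚ) else 0)
    have e1 : ∀ y ∈ m.divisorsAntidiagonal, tauB (-t) y.1 y.2 =
        - ex t y.2 + (-t) * ((if 2 ∣ y.1 then ps1 (2 * y.2) else 0) -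
          (if 2 ∣ y.2 then ps1 y.2 else 0)) +
        ((if 2 ∣ y.1 then ps2 (2 * y.2) else 0) - (if 2 ∣ y.2 then ps2 y.2 else 0)) +
        ((if 2 ∣ y.2 then c2 (2 * y.1) * ((y.2 / 2 : ℕ) : ℚ) else 0) -
          (if 2 ∣ y.2 then c2 y.2 * y.1 else 0)) := by
      rintro ⟨k, j⟩ hy
      rw [Nat.mem_divisorsAntidiagonal] at hy
      have h1 : Even (k * j) := by rw [hy.1]; exact hm
      rw [Nat.even_mul] at h1
      simp only
      have hk : k % 2 = 0 ∨ (k % 2 = 1 ∧ j % 2 = 0) := by
        rcases h1 with h1 | h1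
        · rw [Nat.even_iff] at h1
          exact Or.inl h1
        · rw [Nat.even_iff] at h1
          omega
      have hj2 : 2 ∣ j → ((j / 2 : ℕ) : ℚ) = (j : ℚ) / 2 := by
        intro h
        obtain ⟨q, rfl⟩ := h
        rw [Nat.mul_div_cancel_left _ (by omega)]
        push_cast
        ring
      unfold tauB ex c1 c2 ev ps1 ps2
      rcases hk with hk | ⟨hk, hk2⟩
      · rcases case8 j with h | h | h | h | h | h | h | h
        · rw [hj2 (by omega)]
          simp (disch := omega) only [if_pos, if_neg]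
          push_cast
          ring
        · simp (disch := omega) only [if_pos, if_neg]
          push_cast
          ring
        · rw [hj2 (by omega)]
          simp (disch := omega) only [if_pos, if_neg]
          push_cast
          ring
        · simp (disch := omega) only [if_pos, if_neg]
          push_cast
          ring
        · rw [hj2 (by omega)]
          simp (disch := omega) only [if_pos, if_neg]
          push_cast
          ring
        · simp (disch := omega) only [if_pos, if_neg]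
          push_cast
          ring
        · rw [hj2 (by omega)]
          simp (disch := omega) only [if_pos, if_neg]
          push_cast
          ring
        · simp (disch := omega) only [if_pos, if_neg]
          push_cast
          ring
      · rw [hj2 (by omega)]
        rcases case8 j with h | h | h | h | h | h | h | h
        · simp (disch := omega) only [if_pos, if_neg]
          push_cast
          ring
        · omega
        · simp (disch := omega) only [if_pos, if_neg]
          push_cast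
          ring
        · omega
        · simp (disch := omega) only [if_pos, if_neg]
          push_cast
          ring
        · omega
        · simp (disch := omega) only [if_pos, if_neg]
          push_cast
          ring
        · omega
    rw [Finset.sum_congr rfl e1, Finset.sum_add_distrib, Finset.sum_add_distrib,
      Finset.sum_add_distrib, ← Finset.mul_sum, Finset.sum_sub_distrib, Finset.sum_sub_distrib,
      Finset.sum_sub_distrib, d1, d2, ← d3, ← d4, Finset.sum_neg_distrib]
    ring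

end Pool.Agent.Q156.SC
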