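import Mathlib
import Pool.Agent.Q156.SC.Alt
import Pool.Agent.Q156.SC.Bd

set_option autoImplicit false
set_option linter.unusedSectionVars false

/-!
# Products over pairs, and the boundary equations
-/

namespace Pool.Agent.Q156.SC

open Finset

variable {n : ℕ} {K : Type} [Field K] [CharZero K]

/-- `∏_{i<j} s (l i) (l j) · ∏ w (l i)` -/
def Wf (s : ℤ → ℤ → K) (w : ℤ → K) (l : Fin n → ℤ) : K :=
  (∏ i, ∏ j ∈ Ioi i, s (l i) (l j)) * ∏ i, w (l i)

theorem Wf_swap {s : ℤ → ℤ → K} {w : ℤ → K} (hs : ∀ x y, s x y = - s y x) (l : Fin n → ℤ)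
    (i j : Fin n) (hij : i ≠ j) : Wf s w (l ∘ Equiv.swap i j) = - Wf s w l := by
  unfold Wf
  have h1 := Equiv.Perm.prod_Ioi_comp_eq_sign_mul_prod (R := K) (Equiv.swap i j)
    (f := fun a b => s (l a) (l b)) (fun a b => hs _ _)
  have h2 : ∏ a, w ((l ∘ Equiv.swap i j) a) = ∏ a, w (l a) :=
    Equiv.prod_comp (Equiv.swap i j) (fun a => w (l a))
  rw [h2]
  simp only [Function.comp_apply]
  rw [h1, Equiv.Perm.sign_swap hij]
  simp

theorem Wf_alt {s : ℤ → ℤ → K} {w : ℤ → K} (hs : ∀ x y, s x y = - s y x)
    (hw : ∀ m, m < 0 → w m = 0) : Alt (n := n) (Wf s w) := by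
  constructor
  · intro l i hi
    exact mul_eq_zero_of_right _ (Finset.prod_eq_zero (Finset.mem_univ i) (hw _ hi))
  · intro l i j hij
    exact Wf_swap hs l i j hij

theorem Wf_zero {m : ℕ} (s : ℤ → ℤ → K) (w : ℤ → K) (l : Fin (m + 1) → ℤ) :
    Wf s w l = ((∏ j : Fin m, s (l 0) (l j.succ)) * w (l 0)) * Wf s w (fun j : Fin m => l j.succ) := by
  unfold Wf
  rw [Fin.prod_univ_succ, Fin.prod_univ_succ, Fin.prod_Ioi_zero]
  simp only [Fin.prod_Ioi_succ]
  ring

theorem Wf_update {s : ℤ → ℤ → K} {w : ℤ → K} (hs : ∀ x y, s x y = - s y x) (l : Fin n → ℤ)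
    (i : Fin n) (k : ℤ) :
    Wf s w (l + Pi.single i k) * ((∏ j ∈ univ.erase i, s (l i) (l j)) * w (l i)) =
      Wf s w l * ((∏ j ∈ univ.erase i, s (l i + k) (l j)) * w (l i + k)) := by
  rcases n with _ | m
  · exact i.elim0
  have h0 : ∀ l : Fin (m + 1) → ℤ,
      Wf s w (l + Pi.single 0 k) * ((∏ j : Fin m, s (l 0) (l j.succ)) * w (l 0)) =
      Wf s w l * ((∏ j : Fin m, s (l 0 + k) (l j.succ)) * w (l 0 + k)) := by
    intro l
    rw [Wf_zero, Wf_zero]
    have h1 : (l + Pi.single 0 k : Fin (m + 1) → ℤ) 0 = l 0 + k := by simp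
    have h2 : ∀ j : Fin m, (l + Pi.single 0 k : Fin (m + 1) → ℤ) j.succ = l j.succ := by
      intro j
      simp
    simp only [h1, h2]
    ring
  have hprod : ∀ F : ℤ → K, ∏ j ∈ univ.erase i, F (l j) =
      ∏ j : Fin m, F ((l ∘ Equiv.swap 0 i) j.succ) := by
    intro F
    have h1 : ∏ j ∈ univ.erase (0 : Fin (m + 1)), F ((l ∘ Equiv.swap 0 i) j) =
        ∏ j ∈ univ.erase i, F (l j) := by
      apply Finset.prod_bij (fun j _ => Equiv.swap 0 i j)
      · intro j hj
        rw [Finset.mem_erase] at hj ⊢
        refine ⟨?_, Finset.mem_univ _⟩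
        intro h
        apply hj.1
        rw [Equiv.swap_apply_eq_iff, Equiv.swap_apply_right] at h
        exact h
      · intro a _ b _ hab
        exact (Equiv.swap 0 i).injective hab
      · intro b hb
        rw [Finset.mem_erase] at hb
        refine ⟨Equiv.swap 0 i b, ?_, ?_⟩
        · rw [Finset.mem_erase]
          refine ⟨?_, Finset.mem_univ _⟩
          intro h
          apply hb.1
          rw [Equiv.swap_apply_eq_iff, Equiv.swap_apply_left] at h
          exact h
        · exact Equiv.swap_apply_self _ _ _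
      · intro j _
        rfl
    rw [← h1]
    have h2 : (univ : Finset (Fin (m + 1))).erase 0 = univ.map (Fin.succEmb m) := by
      ext x
      simp only [Finset.mem_erase, Finset.mem_univ, and_true, Finset.mem_map, true_and,
        Fin.coe_succEmb]
      constructor
      · intro hx
        exact Fin.exists_succ_eq.2 hx
      · rintro ⟨y, rfl⟩
        exact Fin.succ_ne_zero y
    rw [h2, Finset.prod_map]
    rfl
  rw [hprod, hprod (s (l i + k))]
  have h3 := h0 (l ∘ Equiv.swap 0 i)
  have h4 : (l ∘ Equiv.swap 0 i) 0 = l i := by simp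
  have h5 : l ∘ Equiv.swap 0 i + Pi.single 0 k = (l + Pi.single i k) ∘ Equiv.swap 0 i := by
    ext x
    simp only [Pi.add_apply, Function.comp_apply]
    by_cases hx : x = 0
    · subst hx
      rw [Equiv.swap_apply_left]
      simp
    · by_cases hy : x = i
      · subst hy
        rw [Equiv.swap_apply_right]
        simp [hx, Ne.symm hx]
      · rw [Equiv.swap_apply_of_ne_of_ne hx hy]
        simp [hx, hy]
  rw [h4, h5] at h3
  by_cases hi : i = 0
  · subst hi
    rw [Equiv.swap_self] at h3 ⊢
    exact h3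
  · rw [Wf_swap hs _ _ _ (Ne.symm hi), Wf_swap hs _ _ _ (Ne.symm hi)] at h3
    linear_combination -h3

theorem Alt.al_zero {f : (Fin n → ℤ) → K} (hf : Alt f) {l : Fin n → ℤ} {i j : Fin n} (hij : i ≠ j)
    (h : l i = l j) (k : ℤ) : al k f l = 0 := by
  unfold al
  rw [← Finset.add_sum_erase _ _ (Finset.mem_univ i),
    ← Finset.add_sum_erase (univ.erase i) _ (Finset.mem_erase.2 ⟨hij.symm, Finset.mem_univ j⟩)]
  have h1 : l + Pi.single j k = (l + Pi.single i k) ∘ Equiv.swap i j := by
    ext x
    simp only [Pi.add_apply, Function.comp_apply]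
    by_cases hx : x = i
    · subst hx
      rw [Equiv.swap_apply_left]
      simp [hij, hij.symm, h]
    · by_cases hy : x = j
      · subst hy
        rw [Equiv.swap_apply_right]
        simp [h]
      · rw [Equiv.swap_apply_of_ne_of_ne hx hy]
        simp [hx, hy]
  rw [h1, hf.swap _ _ _ hij]
  rw [Finset.sum_eq_zero]
  · ring
  · intro c hc
    rw [Finset.mem_erase, Finset.mem_erase] at hc
    apply hf.inj i j hij
    simp [h, Ne.symm hc.1, Ne.symm hc.2.1]

/-! ## Tuples of small degree -/

theorem sum_range_le (m : ℕ) : ∀ S : Finset ℤ, (∀ x ∈ S, 0 ≤ x) → S.card = m →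
    (m * (m - 1) / 2 : ℚ) ≤ ((∑ x ∈ S, x : ℤ) : ℚ) := by
  induction m with
  | zero =>
    intro S _ hc
    rw [Finset.card_eq_zero] at hc
    simp [hc]
  | succ m ih =>
    intro S hS hc
    have hne : S.Nonempty := by rw [← Finset.card_pos]; omega
    have hmax := Finset.max'_mem S hne
    obtain ⟨M, hM⟩ : ∃ M, M = S.max' hne := ⟨_, rfl⟩
    rw [← hM] at hmax
    have h1 := ih (S.erase M) (fun x hx => hS x (Finset.mem_of_mem_erase hx))
      (by rw [Finset.card_erase_of_mem hmax]; omega)
    rw [← Finset.add_sum_erase S (fun x => x) hmax]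
    have h2 : (m : ℤ) ≤ M := by
      have h3 : S ⊆ Finset.Icc 0 M := by
        intro x hx
        rw [Finset.mem_Icc]
        exact ⟨hS x hx, by rw [hM]; exact Finset.le_max' S x hx⟩
      have h4 := Finset.card_le_card h3
      rw [hc, Int.card_Icc] at h4
      omega
    have h3 : (m : ℚ) ≤ (M : ℚ) := by exact_mod_cast h2
    push_cast at h1 ⊢
    linarith

/-- an injective nonnegative tuple of total at most `n (n - 1) / 2 + n - k` takes all values
below `k` -/
theorem hit {l : Fin n → ℤ} (hinj : Function.Injective l) (hpos : ∀ i, 0 ≤ l i) {k d : ℕ}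
    (htot : (tot l : ℚ) = d + n * (n - 1) / 2) (hd : d + k ≤ n) {r : ℕ} (hr : r < k) :
    ∃ i, l i = r := by
  by_contra hcon
  push Not at hcon
  have h1 := sum_range_le (n + 1) (insert (r : ℤ) (univ.image l)) (by
    intro x hx
    rw [Finset.mem_insert, Finset.mem_image] at hx
    rcases hx with rfl | ⟨i, _, rfl⟩
    · omega
    · exact hpos i) (by
    rw [Finset.card_insert_of_notMem, Finset.card_image_of_injective _ hinj, Finset.card_univ,
      Fintype.card_fin]
    rw [Finset.mem_image]
    rintro ⟨i, _, hi⟩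
    exact hcon i hi)
  rw [Finset.sum_insert (by
    rw [Finset.mem_image]
    rintro ⟨i, _, hi⟩
    exact hcon i hi), Finset.sum_image (fun a _ b _ hab => hinj hab)] at h1
  have h2 : (∑ x, l x) = tot l := rfl
  rw [h2] at h1
  push_cast at h1
  rw [htot] at h1
  have h3 : (r : ℚ) + 1 ≤ k := by exact_mod_cast hr
  have h4 : (d : ℚ) + k ≤ n := by exact_mod_cast hd
  nlinarith

/-- the values below `k` are taken exactly once -/
theorem prod_small {M : Type} [CommMonoid M] {l : Fin n → ℤ} (hinj : Function.Injective l)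
    (hpos : ∀ i, 0 ≤ l i) {k : ℕ} (hhit : ∀ r < k, ∃ i, l i = r) (F : ℤ → M) :
    ∏ j ∈ univ.filter (fun j => l j < k), F (l j) = ∏ r ∈ Finset.range k, F r := by
  symm
  choose g hg using hhit
  apply Finset.prod_bij (fun r hr => g r (Finset.mem_range.1 hr))
  · intro r hr
    rw [Finset.mem_filter, hg]
    exact ⟨Finset.mem_univ _, by exact_mod_cast Finset.mem_range.1 hr⟩
  · intro a ha b hb hab
    have h1 := hg a (Finset.mem_range.1 ha)
    have h2 := hg b (Finset.mem_range.1 hb)
    rw [hab, h2] at h1
    exact_mod_cast h1.symm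
  · intro j hj
    rw [Finset.mem_filter] at hj
    have h1 := hpos j
    obtain ⟨r, hr⟩ : ∃ r : ℕ, l j = r := ⟨(l j).toNat, by omega⟩
    have h2 : r < k := by
      have := hj.2
      omega
    refine ⟨r, Finset.mem_range.2 h2, ?_⟩
    apply hinj
    rw [hg, hr]
  · intro r hr
    rw [hg]

theorem card_small {l : Fin n → ℤ} (hinj : Function.Injective l)
    (hpos : ∀ i, 0 ≤ l i) {k : ℕ} (hhit : ∀ r < k, ∃ i, l i = r) :
    (univ.filter (fun j => l j < k)).card = k := by
  have h := prod_small (M := Multiplicative ℕ) hinj hpos hhit (fun _ => Multiplicative.ofAdd 1)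
  simp only [Finset.prod_const, Finset.card_range] at h
  have h2 := congrArg Multiplicative.toAdd h
  simpa using h2

theorem Alt.inj' {f : (Fin n → ℤ) → K} (hf : Alt f) {l : Fin n → ℤ} (h : f l ≠ 0) :
    Function.Injective l := by
  intro i j hij
  by_contra hne
  exact h (hf.inj i j hne hij)

theorem full_of_alt {f : (Fin n → ℤ) → K} (hf : Alt f) {k d : ℕ} {D : ℤ}
    (htot : (D : ℚ) = d + n * (n - 1) / 2) (hd : d + k ≤ n) : Full f k D := by
  intro l hl hfl
  have h1 := hf.inj' hfl
  have h2 := hf.nonneg hfl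
  have h3 := card_small h1 h2 (fun r hr => hit h1 h2 (by rw [hl]; exact htot) hd hr)
  exact_mod_cast h3

/-- nonzero only for total at least `n (n - 1) / 2` -/
theorem Alt.tot_ge {f : (Fin n → ℤ) → K} (hf : Alt f) {l : Fin n → ℤ} (h : f l ≠ 0) :
    (n * (n - 1) / 2 : ℚ) ≤ (tot l : ℚ) := by
  have h1 := hf.inj' h
  have h2 := hf.nonneg h
  have h3 := sum_range_le n (univ.image l) (by
    intro x hx
    rw [Finset.mem_image] at hx
    obtain ⟨i, _, rfl⟩ := hx
    exact h2 i) (by rw [Finset.card_image_of_injective _ h1, Finset.card_univ, Fintype.card_fin])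
  rw [Finset.sum_image (fun a _ b _ hab => h1 hab)] at h3
  exact h3

/-! ## The symplectic dimension function -/

/-- pair factor -/
def sV (a : K) (x y : ℤ) : K := ((x : K) - y) * (x + y + 2 * a)

/-- single factor -/
def wV (a : K) (m : ℤ) : K := if m < 0 then 0 else ∏ r ∈ Finset.range m.toNat, (2 * a + r) / (r + 1)

/-- `∏_{i<j} (l_i - l_j) (l_i + l_j + 2 a) · ∏ (2 a)_{l_i} / l_i!` -/
def V (a : K) : (Fin n → ℤ) → K := Wf (sV a) (wV a)

theorem V_alt (a : K) : Alt (n := n) (V a) := by
  apply Wf_alt
  · intro x y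
    unfold sV
    ring
  · intro m hm
    unfold wV
    rw [if_pos hm]

theorem wV_nat (a : K) (m : ℕ) : wV a m = ∏ r ∈ Finset.range m, (2 * a + r) / (r + 1) := by
  unfold wV
  rw [if_neg (by omega), Int.toNat_natCast]

theorem wV_add (a : K) (m k : ℕ) : wV a ((m : ℤ) + k) =
    wV a m * ∏ r ∈ Finset.range k, (2 * a + m + r) / (m + 1 + r) := by
  have : ((m : ℤ) + k) = ((m + k : ℕ) : ℤ) := by push_cast; ring
  rw [this, wV_nat, wV_nat, Finset.prod_range_add]
  congr 1
  apply Finset.prod_congr rfl
  intro r _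
  push_cast
  congr 1 <;> ring

theorem wV_ne (a : K) (ha : ∀ m : ℤ, 2 * a ≠ m) {m : ℤ} (hm : 0 ≤ m) : wV a m ≠ 0 := by
  obtain ⟨m, rfl⟩ := Int.eq_ofNat_of_zero_le hm
  rw [wV_nat, Finset.prod_ne_zero_iff]
  intro r _
  apply div_ne_zero
  · intro h
    apply ha (-(r : ℤ))
    push_cast
    linear_combination h
  · exact_mod_cast Nat.succ_ne_zero r

theorem prod_reflect (k : ℕ) (F : ℤ → K) :
    ∏ r ∈ Finset.range k, F ((k : ℤ) - 1 - r) = ∏ r ∈ Finset.range k, F r := by
  rw [← Finset.prod_range_reflect]
  apply Finset.prod_congr rfl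
  intro r hr
  congr 1
  have := Finset.mem_range.1 hr
  omega

theorem V_bdry {a : K} (ha : ∀ m : ℤ, 2 * a ≠ m) {k d : ℕ} (hk : 1 ≤ k) (hd : d + k ≤ n) {D : ℤ}
    (hD : (D : ℚ) = d + n * (n - 1) / 2) :
    Bdry (n := n) (V a) (2 * a + 2 * n - 2 + (1 + (-1) ^ k) / 2) (-1) k D := by
  intro l hpos hl
  by_cases hinj : Function.Injective l
  swap
  · unfold Function.Injective at hinj
    push Not at hinj
    obtain ⟨i, j, h1, h2⟩ := hinj
    rw [(V_alt a).al_zero h2 h1, (V_alt a).al_zero h2 h1, (V_alt a).inj i j h2 h1]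
    ring
  have hhit : ∀ r < k, ∃ i, l i = r := fun r hr => hit hinj hpos (by rw [hl]; exact hD) hd hr
  obtain ⟨y, hy⟩ : ∃ y : Fin n → K, y = fun i => a + l i := ⟨_, rfl⟩
  obtain ⟨A, hA⟩ : ∃ A : Finset (Fin n), A = univ.filter (fun j => (k : ℤ) ≤ l j) := ⟨_, rfl⟩
  have hAc : Aᶜ = univ.filter (fun j => l j < k) := by
    ext j
    rw [hA, Finset.mem_compl, Finset.mem_filter, Finset.mem_filter]
    simp
  have hint : ∀ m : ℤ, 2 * a + m ≠ 0 := by
    intro m h
    apply ha (-m)
    push_cast
    linear_combination h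
  have h1 : ∀ i j, i ≠ j → y i ≠ y j := by
    intro i j hij h
    apply hij
    apply hinj
    rw [hy] at h
    have := add_left_cancel h
    exact_mod_cast this
  have h2 : ∀ i j, y i + y j ≠ 0 := by
    intro i j h
    apply hint (l i + l j)
    rw [hy] at h
    push_cast
    linear_combination h
  have h3 : ∀ i, 2 * y i + (k : K) ≠ 0 := by
    intro i h
    apply hint (2 * l i + k)
    rw [hy] at h
    push_cast
    linear_combination h
  have h4 : ∀ i, 2 * y i - (k : K) ≠ 0 := by
    intro i h
    apply hint (2 * l i - k)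
    rw [hy] at h
    push_cast
    linear_combination h
  have h5 : ∀ i, ∀ j ∈ Aᶜ, y i + (k : K) - y j ≠ 0 := by
    intro i j hj h
    rw [hAc, Finset.mem_filter] at hj
    rw [hy] at h
    have h6 : ((l i + k - l j : ℤ) : K) = 0 := by
      push_cast
      linear_combination h
    have h7 := Int.cast_eq_zero.1 h6
    have := hpos i
    omega
  have h6 : ∀ i, ∀ j ∈ Aᶜ, y i - (k : K) + y j ≠ 0 := by
    intro i j _ h
    apply hint (l i - k + l j)
    rw [hy] at h
    push_cast
    linear_combination h
  have hk0 : (k : K) ≠ 0 := by exact_mod_cast (by omega : k ≠ 0)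
  have hid := rat_identity y (k : K) A hk0 h1 h2 h3 h4 h5 h6
  -- counts
  have hcard : (Aᶜ.card) = k := by
    rw [hAc]
    exact card_small hinj hpos hhit
  have hcardA : A.card = n - k := by
    have := Finset.card_add_card_compl A
    rw [Fintype.card_fin] at this
    omega
  have hkn : k ≤ n := by omega
  have hsumy : ∑ j ∈ Aᶜ, y j = k * a + k * (k - 1) / 2 := by
    rw [hAc]
    have e1 := prod_small (M := Multiplicative K) hinj hpos hhit
      (fun m => Multiplicative.ofAdd (a + (m : K)))
    have e2 := congrArg Multiplicative.toAdd e1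
    rw [toAdd_prod, toAdd_prod] at e2
    simp only [toAdd_ofAdd, Int.cast_natCast] at e2
    rw [hy, e2, Finset.sum_add_distrib, Finset.sum_const, Finset.card_range, nsmul_eq_mul]
    have e3 : ∀ k : ℕ, ∑ r ∈ Finset.range k, (r : K) = k * (k - 1) / 2 := by
      intro k
      induction k with
      | zero => simp
      | succ k ih =>
        rw [Finset.sum_range_succ, ih]
        push_cast
        ring
    rw [e3]
  -- the terms
  have hs : ∀ i : Fin n, ∀ x : ℤ, ∀ j, sV a x (l j) = ((a + x) - y j) * ((a + x) + y j) := by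
    intro i x j
    unfold sV
    rw [hy]
    ring
  have hsne : ∀ i j, i ≠ j → sV a (l i) (l j) ≠ 0 := by
    intro i j hij
    rw [hs i]
    have e1 := h1 i j hij
    have e2 := h2 i j
    have e3 : a + (l i : K) = y i := by rw [hy]
    rw [e3]
    exact mul_ne_zero (sub_ne_zero.2 e1) e2
  have hVadd : ∀ i, V a (l + Pi.single i (k : ℤ)) = V a l * addT y (k : K) A i := by
    intro i
    have e1 := Wf_update (s := sV a) (w := wV a) (fun x y => by unfold sV; ring) l i k
    have n1 : (∏ j ∈ univ.erase i, sV a (l i) (l j)) * wV a (l i) ≠ 0 := by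
      apply mul_ne_zero
      · rw [Finset.prod_ne_zero_iff]
        intro j hj
        exact hsne i j (fun h => Finset.ne_of_mem_erase hj h.symm)
      · exact wV_ne a ha (hpos i)
    have e2 : ((∏ j ∈ univ.erase i, sV a (l i + k) (l j)) * wV a (l i + k)) =
        addT y (k : K) A i * ((∏ j ∈ univ.erase i, sV a (l i) (l j)) * wV a (l i)) := by
      unfold addT
      obtain ⟨m, hm⟩ := Int.eq_ofNat_of_zero_le (hpos i)
      have e3 : wV a (l i + k) = wV a (l i) * ∏ j ∈ Aᶜ, ((y i + y j) / (y i + k - y j)) := by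
        rw [hm, wV_add, hAc]
        congr 1
        have e4 := prod_small hinj hpos hhit (fun r : ℤ => (y i + (a + r)) / (y i + k - (a + r)))
        have e5 : ∏ j ∈ univ.filter (fun j => l j < k), ((y i + y j) / (y i + k - y j)) =
            ∏ j ∈ univ.filter (fun j => l j < k), ((y i + (a + l j)) / (y i + k - (a + l j))) := by
          apply Finset.prod_congr rfl
          intro j _
          rw [hy]
        rw [e5, e4, Finset.prod_div_distrib, Finset.prod_div_distrib]
        congr 1
        · apply Finset.prod_congr rfl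
          intro r _
          have e10 : y i = a + l i := by rw [hy]
          rw [e10, hm]
          push_cast
          ring
        · rw [← prod_reflect k (fun r : ℤ => y i + k - (a + r))]
          apply Finset.prod_congr rfl
          intro r _
          have e10 : y i = a + l i := by rw [hy]
          rw [e10, hm]
          push_cast
          ring
      rw [e3]
      have e6 : ∏ j ∈ univ.erase i, sV a (l i + k) (l j) =
          (∏ j ∈ univ.erase i, ((y i + k - y j) * (y i + k + y j) / ((y i - y j) * (y i + y j)))) *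
          ∏ j ∈ univ.erase i, sV a (l i) (l j) := by
        rw [← Finset.prod_mul_distrib]
        apply Finset.prod_congr rfl
        intro j hj
        have e7 := hsne i j (fun h => Finset.ne_of_mem_erase hj h.symm)
        have e8 : a + (l i : K) = y i := by rw [hy]
        have e9 : a + ((l i + k : ℤ) : K) = y i + k := by rw [hy]; push_cast; ring
        rw [hs i, e8] at e7
        rw [hs i, hs i, e8, e9]
        rw [div_mul_cancel₀ _ e7]
      rw [e6]
      ring
    rw [e2] at e1
    apply mul_right_cancel₀ n1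
    unfold V
    rw [e1]
    ring
  have hVrem : ∀ i, V a (l + Pi.single i (-(k : ℤ))) =
      if i ∈ A then V a l * remT y (k : K) A i else 0 := by
    intro i
    by_cases hi : i ∈ A
    swap
    · rw [if_neg hi]
      apply (V_alt a).neg _ i
      rw [hA, Finset.mem_filter] at hi
      simp only [Finset.mem_univ, true_and] at hi
      simp
      omega
    rw [if_pos hi]
    have e1 := Wf_update (s := sV a) (w := wV a) (fun x y => by unfold sV; ring) l i (-k)
    have n1 : (∏ j ∈ univ.erase i, sV a (l i) (l j)) * wV a (l i) ≠ 0 := by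
      apply mul_ne_zero
      · rw [Finset.prod_ne_zero_iff]
        intro j hj
        exact hsne i j (fun h => Finset.ne_of_mem_erase hj h.symm)
      · exact wV_ne a ha (hpos i)
    have e2 : ((∏ j ∈ univ.erase i, sV a (l i + -k) (l j)) * wV a (l i + -k)) =
        remT y (k : K) A i * ((∏ j ∈ univ.erase i, sV a (l i) (l j)) * wV a (l i)) := by
      unfold remT
      have hki : (k : ℤ) ≤ l i := by
        rw [hA, Finset.mem_filter] at hi
        exact hi.2
      obtain ⟨m, hm⟩ := Int.eq_ofNat_of_zero_le (sub_nonneg.2 hki)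
      have hm' : l i = m + k := by omega
      have hm2 : l i + -k = (m : ℤ) := by omega
      have e3 : wV a (l i + -k) = wV a (l i) * ∏ j ∈ Aᶜ, ((y i - y j) / (y i - k + y j)) := by
        rw [hm2, hm', wV_add, hAc]
        have e4 := prod_small hinj hpos hhit (fun r : ℤ => (y i - (a + r)) / (y i - k + (a + r)))
        have e5 : ∏ j ∈ univ.filter (fun j => l j < k), ((y i - y j) / (y i - k + y j)) =
            ∏ j ∈ univ.filter (fun j => l j < k), ((y i - (a + l j)) / (y i - k + (a + l j))) := by
          apply Finset.prod_congr rfl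
          intro j _
          rw [hy]
        rw [e5, e4, Finset.prod_div_distrib, Finset.prod_div_distrib]
        have e6 : ∏ r ∈ Finset.range k, (y i - (a + ((r : ℤ) : K))) =
            ∏ r ∈ Finset.range k, ((m : K) + 1 + r) := by
          rw [← prod_reflect k (fun r : ℤ => y i - (a + r))]
          apply Finset.prod_congr rfl
          intro r _
          have e10 : y i = a + l i := by rw [hy]
          rw [e10, hm']
          push_cast
          ring
        have e7 : ∏ r ∈ Finset.range k, (y i - k + (a + ((r : ℤ) : K))) =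
            ∏ r ∈ Finset.range k, (2 * a + m + r) := by
          apply Finset.prod_congr rfl
          intro r _
          have e10 : y i = a + l i := by rw [hy]
          rw [e10, hm']
          push_cast
          ring
        rw [e6, e7]
        have n2 : ∏ r ∈ Finset.range k, ((m : K) + 1 + r) ≠ 0 := by
          rw [Finset.prod_ne_zero_iff]
          intro r _
          have : ((m + 1 + r : ℕ) : K) ≠ 0 := by exact_mod_cast (by omega : m + 1 + r ≠ 0)
          push_cast at this
          exact this
        have n3 : ∏ r ∈ Finset.range k, (2 * a + m + r) ≠ 0 := by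
          rw [Finset.prod_ne_zero_iff]
          intro r _ h
          apply hint (m + r)
          push_cast
          linear_combination h
        field_simp
      rw [e3]
      have e6 : ∏ j ∈ univ.erase i, sV a (l i + -k) (l j) =
          (∏ j ∈ univ.erase i, ((y i - k - y j) * (y i - k + y j) / ((y i - y j) * (y i + y j)))) *
          ∏ j ∈ univ.erase i, sV a (l i) (l j) := by
        rw [← Finset.prod_mul_distrib]
        apply Finset.prod_congr rfl
        intro j hj
        have e7 := hsne i j (fun h => Finset.ne_of_mem_erase hj h.symm)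
        have e8 : a + (l i : K) = y i := by rw [hy]
        have e9 : a + ((l i + -k : ℤ) : K) = y i - k := by rw [hy]; push_cast; ring
        rw [hs i, e8] at e7
        rw [hs i, hs i, e8, e9]
        rw [div_mul_cancel₀ _ e7]
      rw [e6]
      ring
    rw [e2] at e1
    apply mul_right_cancel₀ n1
    unfold V
    rw [e1]
    ring
  unfold al
  rw [Finset.sum_congr rfl (fun i _ => hVadd i), Finset.sum_congr rfl (fun i _ => hVrem i),
    Finset.sum_ite_mem, Finset.univ_inter, ← Finset.mul_sum, ← Finset.mul_sum]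
  have hpow : (-1 : K) ^ (n + A.card) = (-1) ^ k := by
    rw [hcardA]
    have e0 : n + (n - k) = k + 2 * (n - k) := by omega
    rw [e0, pow_add, pow_mul]
    norm_num
  rw [hpow, hsumy, hcardA, Nat.cast_sub hkn] at hid
  have hfin : (∑ i, addT y (k : K) A i + ∑ i ∈ A, remT y (k : K) A i) =
      2 * a + 2 * n - 2 + (1 + (-1) ^ k) / 2 := by
    apply mul_left_cancel₀ hk0
    rw [hid]
    ring
  linear_combination (V a l) * hfin

end Pool.Agent.Q156.SC
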