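import Mathlib
import Pool.Agent.Q156.SC.Alt
import Pool.Agent.Q156.SC.Wf

set_option autoImplicit false
set_option linter.unusedSectionVars false

/-!
# The sign function and its boundary equation
-/

namespace Pool.Agent.Q156.SC

open Finset

variable {n : ℕ} {K : Type} [Field K] [CharZero K]

/-- pair factor -/
def sU (x y : ℤ) : K := ((Int.sign (x - y) : ℤ) : K)

/-- single factor -/
def wU (m : ℤ) : K := if m < 0 then 0 else 1

/-- `∏_{i<j} sign (l_i - l_j)` on nonnegative tuples -/
def U : (Fin n → ℤ) → K := Wf sU wU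

theorem sU_anti (x y : ℤ) : (sU x y : K) = - sU y x := by
  unfold sU
  have : Int.sign (x - y) = - Int.sign (y - x) := by
    rw [← Int.sign_neg]
    congr 1
    ring
  rw [this]
  push_cast
  ring

theorem U_alt : Alt (n := n) (U : (Fin n → ℤ) → K) := by
  apply Wf_alt
  · exact sU_anti
  · intro m hm
    unfold wU
    rw [if_pos hm]

/-- `(-1)^{#{j : l_j < t}}` -/
def gU (l : Fin n → ℤ) (t : ℤ) : K := ∏ j, (if l j < t then (-1 : K) else 1)

theorem gU_sq (l : Fin n → ℤ) (t : ℤ) : (gU l t : K) * gU l t = 1 := by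
  unfold gU
  rw [← Finset.prod_mul_distrib]
  apply Finset.prod_eq_one
  intro j _
  split_ifs <;> ring

/-- indicator of the values -/
noncomputable def chi (l : Fin n → ℤ) (t : ℤ) : K := by
  classical exact if ∃ j, l j = t then 1 else 0

theorem chi_pos {l : Fin n → ℤ} {t : ℤ} (h : ∃ j, l j = t) : (chi l t : K) = 1 := by
  unfold chi
  rw [if_pos h]

theorem chi_neg {l : Fin n → ℤ} {t : ℤ} (h : ¬ ∃ j, l j = t) : (chi l t : K) = 0 := by
  unfold chi
  rw [if_neg h]

theorem gU_succ {l : Fin n → ℤ} (hinj : Function.Injective l) (t : ℤ) :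
    (gU l (t + 1) : K) = gU l t * (1 - 2 * chi l t) := by
  have h1 : (gU l (t + 1) : K) = gU l t * ∏ j, (if l j = t then (-1 : K) else 1) := by
    unfold gU
    rw [← Finset.prod_mul_distrib]
    apply Finset.prod_congr rfl
    intro j _
    by_cases h1 : l j < t
    · rw [if_pos h1, if_pos (by omega), if_neg (by omega)]
      ring
    · by_cases h2 : l j = t
      · rw [if_neg h1, if_pos (by omega), if_pos h2]
        ring
      · rw [if_neg h1, if_neg (by omega), if_neg h2]
        ring
  rw [h1]
  congr 1
  by_cases h2 : ∃ j, l j = t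
  · rw [chi_pos h2]
    obtain ⟨j, hj⟩ := h2
    rw [Finset.prod_eq_single j]
    · rw [if_pos hj]
      ring
    · intro b _ hb
      rw [if_neg]
      intro h
      exact hb (hinj (h.trans hj.symm))
    · intro h
      exact absurd (Finset.mem_univ j) h
  · rw [chi_neg h2]
    rw [Finset.prod_eq_one]
    · ring
    · intro j _
      rw [if_neg]
      intro h
      exact h2 ⟨j, h⟩

theorem sum_chi {l : Fin n → ℤ} (hinj : Function.Injective l) (hpos : ∀ i, 0 ≤ l i) (T : ℕ)
    (hT : ∀ i, l i < T) (F : ℤ → K) :
    ∑ i, F (l i) = ∑ t ∈ Finset.range T, chi l t * F t := by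
  classical
  have h1 : ∀ t : ℕ, (chi l t : K) * F t = if ∃ j, l j = t then F t else 0 := by
    intro t
    by_cases h : ∃ j, l j = t
    · rw [chi_pos h, if_pos h, one_mul]
    · rw [chi_neg h, if_neg h, zero_mul]
  rw [Finset.sum_congr rfl (fun t _ => h1 t), ← Finset.sum_filter]
  apply Finset.sum_bij (fun i _ => (l i).toNat)
  · intro i _
    rw [Finset.mem_filter, Finset.mem_range]
    have := hpos i
    have := hT i
    refine ⟨by omega, i, by omega⟩
  · intro i _ j _ hij
    apply hinj
    have := hpos i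
    have := hpos j
    omega
  · intro t ht
    rw [Finset.mem_filter] at ht
    obtain ⟨j, hj⟩ := ht.2
    exact ⟨j, Finset.mem_univ j, by omega⟩
  · intro i _
    congr 1
    have := hpos i
    omega

theorem chi_eq {l : Fin n → ℤ} (hinj : Function.Injective l) (t : ℤ) :
    2 * (chi l t : K) = 1 - gU l t * gU l (t + 1) := by
  rw [gU_succ hinj]
  linear_combination (1 - 2 * chi l t) * gU_sq (K := K) l t

theorem prod_sU (l : Fin n → ℤ) (i : Fin n) (t : ℤ) (h : ∀ j, j ≠ i → l j ≠ t) :
    ∏ j ∈ univ.erase i, (sU t (l j) : K) =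
      (∏ j ∈ univ.erase i, (if l j < t then (-1 : K) else 1)) * (-1) ^ (n - 1) := by
  have hc : (univ.erase i).card = n - 1 := by
    rw [Finset.card_erase_of_mem (Finset.mem_univ i), Finset.card_univ, Fintype.card_fin]
  rw [← hc, ← Finset.prod_const, ← Finset.prod_mul_distrib]
  apply Finset.prod_congr rfl
  intro j hj
  have h1 := h j (Finset.ne_of_mem_erase hj)
  unfold sU
  by_cases h2 : l j < t
  · rw [if_pos h2, Int.sign_eq_one_of_pos (by omega)]
    push_cast
    ring
  · rw [if_neg h2, Int.sign_eq_neg_one_of_neg (by omega)]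
    push_cast
    ring

theorem neg_pow_sq (m : ℕ) : ((-1 : K) ^ m) * (-1) ^ m = 1 := by
  rw [← mul_pow]
  norm_num

/-- moving one entry -/
theorem U_move {l : Fin n → ℤ} (hinj : Function.Injective l) (hpos : ∀ i, 0 ≤ l i) (i : Fin n)
    (k : ℤ) (hk : k ≠ 0) (hk2 : 0 ≤ l i + k) :
    (U (l + Pi.single i k) : K) =
      U l * ((1 - chi l (l i + k)) * (gU l (l i) * gU l (l i + k) * (if 0 < k then -1 else 1))) := by
  by_cases hc : ∃ j, l j = l i + k
  · rw [chi_pos hc]
    obtain ⟨j, hj⟩ := hc
    have hne : i ≠ j := by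
      rintro rfl
      omega
    rw [U_alt.inj i j hne]
    · ring
    · simp [hj, hne.symm]
  · rw [chi_neg hc]
    push Not at hc
    have e1 := Wf_update (K := K) (s := sU) (w := wU) sU_anti l i k
    have w1 : (wU (l i) : K) = 1 := by
      unfold wU
      rw [if_neg (by have := hpos i; omega)]
    have w2 : (wU (l i + k) : K) = 1 := by
      unfold wU
      rw [if_neg (by omega)]
    rw [w1, w2, mul_one, mul_one] at e1
    rw [prod_sU l i (l i) (fun j hj h => hj (hinj h)),
      prod_sU l i (l i + k) (fun j _ => hc j)] at e1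
    have g1 : (gU l (l i) : K) = ∏ j ∈ univ.erase i, (if l j < l i then (-1 : K) else 1) := by
      unfold gU
      rw [← Finset.mul_prod_erase _ _ (Finset.mem_univ i), if_neg (lt_irrefl _), one_mul]
    have g2 : (gU l (l i + k) : K) * (if 0 < k then -1 else 1) =
        ∏ j ∈ univ.erase i, (if l j < l i + k then (-1 : K) else 1) := by
      unfold gU
      rw [← Finset.mul_prod_erase _ _ (Finset.mem_univ i)]
      by_cases hk3 : 0 < k
      · rw [if_pos hk3, if_pos (by omega)]
        ring
      · rw [if_neg hk3, if_neg (by omega)]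
        ring
    rw [← g1, ← g2] at e1
    have e2 : (gU l (l i) : K) * (-1) ^ (n - 1) ≠ 0 := by
      intro h
      have h1 := gU_sq (K := K) l (l i)
      have h2 := neg_pow_sq (K := K) (n - 1)
      have : (1 : K) = 0 := by
        calc (1 : K) = (gU l (l i) * gU l (l i)) * ((-1) ^ (n - 1) * (-1) ^ (n - 1)) := by
              rw [h1, h2]; ring
          _ = (gU l (l i) * (-1) ^ (n - 1)) * (gU l (l i) * (-1) ^ (n - 1)) := by ring
          _ = 0 := by rw [h]; ring
      exact one_ne_zero this
    apply mul_right_cancel₀ e2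
    unfold U
    rw [e1]
    linear_combination (-(Wf sU wU l * (gU l (l i + k) * (if 0 < k then -1 else 1)) *
      (-1) ^ (n - 1))) * gU_sq (K := K) l (l i)

theorem gU_top {l : Fin n → ℤ} {t : ℤ} (h : ∀ i, l i < t) : (gU l t : K) = (-1) ^ n := by
  unfold gU
  rw [Finset.prod_congr rfl (fun j _ => if_pos (h j)), Finset.prod_const, Finset.card_univ,
    Fintype.card_fin]

theorem U_bdry {k d : ℕ} (hk : 1 ≤ k) (hd : d + k ≤ n) {D : ℤ}
    (hD : (D : ℚ) = d + n * (n - 1) / 2) :
    Bdry (n := n) (K := K) U ((1 - (-1) ^ k) / 2) 1 k D := by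
  intro l hpos hl
  by_cases hinj : Function.Injective l
  swap
  · unfold Function.Injective at hinj
    push Not at hinj
    obtain ⟨i, j, h1, h2⟩ := hinj
    rw [U_alt.al_zero h2 h1, U_alt.al_zero h2 h1, U_alt.inj i j h2 h1]
    ring
  have hhit : ∀ r < k, ∃ i, l i = r := fun r hr => hit hinj hpos (by rw [hl]; exact hD) hd hr
  obtain ⟨T, hT⟩ : ∃ T : ℕ, ∀ i, l i < T := by
    refine ⟨(tot l).toNat + 1, ?_⟩
    intro i
    have h1 := le_tot hpos i
    have h2 := hpos i
    omega
  have hup : al (k : ℤ) (U : (Fin n → ℤ) → K) l = U l * ∑ t ∈ Finset.range T, chi l t *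
      ((1 - chi l (t + k)) * (gU l t * gU l (t + k) * (-1))) := by
    unfold al
    rw [← sum_chi hinj hpos T hT (fun t => (1 - chi l (t + k)) * (gU l t * gU l (t + k) * (-1))),
      Finset.mul_sum]
    apply Finset.sum_congr rfl
    intro i _
    rw [U_move hinj hpos i k (by omega) (by have := hpos i; omega), if_pos (by omega)]
  have hdn : al (-(k : ℤ)) (U : (Fin n → ℤ) → K) l = U l * ∑ t ∈ Finset.range T, chi l (t + k) *
      ((1 - chi l t) * (gU l t * gU l (t + k))) := by
    obtain ⟨H, hH⟩ : ∃ H : ℤ → K, H = (fun t : ℤ => if t < k then 0 else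
        (1 - chi l (t - k)) * (gU l t * gU l (t - k))) := ⟨_, rfl⟩
    have h1 : al (-(k : ℤ)) (U : (Fin n → ℤ) → K) l = U l * ∑ i, H (l i) := by
      rw [hH]
      unfold al
      rw [Finset.mul_sum]
      apply Finset.sum_congr rfl
      intro i _
      by_cases h2 : l i < k
      · simp only [if_pos h2]
        rw [U_alt.neg _ i]
        · ring
        · simp
          omega
      · simp only [if_neg h2]
        rw [U_move hinj hpos i (-k) (by omega) (by omega), if_neg (by omega)]
        ring_nf
    rw [h1, sum_chi hinj hpos (k + T) (by intro i; have := hT i; push_cast; omega) H,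
      Finset.sum_range_add, Finset.sum_eq_zero (s := Finset.range k), zero_add, hH]
    · congr 1
      apply Finset.sum_congr rfl
      intro t _
      simp only []
      rw [if_neg (by push_cast; omega)]
      have e1 : ((k + t : ℕ) : ℤ) = t + k := by push_cast; ring
      have e2 : (t : ℤ) + k - k = t := by ring
      rw [e1, e2]
      ring
    · intro t ht
      rw [hH]
      simp only []
      rw [if_pos (by have := Finset.mem_range.1 ht; omega)]
      ring
  have hsum : ∀ T : ℕ, ∑ t ∈ Finset.range T, (chi l t : K) *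
      ((1 - chi l (t + k)) * (gU l t * gU l (t + k) * (-1))) -
      ∑ t ∈ Finset.range T, chi l (t + k) * ((1 - chi l t) * (gU l t * gU l (t + k))) =
      (gU l T * gU l (T + k) - gU l 0 * gU l k) / 2 := by
    intro T
    induction T with
    | zero => simp
    | succ T ih =>
      rw [Finset.sum_range_succ, Finset.sum_range_succ]
      have c1 := chi_eq (K := K) hinj (T : ℤ)
      have c2 := chi_eq (K := K) hinj ((T : ℤ) + k)
      have g1 := gU_sq (K := K) l (T : ℤ)
      have g2 := gU_sq (K := K) l ((T : ℤ) + k)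
      have e1 : ((T + 1 : ℕ) : ℤ) = T + 1 := by push_cast; ring
      have e2 : (T : ℤ) + 1 + k = T + k + 1 := by ring
      rw [e1, e2]
      have c1' : (chi l (T : ℤ) : K) = (1 - gU l T * gU l (T + 1)) / 2 := by
        linear_combination c1 / 2
      have c2' : (chi l ((T : ℤ) + k) : K) = (1 - gU l (T + k) * gU l (T + k + 1)) / 2 := by
        linear_combination c2 / 2
      rw [c1', c2'] 
      generalize gU (K := K) l (T : ℤ) = a at *
      generalize gU (K := K) l ((T : ℤ) + k) = b at *
      generalize gU (K := K) l ((T : ℤ) + 1) = a1 at *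
      generalize gU (K := K) l ((T : ℤ) + k + 1) = b1 at *
      linear_combination ih + (a1 * b1 / 2 * b * b) * g1 + (a1 * b1 / 2) * g2
  have hend := hsum T
  rw [gU_top (K := K) hT, gU_top (K := K) (t := T + k) (fun i => by have := hT i; omega)] at hend
  have h0 : (gU l 0 : K) = 1 := by
    unfold gU
    apply Finset.prod_eq_one
    intro j _
    rw [if_neg (by have := hpos j; omega)]
  have hgk : (gU l k : K) = (-1) ^ k := by
    unfold gU
    rw [Finset.prod_ite, Finset.prod_const, Finset.prod_const_one, card_small hinj hpos hhit]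
    ring
  rw [h0, hgk, neg_pow_sq] at hend
  rw [hup, hdn]
  linear_combination (U l) * hend

end Pool.Agent.Q156.SC
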