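import Mathlib
import Pool.Agent.Q156.SC.Alt
import Pool.Agent.Q156.SC.Wf
import Pool.Agent.Q156.SC.Us

set_option autoImplicit false
set_option linter.unusedSectionVars false

/-!
# The dimension functions at the tuple of a Young diagram
-/

namespace Pool.Agent.Q156.SC

open Finset

/-- `λ_i - i` (rows counted from `1`) -/
def rho (μ : YoungDiagram) (i : ℕ) : ℤ := (μ.rowLen i : ℤ) - (i + 1)

/-- `j - 1 - λ'_j` (columns counted from `1`) -/
def kap (μ : YoungDiagram) (j : ℕ) : ℤ := (j : ℤ) - μ.colLen j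

/-- the symplectic content of the cell `(i+1, j+1)`; rows and columns are counted from `0` -/
def csp (μ : YoungDiagram) (c : ℕ × ℕ) : ℤ :=
  if c.2 < c.1 then ((μ.rowLen c.1 : ℤ) - (c.1 + 1)) + ((μ.rowLen c.2 : ℤ) - (c.2 + 1)) + 2
  else (((c.1 : ℤ) + 1) - μ.colLen c.1) + (((c.2 : ℤ) + 1) - μ.colLen c.2)

/-- the hook length of the cell `(i+1, j+1)` -/
def hook (μ : YoungDiagram) (c : ℕ × ℕ) : ℤ :=
  ((μ.rowLen c.1 : ℤ) - (c.2 + 1)) + ((μ.colLen c.2 : ℤ) - (c.1 + 1)) + 1

variable {μ : YoungDiagram}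

theorem kap_lt_rho {i j : ℕ} (h : (i, j) ∈ μ) : kap μ j < rho μ i := by
  have h1 := YoungDiagram.mem_iff_lt_rowLen.1 h
  have h2 := YoungDiagram.mem_iff_lt_colLen.1 h
  unfold kap rho
  omega

theorem rho_lt_kap {i j : ℕ} (h : (i, j) ∉ μ) : rho μ i < kap μ j := by
  have h1 : ¬ j < μ.rowLen i := fun h1 => h (YoungDiagram.mem_iff_lt_rowLen.2 h1)
  have h2 : ¬ i < μ.colLen j := fun h2 => h (YoungDiagram.mem_iff_lt_colLen.2 h2)
  unfold kap rho
  omega

theorem kap_lt_rho_iff {i j : ℕ} : kap μ j < rho μ i ↔ (i, j) ∈ μ := by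
  constructor
  · intro h
    by_contra hc
    have := rho_lt_kap hc
    omega
  · exact kap_lt_rho

theorem kap_ne_rho (i j : ℕ) : kap μ j ≠ rho μ i := by
  by_cases h : (i, j) ∈ μ
  · exact (kap_lt_rho h).ne
  · exact (rho_lt_kap h).ne'

theorem rho_lt_rho_iff {i j : ℕ} : rho μ j < rho μ i ↔ i < j := by
  have key : ∀ i j : ℕ, i < j → rho μ j < rho μ i := by
    intro i j hij
    have := μ.rowLen_anti i j hij.le
    unfold rho
    omega
  constructor
  · intro h
    by_contra hc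
    rcases Nat.lt_or_ge j i with h1 | h1
    · have := key j i h1
      omega
    · have : i = j := by omega
      subst this
      omega
  · exact key i j

theorem kap_lt_kap_iff {i j : ℕ} : kap μ i < kap μ j ↔ i < j := by
  have key : ∀ i j : ℕ, i < j → kap μ i < kap μ j := by
    intro i j hij
    have := μ.colLen_anti i j hij.le
    unfold kap
    omega
  constructor
  · intro h
    by_contra hc
    rcases Nat.lt_or_ge j i with h1 | h1
    · have := key j i h1
      omega
    · have : i = j := by omega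
      subst this
      omega
  · exact key i j

theorem maya (m : ℤ) : (∃ i, rho μ i = m) ∨ (∃ j, kap μ j = m) := by
  by_cases h : ∃ i, rho μ i = m
  · exact Or.inl h
  right
  push Not at h
  unfold rho at h
  have hex : ∃ k : ℕ, (μ.rowLen k : ℤ) - (k + 1) < m := by
    refine ⟨μ.rowLen 0 + m.natAbs, ?_⟩
    have := μ.rowLen_anti 0 (μ.rowLen 0 + m.natAbs) (Nat.zero_le _)
    omega
  classical
  obtain ⟨k, hk, hmin⟩ : ∃ k : ℕ, (μ.rowLen k : ℤ) - (k + 1) < m ∧
      ∀ k' < k, ¬ (μ.rowLen k' : ℤ) - (k' + 1) < m :=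
    ⟨Nat.find hex, Nat.find_spec hex, fun k' hk' => Nat.find_min hex hk'⟩
  obtain ⟨j, hj⟩ : ∃ j : ℕ, (j : ℤ) = m + k := by
    refine ⟨(m + k).toNat, ?_⟩
    omega
  refine ⟨j, ?_⟩
  have h1 : ¬ k < μ.colLen j := by
    rw [← YoungDiagram.mem_iff_lt_colLen, YoungDiagram.mem_iff_lt_rowLen]
    omega
  have h2 : k ≤ μ.colLen j := by
    rcases Nat.eq_zero_or_pos k with h0 | h0
    · omega
    · have h3 := hmin (k - 1) (by omega)
      have h4 := h (k - 1)
      have h5 : (k - 1, j) ∈ μ := by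
        rw [YoungDiagram.mem_iff_lt_rowLen]
        push_cast [Nat.cast_sub (show 1 ≤ k from h0)] at h3 h4
        omega
      rw [YoungDiagram.mem_iff_lt_colLen] at h5
      omega
  unfold kap
  omega

/-- the rows and columns fill the interval -/
theorem prod_maya {M : Type} [CommMonoid M] (F : ℤ → M) (p q : ℤ) (I J : Finset ℕ)
    (hI : ∀ i, i ∈ I ↔ p ≤ rho μ i ∧ rho μ i < q) (hJ : ∀ j, j ∈ J ↔ p ≤ kap μ j ∧ kap μ j < q) :
    ∏ s ∈ Ico p q, F s = (∏ i ∈ I, F (rho μ i)) * ∏ j ∈ J, F (kap μ j) := by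
  have hrinj : Function.Injective (rho μ) := by
    intro a b h
    by_contra hne
    rcases Nat.lt_or_gt_of_ne hne with h1 | h1
    · have := rho_lt_rho_iff (μ := μ).2 h1
      omega
    · have := rho_lt_rho_iff (μ := μ).2 h1
      omega
  have hkinj : Function.Injective (kap μ) := by
    intro a b h
    by_contra hne
    rcases Nat.lt_or_gt_of_ne hne with h1 | h1
    · have := kap_lt_kap_iff (μ := μ).2 h1
      omega
    · have := kap_lt_kap_iff (μ := μ).2 h1
      omega
  have hun : Ico p q = I.image (rho μ) ∪ J.image (kap μ) := by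
    ext s
    rw [Finset.mem_Ico, Finset.mem_union, Finset.mem_image, Finset.mem_image]
    constructor
    · intro hs
      rcases maya (μ := μ) s with ⟨i, rfl⟩ | ⟨j, rfl⟩
      · exact Or.inl ⟨i, (hI i).2 hs, rfl⟩
      · exact Or.inr ⟨j, (hJ j).2 hs, rfl⟩
    · rintro (⟨i, hi, rfl⟩ | ⟨j, hj, rfl⟩)
      · exact (hI i).1 hi
      · exact (hJ j).1 hj
  have hdis : Disjoint (I.image (rho μ)) (J.image (kap μ)) := by
    rw [Finset.disjoint_left]
    intro s h1 h2
    rw [Finset.mem_image] at h1 h2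
    obtain ⟨i, _, rfl⟩ := h1
    obtain ⟨j, _, hj⟩ := h2
    exact kap_ne_rho i j hj
  rw [hun, Finset.prod_union hdis, Finset.prod_image hrinj.injOn, Finset.prod_image hkinj.injOn]

/-- row version -/
theorem prod_row {M : Type} [CommMonoid M] (F : ℤ → M) {n : ℕ} (hn : μ.colLen 0 ≤ n) {m : ℕ}
    (hm : m < n) :
    ∏ s ∈ Ico (-(n : ℤ)) (rho μ m), F s =
      (∏ i ∈ Ioo m n, F (rho μ i)) * ∏ j ∈ Finset.range (μ.rowLen m), F (kap μ j) := by
  apply prod_maya
  · intro i
    rw [Finset.mem_Ioo, rho_lt_rho_iff]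
    constructor
    · intro h
      refine ⟨?_, h.1⟩
      unfold rho
      omega
    · intro h
      refine ⟨h.2, ?_⟩
      by_contra hc
      have h1 : μ.rowLen i = 0 := by
        by_contra h2
        have h3 : (i, 0) ∈ μ := YoungDiagram.mem_iff_lt_rowLen.2 (by omega)
        rw [YoungDiagram.mem_iff_lt_colLen] at h3
        omega
      have h4 := h.1
      unfold rho at h4
      rw [h1] at h4
      push_cast at h4
      omega
  · intro j
    rw [Finset.mem_range, kap_lt_rho_iff, YoungDiagram.mem_iff_lt_rowLen]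
    constructor
    · intro h
      refine ⟨?_, h⟩
      have := μ.colLen_anti 0 j (Nat.zero_le _)
      unfold kap
      omega
    · intro h
      exact h.2

/-- hook version -/
theorem prod_hook {M : Type} [CommMonoid M] (F : ℤ → M) {m : ℕ} (hm : (m, m) ∈ μ) :
    ∏ s ∈ Ico (kap μ m) (rho μ m), F s =
      (∏ i ∈ Ioo m (μ.colLen m), F (rho μ i)) * ∏ j ∈ Ico m (μ.rowLen m), F (kap μ j) := by
  apply prod_maya
  · intro i
    rw [Finset.mem_Ioo, rho_lt_rho_iff]
    have h1 : kap μ m ≤ rho μ i ↔ i < μ.colLen m := by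
      rw [← YoungDiagram.mem_iff_lt_colLen, ← kap_lt_rho_iff]
      have := kap_ne_rho (μ := μ) i m
      constructor
      · intro h
        exact lt_of_le_of_ne h this
      · intro h
        exact h.le
    rw [h1, and_comm]
  · intro j
    rw [Finset.mem_Ico, kap_lt_rho_iff, YoungDiagram.mem_iff_lt_rowLen]
    have h1 : kap μ m ≤ kap μ j ↔ m ≤ j := by
      rw [← not_lt, kap_lt_kap_iff, not_lt]
    rw [h1]

/-- diagonal version -/
theorem prod_diag {M : Type} [CommMonoid M] (F : ℤ → M) {n : ℕ} (hn : μ.colLen 0 ≤ n) :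
    ∏ s ∈ Ico (-(n : ℤ)) 0, F s =
      (∏ i ∈ (Finset.range n).filter (fun i => (i, i) ∉ μ), F (rho μ i)) *
      ∏ j ∈ (Finset.range n).filter (fun i => (i, i) ∈ μ), F (kap μ j) := by
  apply prod_maya
  · intro i
    rw [Finset.mem_filter, Finset.mem_range, YoungDiagram.mem_iff_lt_rowLen]
    constructor
    · rintro ⟨h1, h2⟩
      unfold rho
      omega
    · rintro ⟨h1, h2⟩
      refine ⟨?_, ?_⟩
      · by_contra hc
        have h3 : μ.rowLen i = 0 := by
          by_contra h2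
          have h3 : (i, 0) ∈ μ := YoungDiagram.mem_iff_lt_rowLen.2 (by omega)
          rw [YoungDiagram.mem_iff_lt_colLen] at h3
          omega
        unfold rho at h1
        rw [h3] at h1
        push_cast at h1
        omega
      · unfold rho at h2
        omega
  · intro j
    rw [Finset.mem_filter, Finset.mem_range, YoungDiagram.mem_iff_lt_colLen]
    have := μ.colLen_anti 0 j (Nat.zero_le _)
    unfold kap
    omega

/-! ## The cells -/

theorem cells_rows {M : Type} [CommMonoid M] (F : ℕ → ℕ → M) {n : ℕ} (hn : μ.colLen 0 ≤ n) :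
    ∏ c ∈ μ.cells, F c.1 c.2 = ∏ i ∈ Finset.range n, ∏ j ∈ Finset.range (μ.rowLen i), F i j := by
  rw [Finset.prod_sigma']
  symm
  apply Finset.prod_bij (fun (x : (_ : ℕ) × ℕ) _ => (x.1, x.2))
  · rintro ⟨i, j⟩ h
    rw [Finset.mem_sigma, Finset.mem_range, Finset.mem_range] at h
    rw [YoungDiagram.mem_cells, YoungDiagram.mem_iff_lt_rowLen]
    exact h.2
  · rintro ⟨i, j⟩ _ ⟨i', j'⟩ _ h
    simp only [Prod.mk.injEq] at h
    obtain ⟨rfl, rfl⟩ := h
    rfl
  · rintro ⟨i, j⟩ h
    rw [YoungDiagram.mem_cells] at h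
    refine ⟨⟨i, j⟩, ?_, rfl⟩
    rw [Finset.mem_sigma, Finset.mem_range, Finset.mem_range]
    refine ⟨?_, YoungDiagram.mem_iff_lt_rowLen.1 h⟩
    have h1 := YoungDiagram.mem_iff_lt_colLen.1 h
    have h2 := μ.colLen_anti 0 j (Nat.zero_le _)
    show i < n
    omega
  · rintro ⟨i, j⟩ _
    rfl

theorem cells_hooks {M : Type} [CommMonoid M] (F : ℕ → ℕ → M) {n : ℕ} (hn : μ.colLen 0 ≤ n) :
    ∏ c ∈ μ.cells, F c.1 c.2 = ∏ m ∈ Finset.range n,
      ((∏ i ∈ Ioo m (μ.colLen m), F i m) * ∏ j ∈ Ico m (μ.rowLen m), F m j) := by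
  have hmap : ∀ c ∈ μ.cells, min c.1 c.2 ∈ Finset.range n := by
    rintro ⟨i, j⟩ h
    rw [YoungDiagram.mem_cells, YoungDiagram.mem_iff_lt_colLen] at h
    have h2 := μ.colLen_anti 0 j (Nat.zero_le _)
    rw [Finset.mem_range]
    have : min i j ≤ i := min_le_left _ _
    show min i j < n
    omega
  rw [← Finset.prod_fiberwise_of_maps_to hmap]
  apply Finset.prod_congr rfl
  intro m _
  have hun : μ.cells.filter (fun c => min c.1 c.2 = m) =
      (Ioo m (μ.colLen m)).image (fun i => (i, m)) ∪ (Ico m (μ.rowLen m)).image (fun j => (m, j)) := by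
    ext ⟨i, j⟩
    rw [Finset.mem_filter, Finset.mem_union, Finset.mem_image, Finset.mem_image,
      YoungDiagram.mem_cells]
    constructor
    · rintro ⟨h1, h2⟩
      have h2 : min i j = m := h2
      rcases Nat.lt_or_ge j i with h3 | h3
      · left
        have h4 : j = m := by omega
        subst h4
        exact ⟨i, by rw [Finset.mem_Ioo]; exact ⟨h3, YoungDiagram.mem_iff_lt_colLen.1 h1⟩, rfl⟩
      · right
        have h4 : i = m := by omega
        subst h4
        exact ⟨j, by rw [Finset.mem_Ico]; exact ⟨h3, YoungDiagram.mem_iff_lt_rowLen.1 h1⟩, rfl⟩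
    · rintro (⟨a, ha, h⟩ | ⟨a, ha, h⟩)
      · rw [Finset.mem_Ioo] at ha
        simp only [Prod.mk.injEq] at h
        obtain ⟨rfl, rfl⟩ := h
        refine ⟨YoungDiagram.mem_iff_lt_colLen.2 ha.2, ?_⟩
        show min a m = m
        omega
      · rw [Finset.mem_Ico] at ha
        simp only [Prod.mk.injEq] at h
        obtain ⟨rfl, rfl⟩ := h
        refine ⟨YoungDiagram.mem_iff_lt_rowLen.2 ha.2, ?_⟩
        show min m a = m
        omega
  have hdis : Disjoint ((Ioo m (μ.colLen m)).image (fun i => (i, m)))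
      ((Ico m (μ.rowLen m)).image (fun j => (m, j))) := by
    rw [Finset.disjoint_left]
    rintro ⟨i, j⟩ h1 h2
    rw [Finset.mem_image] at h1 h2
    obtain ⟨a, ha, h1⟩ := h1
    obtain ⟨b, hb, h2⟩ := h2
    rw [Finset.mem_Ioo] at ha
    simp only [Prod.mk.injEq] at h1 h2
    omega
  rw [hun, Finset.prod_union hdis, Finset.prod_image, Finset.prod_image]
  · intro a _ b _ h
    simp only [Prod.mk.injEq] at h
    exact h.2
  · intro a _ b _ h
    simp only [Prod.mk.injEq] at h
    exact h.1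

/-! ## The function `H` -/

variable {K : Type} [Field K] [CharZero K]

/-- `H (x + 1) = (Z + x) H x` -/
def HH (Z : K) (x : ℤ) : K :=
  if 0 ≤ x then ∏ r ∈ Finset.range x.toNat, (Z + r)
  else (∏ r ∈ Finset.range (-x).toNat, (Z - 1 - r))⁻¹

theorem HH_succ {Z : K} (hZ : ∀ m : ℤ, Z + m ≠ 0) (x : ℤ) : HH Z (x + 1) = (Z + x) * HH Z x := by
  by_cases hx : 0 ≤ x
  · obtain ⟨m, rfl⟩ := Int.eq_ofNat_of_zero_le hx
    unfold HH
    rw [if_pos (by omega), if_pos hx]
    have e1 : ((m : ℤ) + 1).toNat = m + 1 := by omega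
    have e2 : ((m : ℤ)).toNat = m := by omega
    rw [e1, e2, Finset.prod_range_succ]
    push_cast
    ring
  · obtain ⟨m, hm⟩ : ∃ m : ℕ, x = -(m : ℤ) - 1 := ⟨(-x - 1).toNat, by omega⟩
    subst hm
    have e0 : -(m : ℤ) - 1 + 1 = -(m : ℤ) := by ring
    rw [e0]
    have key : HH Z (-(m : ℤ)) = (∏ r ∈ Finset.range m, (Z - 1 - r))⁻¹ := by
      unfold HH
      rcases Nat.eq_zero_or_pos m with h0 | h0
      · subst h0
        simp
      · rw [if_neg (by omega)]
        have e1 : (-(-(m : ℤ))).toNat = m := by omega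
        rw [e1]
    have key2 : HH Z (-(m : ℤ) - 1) = (∏ r ∈ Finset.range (m + 1), (Z - 1 - r))⁻¹ := by
      unfold HH
      rw [if_neg (by omega)]
      have e1 : (-(-(m : ℤ) - 1)).toNat = m + 1 := by omega
      rw [e1]
    rw [key, key2, Finset.prod_range_succ]
    have h1 : Z - 1 - (m : K) ≠ 0 := by
      intro h
      apply hZ (-(m : ℤ) - 1)
      push_cast
      linear_combination h
    push_cast
    rw [mul_inv]
    have e3 : Z + (-(m : K) - 1) = Z - 1 - m := by ring
    rw [e3]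
    field_simp

theorem HH_ne {Z : K} (hZ : ∀ m : ℤ, Z + m ≠ 0) (x : ℤ) : HH Z x ≠ 0 := by
  unfold HH
  split_ifs
  · rw [Finset.prod_ne_zero_iff]
    intro r _
    exact_mod_cast hZ r
  · apply inv_ne_zero
    rw [Finset.prod_ne_zero_iff]
    intro r _ h
    apply hZ (-(r : ℤ) - 1)
    push_cast
    linear_combination h

theorem prod_HH {Z : K} (hZ : ∀ m : ℤ, Z + m ≠ 0) (c p : ℤ) (m : ℕ) :
    (∏ s ∈ Ico p (p + m), (Z + c + s)) * HH Z (p + c) = HH Z (p + m + c) := by
  induction m with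
  | zero => simp
  | succ m ih =>
    have e1 : Ico p (p + ((m + 1 : ℕ) : ℤ)) = insert (p + m) (Ico p (p + m)) := by
      ext s
      rw [Finset.mem_insert, Finset.mem_Ico, Finset.mem_Ico]
      push_cast
      omega
    rw [e1, Finset.prod_insert (by rw [Finset.mem_Ico]; omega)]
    have e2 : p + ((m + 1 : ℕ) : ℤ) + c = (p + m + c) + 1 := by push_cast; ring
    rw [e2, HH_succ hZ, ← ih]
    push_cast
    ring

theorem prod_HH' {Z : K} (hZ : ∀ m : ℤ, Z + m ≠ 0) (c : ℤ) {p q : ℤ} (h : p ≤ q) :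
    (∏ s ∈ Ico p q, (Z + c + s)) * HH Z (p + c) = HH Z (q + c) := by
  obtain ⟨m, hm⟩ := Int.eq_ofNat_of_zero_le (sub_nonneg.2 h)
  have : q = p + m := by omega
  rw [this]
  exact prod_HH hZ c p m

end Pool.Agent.Q156.SC
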