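import Mathlib
import Pool.Agent.Q156.SC.Alt
import Pool.Agent.Q156.SC.Wf
import Pool.Agent.Q156.SC.Us
import Pool.Agent.Q156.SC.Yd

set_option autoImplicit false
set_option linter.unusedSectionVars false

/-!
# The dimension functions at the tuple of a Young diagram: the formula
-/

namespace Pool.Agent.Q156.SC

open Finset

variable {μ : YoungDiagram} {K : Type} [Field K] [CharZero K]

/-- the tuple `λ_i + n - i` -/
def lmu (n : ℕ) (μ : YoungDiagram) : Fin n → ℤ := fun i => rho μ i + n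

theorem prod_Ico_int {M : Type} [CommMonoid M] (F : ℤ → M) (p : ℤ) (m : ℕ) :
    ∏ s ∈ Ico p (p + m), F s = ∏ r ∈ Finset.range m, F (p + r) := by
  induction m with
  | zero => simp
  | succ m ih =>
    have e1 : Ico p (p + ((m + 1 : ℕ) : ℤ)) = insert (p + m) (Ico p (p + m)) := by
      ext s
      rw [Finset.mem_insert, Finset.mem_Ico, Finset.mem_Ico]
      push_cast
      omega
    rw [e1, Finset.prod_insert (by rw [Finset.mem_Ico]; omega), ih, Finset.prod_range_succ,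
      mul_comm]

theorem prod_fact (p : ℤ) (m : ℕ) :
    ∏ s ∈ Ico p (p + m), (((p + m : ℤ) : K) - s) = ∏ r ∈ Finset.range m, ((r : K) + 1) := by
  rw [prod_Ico_int, ← Finset.prod_range_reflect]
  apply Finset.prod_congr rfl
  intro r hr
  have h1 := Finset.mem_range.1 hr
  rw [Nat.sub_sub, Nat.cast_sub (by omega)]
  push_cast
  ring

theorem fact_ne (m : ℕ) : ∏ r ∈ Finset.range m, ((r : K) + 1) ≠ 0 := by
  rw [Finset.prod_ne_zero_iff]
  intro r _
  exact_mod_cast Nat.succ_ne_zero r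

theorem wV_HH {Z : K} (hZ : ∀ m : ℤ, Z + m ≠ 0) (n m : ℕ) :
    wV (Z / 2 - n) (m : ℤ) * (∏ r ∈ Finset.range m, ((r : K) + 1)) * HH Z (-2 * (n : ℤ)) =
      HH Z ((m : ℤ) - 2 * n) := by
  rw [wV_nat]
  induction m with
  | zero =>
    simp
  | succ m ih =>
    have e2 : (((m + 1 : ℕ) : ℤ) - 2 * n) = ((m : ℤ) - 2 * n) + 1 := by push_cast; ring
    rw [e2, HH_succ hZ, ← ih, Finset.prod_range_succ, Finset.prod_range_succ]
    have h1 : (m : K) + 1 ≠ 0 := by exact_mod_cast Nat.succ_ne_zero m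
    push_cast
    field_simp
    ring

theorem row_formula {Z : K} (hZ : ∀ m : ℤ, Z + m ≠ 0) {n : ℕ} (hn : μ.colLen 0 ≤ n) {i : ℕ}
    (hi : i < n) :
    ((∏ j ∈ Ioo i n, sV (Z / 2 - n) (rho μ i + n) (rho μ j + n)) *
      wV (Z / 2 - n) (rho μ i + n)) *
      (∏ j ∈ Finset.range (μ.rowLen i), (((rho μ i : K) - kap μ j) * (Z + rho μ i + kap μ j))) *
      HH Z (-2 * (n : ℤ)) = HH Z (2 * rho μ i) := by
  have hρ : 0 ≤ rho μ i + n := by
    unfold rho
    omega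
  obtain ⟨m, hm⟩ := Int.eq_ofNat_of_zero_le hρ
  have hm' : rho μ i = -(n : ℤ) + m := by omega
  have hA := prod_row (fun s : ℤ => (rho μ i : K) - s) hn hi
  have hB := prod_row (fun s : ℤ => Z + (rho μ i : K) + s) hn hi
  have hB2 := prod_HH' hZ (rho μ i) (p := -(n : ℤ)) (q := rho μ i) (by omega)
  have hA2 : ∏ s ∈ Ico (-(n : ℤ)) (rho μ i), ((rho μ i : K) - s) =
      ∏ r ∈ Finset.range m, ((r : K) + 1) := by
    rw [hm']
    exact prod_fact _ _
  have hC := wV_HH hZ n m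
  rw [← hm] at hC
  have e1 : ∏ j ∈ Ioo i n, sV (Z / 2 - n) (rho μ i + n) (rho μ j + n) =
      (∏ j ∈ Ioo i n, ((rho μ i : K) - rho μ j)) * ∏ j ∈ Ioo i n, (Z + (rho μ i : K) + rho μ j) := by
    rw [← Finset.prod_mul_distrib]
    apply Finset.prod_congr rfl
    intro j _
    unfold sV
    push_cast
    ring
  rw [e1, Finset.prod_mul_distrib]
  have e2 : rho μ i + n - 2 * n = -(n : ℤ) + rho μ i := by ring
  rw [e2] at hC
  have e3 : rho μ i + rho μ i = 2 * rho μ i := by ring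
  rw [e3] at hB2
  rw [hA2] at hA
  rw [← hB2, hB, ← hC, hA]
  ring

theorem V_rows {Z : K} (hZ : ∀ m : ℤ, Z + m ≠ 0) {n : ℕ} (hn : μ.colLen 0 ≤ n) :
    V (Z / 2 - n) (lmu n μ) *
      (∏ c ∈ μ.cells, ((rho μ c.1 : K) - kap μ c.2)) *
      (∏ c ∈ μ.cells, (Z + rho μ c.1 + kap μ c.2)) *
      HH Z (-2 * (n : ℤ)) ^ n = ∏ i ∈ Finset.range n, HH Z (2 * rho μ i) := by
  have h1 : V (Z / 2 - n) (lmu n μ) = ∏ i ∈ Finset.range n,
      ((∏ j ∈ Ioo i n, sV (Z / 2 - n) (rho μ i + n) (rho μ j + n)) *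
      wV (Z / 2 - n) (rho μ i + n)) := by
    unfold V Wf
    rw [← Finset.prod_mul_distrib, ← Fin.prod_univ_eq_prod_range (fun i =>
      ((∏ j ∈ Ioo i n, sV (Z / 2 - n) (rho μ i + n) (rho μ j + n)) *
      wV (Z / 2 - n) (rho μ i + n)))]
    apply Finset.prod_congr rfl
    intro i _
    congr 1
    rw [← Fin.map_valEmbedding_Ioi, Finset.prod_map]
    rfl
  rw [h1, mul_assoc (∏ i ∈ Finset.range n, _), ← Finset.prod_mul_distrib,
    cells_rows (fun i j => ((rho μ i : K) - kap μ j) * (Z + rho μ i + kap μ j)) hn]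
  have h2 : HH Z (-2 * (n : ℤ)) ^ n = ∏ _i ∈ Finset.range n, HH Z (-2 * (n : ℤ)) := by
    rw [Finset.prod_const, Finset.card_range]
  rw [h2, ← Finset.prod_mul_distrib, ← Finset.prod_mul_distrib]
  apply Finset.prod_congr rfl
  intro i hi
  exact row_formula hZ hn (Finset.mem_range.1 hi)

/-- the shifted content -/
def cc (μ : YoungDiagram) (i j : ℕ) : ℤ :=
  if j < i then rho μ i + rho μ j else kap μ i + kap μ j

theorem csp_eq (c : ℕ × ℕ) : csp μ c = cc μ c.1 c.2 + 2 := by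
  unfold csp cc rho kap
  split_ifs
  · ring
  · ring

theorem hook_eq (c : ℕ × ℕ) : hook μ c = rho μ c.1 - kap μ c.2 := by
  unfold hook rho kap
  ring

theorem hook_formula {Z : K} (hZ : ∀ m : ℤ, Z + m ≠ 0) {m : ℕ} (hm : (m, m) ∈ μ) :
    ((∏ i ∈ Ioo m (μ.colLen m), ((Z + cc μ i m) * (Z + rho μ i + kap μ m))) *
      ∏ j ∈ Ico m (μ.rowLen m), ((Z + cc μ m j) * (Z + rho μ m + kap μ j))) *
      HH Z (2 * kap μ m) = HH Z (2 * rho μ m) := by
  have h1 := prod_hook (fun s : ℤ => (Z + kap μ m + s) * (Z + rho μ m + s)) hm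
  have e1 : ∏ i ∈ Ioo m (μ.colLen m), ((Z + cc μ i m) * (Z + rho μ i + kap μ m)) =
      ∏ i ∈ Ioo m (μ.colLen m), ((Z + kap μ m + rho μ i) * (Z + rho μ m + rho μ i)) := by
    apply Finset.prod_congr rfl
    intro i hi
    rw [Finset.mem_Ioo] at hi
    unfold cc
    rw [if_pos hi.1]
    push_cast
    ring
  have e2 : ∏ j ∈ Ico m (μ.rowLen m), ((Z + cc μ m j) * (Z + rho μ m + kap μ j)) =
      ∏ j ∈ Ico m (μ.rowLen m), ((Z + kap μ m + kap μ j) * (Z + rho μ m + kap μ j)) := by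
    apply Finset.prod_congr rfl
    intro j hj
    rw [Finset.mem_Ico] at hj
    unfold cc
    rw [if_neg (by omega)]
    push_cast
    ring
  rw [e1, e2, ← h1, Finset.prod_mul_distrib]
  have hle : kap μ m ≤ rho μ m := (kap_lt_rho hm).le
  have h2 := prod_HH' hZ (kap μ m) hle
  have h3 := prod_HH' hZ (rho μ m) hle
  have e3 : kap μ m + kap μ m = 2 * kap μ m := by ring
  have e4 : rho μ m + rho μ m = 2 * rho μ m := by ring
  have e5 : rho μ m + kap μ m = kap μ m + rho μ m := by ring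
  rw [e3, e5] at h2
  rw [e4] at h3
  rw [← h3, ← h2]
  ring

theorem cells_formula {Z : K} (hZ : ∀ m : ℤ, Z + m ≠ 0) {n : ℕ} (hn : μ.colLen 0 ≤ n) :
    (∏ c ∈ μ.cells, ((Z + cc μ c.1 c.2) * (Z + rho μ c.1 + kap μ c.2))) *
      ∏ i ∈ (Finset.range n).filter (fun i => (i, i) ∈ μ), HH Z (2 * kap μ i) =
      ∏ i ∈ (Finset.range n).filter (fun i => (i, i) ∈ μ), HH Z (2 * rho μ i) := by
  rw [cells_hooks (fun i j => (Z + cc μ i j) * (Z + rho μ i + kap μ j)) hn, Finset.prod_filter,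
    Finset.prod_filter, ← Finset.prod_mul_distrib]
  apply Finset.prod_congr rfl
  intro m _
  by_cases hm : (m, m) ∈ μ
  · rw [if_pos hm, if_pos hm]
    exact hook_formula hZ hm
  · rw [if_neg hm, if_neg hm]
    have h1 : ¬ m < μ.rowLen m := fun h1 => hm (YoungDiagram.mem_iff_lt_rowLen.2 h1)
    have h2 : ¬ m < μ.colLen m := fun h2 => hm (YoungDiagram.mem_iff_lt_colLen.2 h2)
    rw [Finset.Ioo_eq_empty (by omega), Finset.Ico_eq_empty (by omega)]
    simp

/-- the constant -/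
noncomputable def CC (n : ℕ) (z : K) : K :=
  (∏ s ∈ Ico (-(n : ℤ)) 0, HH (z + 2) (2 * s)) / HH (z + 2) (-2 * (n : ℤ)) ^ n

theorem shiftZ {z : K} (hz : ∀ m : ℤ, z ≠ m) (m : ℤ) : z + 2 + m ≠ 0 := by
  intro h
  apply hz (-2 - m)
  push_cast
  linear_combination h

theorem CC_ne {z : K} (hz : ∀ m : ℤ, z ≠ m) (n : ℕ) : CC n z ≠ 0 := by
  unfold CC
  apply div_ne_zero
  · rw [Finset.prod_ne_zero_iff]
    intro s _
    exact HH_ne (shiftZ hz) _
  · apply pow_ne_zero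
    exact HH_ne (shiftZ hz) _

theorem V_young {z : K} (hz : ∀ m : ℤ, z ≠ m) {n : ℕ} (hn : μ.colLen 0 ≤ n) :
    V (z / 2 - n + 1) (lmu n μ) = CC n z * ∏ c ∈ μ.cells, ((z + csp μ c) / hook μ c) := by
  obtain ⟨Z, hZdef⟩ : ∃ Z, Z = z + 2 := ⟨_, rfl⟩
  have hZ : ∀ m : ℤ, Z + m ≠ 0 := by
    rw [hZdef]
    exact shiftZ hz
  have h1 := V_rows hZ hn
  have h2 := cells_formula hZ hn
  have h3 := prod_diag (fun s : ℤ => HH Z (2 * s)) hn
  have h4 : ∏ i ∈ Finset.range n, HH Z (2 * rho μ i) =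
      (∏ i ∈ (Finset.range n).filter (fun i => (i, i) ∈ μ), HH Z (2 * rho μ i)) *
      ∏ i ∈ (Finset.range n).filter (fun i => (i, i) ∉ μ), HH Z (2 * rho μ i) :=
    (Finset.prod_filter_mul_prod_filter_not _ _ _).symm
  have h5 : ∏ c ∈ μ.cells, (Z + (rho μ c.1 : K) + kap μ c.2) ≠ 0 := by
    rw [Finset.prod_ne_zero_iff]
    intro c _ h
    apply hZ (rho μ c.1 + kap μ c.2)
    push_cast
    linear_combination h
  have h6 : ∏ c ∈ μ.cells, ((rho μ c.1 : K) - kap μ c.2) ≠ 0 := by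
    rw [Finset.prod_ne_zero_iff]
    intro c hc h
    have hc' : (c.1, c.2) ∈ μ := (YoungDiagram.mem_cells _).1 hc
    have h7 := kap_lt_rho hc'
    have h8 : ((rho μ c.1 - kap μ c.2 : ℤ) : K) = 0 := by
      push_cast
      exact h
    have h9 := Int.cast_eq_zero.1 h8
    omega
  have h7 : HH Z (-2 * (n : ℤ)) ^ n ≠ 0 := pow_ne_zero _ (HH_ne hZ _)
  have e1 : z / 2 - n + 1 = Z / 2 - n := by
    rw [hZdef]
    ring
  rw [h4, ← h2, Finset.prod_mul_distrib] at h1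
  have e2 : ∏ c ∈ μ.cells, ((z + csp μ c) / hook μ c) =
      (∏ c ∈ μ.cells, (Z + cc μ c.1 c.2)) / ∏ c ∈ μ.cells, ((rho μ c.1 : K) - kap μ c.2) := by
    rw [← Finset.prod_div_distrib]
    apply Finset.prod_congr rfl
    intro c _
    rw [csp_eq, hook_eq, hZdef]
    push_cast
    congr 1
    ring
  rw [e1, e2]
  unfold CC
  rw [← hZdef, h3, div_mul_div_comm, eq_div_iff (mul_ne_zero h7 h6)]
  apply mul_right_cancel₀ h5
  linear_combination h1

theorem U_young (n : ℕ) : (U (lmu n μ) : K) = 1 := by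
  unfold U Wf
  rw [Finset.prod_eq_one, Finset.prod_eq_one, one_mul]
  · intro i _
    unfold wU lmu rho
    rw [if_neg (by have := i.2; omega)]
  · intro i _
    apply Finset.prod_eq_one
    intro j hj
    rw [Finset.mem_Ioi] at hj
    have h1 : rho μ j < rho μ i := rho_lt_rho_iff.2 hj
    unfold sU lmu
    rw [Int.sign_eq_one_of_pos (by omega)]
    simp

end Pool.Agent.Q156.SC
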