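import Mathlib
import Pool.Agent.Q156.SC.Alt
import Pool.Agent.Q156.SC.Wf
import Pool.Agent.Q156.SC.Us
import Pool.Agent.Q156.SC.Yd
import Pool.Agent.Q156.SC.Yv

set_option autoImplicit false
set_option linter.unusedSectionVars false

/-!
# Sums over tuples and sums over Young diagrams
-/

namespace Pool.Agent.Q156.SC

open Finset

variable {K : Type} [Field K] [CharZero K]

/-- Young diagrams with `d` cells -/
abbrev YD (d : ℕ) : Type := {μ : YoungDiagram // μ.card = d}

theorem colLen_le_card (μ : YoungDiagram) (j : ℕ) : μ.colLen j ≤ μ.card := by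
  rw [YoungDiagram.colLen_eq_card]
  unfold YoungDiagram.card YoungDiagram.col
  exact Finset.card_le_card (Finset.filter_subset _ _)

theorem rowLen_le_card (μ : YoungDiagram) (j : ℕ) : μ.rowLen j ≤ μ.card := by
  rw [YoungDiagram.rowLen_eq_card]
  unfold YoungDiagram.card YoungDiagram.row
  exact Finset.card_le_card (Finset.filter_subset _ _)

theorem yd_ext {μ ν : YoungDiagram} (h : ∀ i, μ.rowLen i = ν.rowLen i) : μ = ν := by
  apply YoungDiagram.ext
  ext ⟨i, j⟩
  rw [YoungDiagram.mem_cells, YoungDiagram.mem_cells, YoungDiagram.mem_iff_lt_rowLen,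
    YoungDiagram.mem_iff_lt_rowLen, h]

instance (d : ℕ) : Finite (YD d) := by
  apply Finite.of_injective (β := {s // s ∈ (Finset.range d ×ˢ Finset.range d).powerset})
    (fun μ => ⟨μ.1.cells, by
      rw [Finset.mem_powerset]
      rintro ⟨i, j⟩ h
      rw [YoungDiagram.mem_cells] at h
      rw [Finset.mem_product, Finset.mem_range, Finset.mem_range]
      have h1 := YoungDiagram.mem_iff_lt_rowLen.1 h
      have h2 := YoungDiagram.mem_iff_lt_colLen.1 h
      have h3 := colLen_le_card μ.1 j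
      have h4 := rowLen_le_card μ.1 i
      have h5 := μ.2
      exact ⟨by show i < d; omega, by show j < d; omega⟩⟩)
  intro μ ν h
  simp only [Subtype.mk.injEq] at h
  exact Subtype.ext (YoungDiagram.ext h)

noncomputable instance (d : ℕ) : Fintype (YD d) := Fintype.ofFinite _

theorem card_rows (μ : YoungDiagram) {n : ℕ} (hn : μ.colLen 0 ≤ n) :
    μ.card = ∑ i ∈ Finset.range n, μ.rowLen i := by
  have h := cells_rows (M := Multiplicative ℕ) (μ := μ) (fun _ _ => Multiplicative.ofAdd 1) hn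
  have h2 := congrArg Multiplicative.toAdd h
  rw [toAdd_prod, toAdd_prod] at h2
  simp only [toAdd_prod, toAdd_ofAdd, Finset.sum_const, Finset.card_range, smul_eq_mul,
    mul_one] at h2
  exact h2

theorem sum_range_q (n : ℕ) : ∑ i ∈ Finset.range n, ((i : ℚ) + 1) = n * (n + 1) / 2 := by
  induction n with
  | zero => simp
  | succ n ih =>
    rw [Finset.sum_range_succ, ih]
    push_cast
    ring

theorem tot_lmu (μ : YoungDiagram) {n : ℕ} (hn : μ.colLen 0 ≤ n) :
    (tot (lmu n μ) : ℚ) = μ.card + n * (n - 1) / 2 := by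
  unfold tot lmu
  rw [Fin.sum_univ_eq_sum_range (fun i => rho μ i + n)]
  unfold rho
  rw [card_rows μ hn]
  have h1 := sum_range_q n
  push_cast
  rw [Finset.sum_add_distrib, Finset.sum_sub_distrib, Finset.sum_const, Finset.card_range,
    nsmul_eq_mul, h1]
  ring

theorem lmu_anti (n : ℕ) (μ : YoungDiagram) : StrictAnti (lmu n μ) := by
  intro i j hij
  unfold lmu
  have h1 : rho μ j < rho μ i := rho_lt_rho_iff.2 hij
  omega

theorem rowLen_zero {μ : YoungDiagram} {n : ℕ} (hn : μ.colLen 0 ≤ n) {i : ℕ} (hi : n ≤ i) :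
    μ.rowLen i = 0 := by
  by_contra h2
  have h3 : (i, 0) ∈ μ := YoungDiagram.mem_iff_lt_rowLen.2 (by omega)
  rw [YoungDiagram.mem_iff_lt_colLen] at h3
  omega

theorem lmu_inj {n : ℕ} {μ ν : YoungDiagram} (hμ : μ.colLen 0 ≤ n) (hν : ν.colLen 0 ≤ n)
    (h : lmu n μ = lmu n ν) : μ = ν := by
  apply yd_ext
  intro i
  rcases Nat.lt_or_ge i n with hi | hi
  · have h1 := congrFun h ⟨i, hi⟩
    unfold lmu rho at h1
    simp only at h1
    omega
  · rw [rowLen_zero hμ hi, rowLen_zero hν hi]

/-- a Young diagram from its rows -/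
def mkY (n : ℕ) (r : ℕ → ℕ) (hr : Antitone r) : YoungDiagram where
  cells := (Finset.range n ×ˢ Finset.range (r 0)).filter (fun c => c.2 < r c.1)
  isLowerSet := by
    rintro ⟨a, b⟩ ⟨c, e⟩ h1 h2
    rw [Finset.mem_coe, Finset.mem_filter, Finset.mem_product, Finset.mem_range,
      Finset.mem_range] at h2 ⊢
    obtain ⟨h3, h4⟩ : c ≤ a ∧ e ≤ b := h1
    obtain ⟨⟨h5, h6⟩, h7⟩ : (a < n ∧ b < r 0) ∧ b < r a := h2
    have h8 := hr h3
    exact ⟨⟨by show c < n; omega, by show e < r 0; omega⟩, by show e < r c; omega⟩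

theorem rowLen_mkY {n : ℕ} {r : ℕ → ℕ} (hr : Antitone r) (h0 : ∀ i, n ≤ i → r i = 0) (i : ℕ) :
    (mkY n r hr).rowLen i = r i := by
  have key : ∀ j, j < (mkY n r hr).rowLen i ↔ j < r i := by
    intro j
    rw [← YoungDiagram.mem_iff_lt_rowLen, ← YoungDiagram.mem_cells]
    unfold mkY
    simp only [Finset.mem_filter, Finset.mem_product, Finset.mem_range]
    constructor
    · rintro ⟨_, h⟩
      exact h
    · intro h
      refine ⟨⟨?_, ?_⟩, h⟩
      · by_contra hc
        rw [h0 i (by omega)] at h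
        omega
      · exact lt_of_lt_of_le h (hr (Nat.zero_le i))
  have h1 := key (r i)
  have h2 := key ((mkY n r hr).rowLen i)
  omega

theorem anti_ge {n : ℕ} {m : Fin n → ℤ} (hm : StrictAnti m) (hpos : ∀ i, 0 ≤ m i) :
    ∀ i : Fin n, (n : ℤ) - 1 - i ≤ m i := by
  have key : ∀ k : ℕ, ∀ i : Fin n, (i : ℕ) + k + 1 = n → (k : ℤ) ≤ m i := by
    intro k
    induction k with
    | zero =>
      intro i _
      exact hpos i
    | succ k ih =>
      intro i hi
      have h1 := ih ⟨(i : ℕ) + 1, by omega⟩ (by show (i : ℕ) + 1 + k + 1 = n; omega)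
      have h2 : m ⟨(i : ℕ) + 1, by omega⟩ < m i := by
        apply hm
        rw [Fin.lt_def]
        show (i : ℕ) < (i : ℕ) + 1
        omega
      push_cast
      omega
  intro i
  have := key (n - 1 - i) i (by have := i.2; omega)
  have h2 := i.2
  omega

theorem anti_step {n : ℕ} {m : Fin n → ℤ} (hm : StrictAnti m) :
    ∀ i j : Fin n, i ≤ j → m j + (j : ℤ) ≤ m i + i := by
  have key : ∀ k : ℕ, ∀ i j : Fin n, (j : ℕ) = (i : ℕ) + k → m j + (j : ℤ) ≤ m i + i := by
    intro k
    induction k with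
    | zero =>
      intro i j h
      have : i = j := Fin.ext (by omega)
      subst this
      exact le_refl _
    | succ k ih =>
      intro i j h
      have hj := j.2
      have h1 := ih i ⟨(i : ℕ) + k, by omega⟩ rfl
      have h2 : m j < m ⟨(i : ℕ) + k, by omega⟩ := by
        apply hm
        rw [Fin.lt_def]
        show (i : ℕ) + k < (j : ℕ)
        omega
      simp only [Nat.cast_add] at h1
      omega
  intro i j hij
  exact key (j - i) i j (by have := Fin.le_def.1 hij; omega)

/-- strictly decreasing nonnegative tuples come from Young diagrams -/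
theorem exists_yd {n d : ℕ} {m : Fin n → ℤ} (hm : StrictAnti m) (hpos : ∀ i, 0 ≤ m i)
    (htot : (tot m : ℚ) = d + n * (n - 1) / 2) :
    ∃ μ : YoungDiagram, μ.card = d ∧ μ.colLen 0 ≤ n ∧ lmu n μ = m := by
  obtain ⟨r, hrdef⟩ : ∃ r : ℕ → ℕ, r = fun i => if h : i < n then (m ⟨i, h⟩ - (n - 1 - i)).toNat
    else 0 := ⟨_, rfl⟩
  have hr : Antitone r := by
    intro i j hij
    rw [hrdef]
    simp only
    by_cases hj : j < n
    · have hi : i < n := by omega
      rw [dif_pos hj, dif_pos hi]
      have := anti_step hm ⟨i, hi⟩ ⟨j, hj⟩ (by rw [Fin.le_def]; exact hij)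
      simp only at this
      omega
    · rw [dif_neg hj]
      exact Nat.zero_le _
  have h0 : ∀ i, n ≤ i → r i = 0 := by
    intro i hi
    rw [hrdef]
    simp only
    rw [dif_neg (by omega)]
  have hl : lmu n (mkY n r hr) = m := by
    ext i
    unfold lmu rho
    rw [rowLen_mkY hr h0, hrdef]
    simp only
    rw [dif_pos i.2]
    have := anti_ge hm hpos i
    simp only [Fin.eta]
    omega
  have hc : (mkY n r hr).colLen 0 ≤ n := by
    by_contra hc
    have h1 : (n, 0) ∈ mkY n r hr := YoungDiagram.mem_iff_lt_colLen.2 (by omega)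
    rw [YoungDiagram.mem_iff_lt_rowLen, rowLen_mkY hr h0, h0 n le_rfl] at h1
    omega
  refine ⟨mkY n r hr, ?_, hc, hl⟩
  have h2 := tot_lmu (mkY n r hr) hc
  rw [hl, htot] at h2
  have h3 : (d : ℚ) = (mkY n r hr).card := by linarith
  exact_mod_cast h3.symm

theorem sym_perm {n : ℕ} {f g : (Fin n → ℤ) → K} (hf : Alt f) (hg : Alt g)
    (σ : Equiv.Perm (Fin n)) : ∀ l, f (l ∘ σ) * g (l ∘ σ) = f l * g l := by
  induction σ using Equiv.Perm.swap_induction_on with
  | one =>
    intro l
    rfl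
  | swap_mul σ x y hxy ih =>
    intro l
    have h1 : l ∘ ⇑(Equiv.swap x y * σ) = (l ∘ Equiv.swap x y) ∘ σ := rfl
    rw [h1, ih, hf.swap _ _ _ hxy, hg.swap _ _ _ hxy]
    ring

theorem tot_perm {n : ℕ} (l : Fin n → ℤ) (σ : Equiv.Perm (Fin n)) : tot (l ∘ σ) = tot l := by
  unfold tot
  exact Equiv.sum_comp σ l

/-- the sum over tuples is `n!` times the sum over Young diagrams -/
theorem E_young {n d : ℕ} (hdn : d ≤ n) {f g : (Fin n → ℤ) → K} (hf : Alt f) (hg : Alt g) {D : ℤ}
    (hD : (D : ℚ) = d + n * (n - 1) / 2) :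
    E f g D = (n.factorial : K) * ∑ μ : YD d, f (lmu n μ.1) * g (lmu n μ.1) := by
  classical
  obtain ⟨Φ, hΦ⟩ : ∃ Φ : Equiv.Perm (Fin n) × YD d → (Fin n → ℤ), Φ = fun x => lmu n x.2.1 ∘ x.1 :=
    ⟨_, rfl⟩
  have hcol : ∀ μ : YD d, μ.1.colLen 0 ≤ n := by
    intro μ
    have h1 := colLen_le_card μ.1 0
    have h2 := μ.2
    omega
  have hinj : Function.Injective Φ := by
    rintro ⟨σ, μ⟩ ⟨τ, ν⟩ h
    rw [hΦ] at h
    simp only at h
    have h1 : Set.range (lmu n μ.1) = Set.range (lmu n ν.1) := by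
      have e1 : Set.range (lmu n μ.1 ∘ σ) = Set.range (lmu n μ.1) := σ.surjective.range_comp _
      have e2 : Set.range (lmu n ν.1 ∘ τ) = Set.range (lmu n ν.1) := τ.surjective.range_comp _
      rw [← e1, ← e2, h]
    have h2 := (StrictAnti.range_inj (lmu_anti n μ.1) (lmu_anti n ν.1)).1 h1
    have h3 := lmu_inj (hcol μ) (hcol ν) h2
    have h4 : μ = ν := Subtype.ext h3
    subst h4
    have h5 : σ = τ := by
      ext i
      have h6 := congrFun h i
      have h7 := (lmu_anti n μ.1).injective h6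
      rw [h7]
    rw [h5]
  have hval : ∀ x, (fun l => if tot l = D then f l * g l else 0) (Φ x) =
      f (lmu n x.2.1) * g (lmu n x.2.1) := by
    rintro ⟨σ, μ⟩
    rw [hΦ]
    simp only
    rw [sym_perm hf hg, tot_perm, if_pos]
    have h1 := tot_lmu μ.1 (hcol μ)
    rw [μ.2, ← hD] at h1
    exact_mod_cast h1
  unfold E Sm
  have h1 : ∑ᶠ l, (if tot l = D then f l * g l else 0) =
      ∑ᶠ (l) (_ : l ∈ Set.range Φ), (if tot l = D then f l * g l else 0) := by
    rw [← finsum_mem_univ]
    apply finsum_mem_inter_support_eq'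
    intro l hl
    simp only [Set.mem_univ, true_iff]
    rw [Function.mem_support] at hl
    have h1 : tot l = D := by
      by_contra hne
      rw [if_neg hne] at hl
      exact hl rfl
    rw [if_pos h1] at hl
    have h2 : f l ≠ 0 := left_ne_zero_of_mul hl
    have h3 := hf.inj' h2
    have h4 := hf.nonneg h2
    obtain ⟨σ, hσ⟩ : ∃ σ, σ = Tuple.sort (fun i => - l i) := ⟨_, rfl⟩
    have h5 : Monotone ((fun i => - l i) ∘ σ) := by
      rw [hσ]
      exact Tuple.monotone_sort _
    have h6 : StrictMono ((fun i => - l i) ∘ σ) := by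
      apply h5.strictMono_of_injective
      intro a b hab
      apply σ.injective
      apply h3
      simp only [Function.comp_apply, neg_inj] at hab
      exact hab
    have h7 : StrictAnti (l ∘ σ) := by
      intro i j hij
      have := h6 hij
      simp only [Function.comp_apply] at this ⊢
      omega
    obtain ⟨μ, h8, h9, h10⟩ := exists_yd (d := d) h7 (fun i => h4 (σ i)) (by
      rw [tot_perm, h1, hD])
    refine ⟨(σ⁻¹, ⟨μ, h8⟩), ?_⟩
    rw [hΦ]
    simp only
    rw [h10]
    ext i
    simp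
  rw [h1, finsum_mem_range hinj, finsum_congr hval, finsum_eq_sum_of_fintype,
    Fintype.sum_prod_type]
  simp only
  rw [Finset.sum_const, Finset.card_univ, Fintype.card_perm, Fintype.card_fin, nsmul_eq_mul]

end Pool.Agent.Q156.SC
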