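import Mathlib
import Pool.Agent.Q156.SC.Alt
import Pool.Agent.Q156.SC.Wf
import Pool.Agent.Q156.SC.Us
import Pool.Agent.Q156.SC.Yd
import Pool.Agent.Q156.SC.Yv
import Pool.Agent.Q156.SC.En

set_option autoImplicit false
set_option linter.unusedSectionVars false

/-!
# The recurrence for the sums
-/

namespace Pool.Agent.Q156.SC

open Finset

variable {K : Type} [Field K] [CharZero K]

theorem shift_sum {k : ℕ} (hk : 1 ≤ k) (e : ℕ → K) (μ : ℕ → K) (d : ℕ) :
    ∑ j ∈ Finset.range ((d + k) / k), μ j * e (d + k - k * (j + 1)) =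
      μ 0 * e d + ∑ j ∈ Finset.range (d / k), μ (j + 1) * e (d - k * (j + 1)) := by
  rw [Nat.add_div_right _ (by omega), Finset.sum_range_succ']
  rw [add_comm]
  congr 1
  · simp
  · apply Finset.sum_congr rfl
    intro j _
    congr 2
    rw [Nat.mul_add k (j + 1) 1]
    omega

theorem solve {n k : ℕ} (hk : 1 ≤ k) (e m m' t s : ℕ → K) (β β' σ σ' : K) (μ μ' τ ς : ℕ → K)
    (hm : ∀ d, d + k ≤ n → m (d + k) = β * e d + σ * m' d)
    (hm' : ∀ d, d + k ≤ n → m' (d + k) = β' * e d + σ' * m d)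
    (ht : ∀ d, d + k ≤ n → t (d + k) = β * β' * e d + β * σ' * m d + β' * σ * m' d + σ * σ' * s d)
    (hs : ∀ d, d + k ≤ n → s (d + k) = t d + k * e d)
    (zm : ∀ d < k, m d = 0) (zm' : ∀ d < k, m' d = 0) (zt : ∀ d < k, t d = 0)
    (zs : ∀ d < k, s d = 0)
    (μ0 : μ 0 = β) (μs : ∀ j, μ (j + 1) = σ * μ' j)
    (μ0' : μ' 0 = β') (μs' : ∀ j, μ' (j + 1) = σ' * μ j)
    (τ0 : τ 0 = β * β') (τs : ∀ j, τ (j + 1) = β * σ' * μ j + β' * σ * μ' j + σ * σ' * ς j)
    (ς0 : ς 0 = k) (ςs : ∀ j, ς (j + 1) = τ j) :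
    ∀ N, N ≤ n →
      m N = ∑ j ∈ Finset.range (N / k), μ j * e (N - k * (j + 1)) ∧
      m' N = ∑ j ∈ Finset.range (N / k), μ' j * e (N - k * (j + 1)) ∧
      t N = ∑ j ∈ Finset.range (N / k), τ j * e (N - k * (j + 1)) ∧
      s N = ∑ j ∈ Finset.range (N / k), ς j * e (N - k * (j + 1)) := by
  intro N
  induction N using Nat.strong_induction_on with
  | _ N ih =>
    intro hN
    rcases Nat.lt_or_ge N k with h | h
    · rw [Nat.div_eq_of_lt h]
      simp only [Finset.range_zero, Finset.sum_empty]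
      exact ⟨zm N h, zm' N h, zt N h, zs N h⟩
    · obtain ⟨d, rfl⟩ : ∃ d, N = d + k := ⟨N - k, by omega⟩
      obtain ⟨h1, h2, h3, h4⟩ := ih d (by omega) (by omega)
      rw [hm d hN, hm' d hN, ht d hN, hs d hN, shift_sum hk, shift_sum hk,
        shift_sum hk, shift_sum hk, μ0, μ0', τ0, ς0]
      have e1 : ∑ j ∈ Finset.range (d / k), μ (j + 1) * e (d - k * (j + 1)) = σ * m' d := by
        rw [h2, Finset.mul_sum]
        apply Finset.sum_congr rfl
        intro j _
        rw [μs]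
        ring
      have e2 : ∑ j ∈ Finset.range (d / k), μ' (j + 1) * e (d - k * (j + 1)) = σ' * m d := by
        rw [h1, Finset.mul_sum]
        apply Finset.sum_congr rfl
        intro j _
        rw [μs']
        ring
      have e3 : ∑ j ∈ Finset.range (d / k), τ (j + 1) * e (d - k * (j + 1)) =
          β * σ' * m d + β' * σ * m' d + σ * σ' * s d := by
        rw [h1, h2, h4, Finset.mul_sum, Finset.mul_sum, Finset.mul_sum, ← Finset.sum_add_distrib,
          ← Finset.sum_add_distrib]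
        apply Finset.sum_congr rfl
        intro j _
        rw [τs]
        ring
      have e4 : ∑ j ∈ Finset.range (d / k), ς (j + 1) * e (d - k * (j + 1)) = t d := by
        rw [h3]
        apply Finset.sum_congr rfl
        intro j _
        rw [ςs]
      rw [e1, e2, e3, e4]
      refine ⟨rfl, rfl, by ring, by ring⟩

theorem regroup (N : ℕ) (τ : ℕ → ℕ → K) (e : ℕ → K) :
    ∑ k ∈ Finset.range N, ∑ j ∈ Finset.range (N / (k + 1)),
      τ (k + 1) (j + 1) * e (N - (k + 1) * (j + 1)) =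
    ∑ x ∈ Finset.HasAntidiagonal.antidiagonal N, (∑ y ∈ x.1.divisorsAntidiagonal, τ y.1 y.2) * e x.2 := by
  have h1 : ∀ x ∈ Finset.HasAntidiagonal.antidiagonal N, (∑ y ∈ x.1.divisorsAntidiagonal, τ y.1 y.2) * e x.2 =
      ∑ y ∈ x.1.divisorsAntidiagonal, τ y.1 y.2 * e x.2 := by
    intro x _
    rw [Finset.sum_mul]
  rw [Finset.sum_congr rfl h1, Finset.sum_sigma', Finset.sum_sigma']
  apply Finset.sum_bij (fun (x : (_ : ℕ) × ℕ) _ =>
    (⟨((x.1 + 1) * (x.2 + 1), N - (x.1 + 1) * (x.2 + 1)), (x.1 + 1, x.2 + 1)⟩ :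
      (_ : ℕ × ℕ) × (ℕ × ℕ)))
  · rintro ⟨k, j⟩ h
    rw [Finset.mem_sigma, Finset.mem_range, Finset.mem_range] at h
    have h2 : (k + 1) * (j + 1) ≤ N := by
      have h3 : j + 1 ≤ N / (k + 1) := h.2
      have h4 := Nat.mul_le_mul_left (k + 1) h3
      exact h4.trans (Nat.mul_div_le _ _)
    rw [Finset.mem_sigma, Finset.HasAntidiagonal.mem_antidiagonal, Nat.mem_divisorsAntidiagonal]
    refine ⟨?_, rfl, ?_⟩
    · show (k + 1) * (j + 1) + (N - (k + 1) * (j + 1)) = N
      omega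
    · show (k + 1) * (j + 1) ≠ 0
      exact Nat.mul_ne_zero (by omega) (by omega)
  · rintro ⟨k, j⟩ _ ⟨k', j'⟩ _ h
    simp only [Sigma.mk.injEq, heq_eq_eq, Prod.mk.injEq, add_left_inj] at h
    obtain ⟨_, rfl, rfl⟩ := h
    rfl
  · rintro ⟨⟨a, b⟩, ⟨c, d⟩⟩ h
    rw [Finset.mem_sigma, Finset.HasAntidiagonal.mem_antidiagonal, Nat.mem_divisorsAntidiagonal] at h
    obtain ⟨h1, h2, h3⟩ := h
    simp only at h1 h2 h3
    have hc : c ≠ 0 := by
      rintro rfl
      rw [Nat.zero_mul] at h2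
      exact h3 h2.symm
    have hd : d ≠ 0 := by
      rintro rfl
      rw [Nat.mul_zero] at h2
      exact h3 h2.symm
    refine ⟨⟨c - 1, d - 1⟩, ?_, ?_⟩
    · rw [Finset.mem_sigma, Finset.mem_range, Finset.mem_range]
      have e1 : c - 1 + 1 = c := by omega
      refine ⟨?_, ?_⟩
      · show c - 1 < N
        have h4 : c ≤ a := by
          rw [← h2]
          exact Nat.le_mul_of_pos_right c (by omega)
        omega
      · show d - 1 < N / (c - 1 + 1)
        rw [e1]
        have h4 : d ≤ N / c := by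
          rw [Nat.le_div_iff_mul_le (by omega), Nat.mul_comm]
          omega
        omega
    · have e1 : c - 1 + 1 = c := by omega
      have e2 : d - 1 + 1 = d := by omega
      simp only [e1, e2, h2]
      have e3 : N - a = b := by omega
      rw [e3]
  · rintro ⟨k, j⟩ _
    rfl

/-! ## Vanishing below the degree -/

variable {n : ℕ}

theorem al_neg_zero {f : (Fin n → ℤ) → K} (hf : Alt f) {k D : ℤ}
    (hD : (D : ℚ) - k < n * (n - 1) / 2) {l : Fin n → ℤ} (hl : tot l = D) : al (-k) f l = 0 := by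
  unfold al
  apply Finset.sum_eq_zero
  intro i _
  by_contra hne
  have h1 := hf.tot_ge hne
  rw [tot_add, tot_single, hl] at h1
  push_cast at h1
  linarith

theorem M_zero {f g : (Fin n → ℤ) → K} (hg : Alt g) {k D : ℤ}
    (hD : (D : ℚ) - k < n * (n - 1) / 2) : M f g k D = 0 := by
  unfold M
  apply Sm_zero
  intro l hl
  rw [al_neg_zero hg hD hl, mul_zero]

theorem S_zero {f g : (Fin n → ℤ) → K} (hg : Alt g) {k D : ℤ}
    (hD : (D : ℚ) - k < n * (n - 1) / 2) : S f g k D = 0 := by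
  unfold S
  apply Sm_zero
  intro l hl
  rw [al_neg_zero hg hD hl, mul_zero]

theorem T_zero {f g : (Fin n → ℤ) → K} (hf : Alt f) {k D : ℤ}
    (hD : (D : ℚ) - k < n * (n - 1) / 2) : T f g k D = 0 := by
  unfold T
  apply Sm_zero
  intro l hl
  by_cases h : ∀ i, 0 ≤ l i
  · rw [if_pos h]
    have hinj : ¬ Function.Injective l := by
      intro hinj
      have h3 := sum_range_le n (univ.image l) (by
        intro x hx
        rw [Finset.mem_image] at hx
        obtain ⟨i, _, rfl⟩ := hx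
        exact h i) (by
          rw [Finset.card_image_of_injective _ hinj, Finset.card_univ, Fintype.card_fin])
      rw [Finset.sum_image (fun a _ b _ hab => hinj hab)] at h3
      have h4 : ∑ x, l x = tot l := rfl
      rw [h4, hl] at h3
      push_cast at h3
      linarith
    unfold Function.Injective at hinj
    push Not at hinj
    obtain ⟨i, j, h1, h2⟩ := hinj
    rw [hf.al_zero h2 h1, zero_mul]
  · rw [if_neg h]

/-- the bottom degree -/
def D0 (n : ℕ) : ℕ := n * (n - 1) / 2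

theorem D0_q (n : ℕ) : (D0 n : ℚ) = n * (n - 1) / 2 := by
  have h1 : D0 n * 2 = n * (n - 1) := by
    unfold D0
    exact Nat.div_mul_cancel (Nat.even_mul_pred_self n).two_dvd
  have h2 : ((D0 n : ℚ)) * 2 = n * ((n - 1 : ℕ) : ℚ) := by exact_mod_cast h1
  rcases Nat.eq_zero_or_pos n with h0 | h0
  · subst h0
    simp [D0]
  · rw [Nat.cast_sub h0] at h2
    push_cast at h2
    linarith

theorem E_comm (f g : (Fin n → ℤ) → K) (D : ℤ) : E f g D = E g f D := by
  unfold E
  apply Sm_congr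
  intro l _
  ring

/-- the recurrence -/
theorem E_rec {f g : (Fin n → ℤ) → K} (hf : Alt f) (hg : Alt g) (β β' : ℕ → K) (σ σ' : K)
    (hb : ∀ k d : ℕ, 1 ≤ k → d + k ≤ n → Bdry f (β k) σ k (D0 n + d : ℤ))
    (hb' : ∀ k d : ℕ, 1 ≤ k → d + k ≤ n → Bdry g (β' k) σ' k (D0 n + d : ℤ))
    (μ μ' τ ς : ℕ → ℕ → K)
    (μ0 : ∀ k, μ k 1 = β k) (μs : ∀ k j, 1 ≤ j → μ k (j + 1) = σ * μ' k j)
    (μ0' : ∀ k, μ' k 1 = β' k) (μs' : ∀ k j, 1 ≤ j → μ' k (j + 1) = σ' * μ k j)
    (τ0 : ∀ k, τ k 1 = β k * β' k)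
    (τs : ∀ k j, 1 ≤ j → τ k (j + 1) = β k * σ' * μ k j + β' k * σ * μ' k j + σ * σ' * ς k j)
    (ς0 : ∀ k, ς k 1 = k) (ςs : ∀ k j, 1 ≤ j → ς k (j + 1) = τ k j) {N : ℕ} (hN : N ≤ n) :
    (N : K) * E f g (D0 n + N : ℤ) = ∑ x ∈ Finset.HasAntidiagonal.antidiagonal N,
      (∑ y ∈ x.1.divisorsAntidiagonal, τ y.1 y.2) * E f g (D0 n + x.2 : ℤ) := by
  have hq : ∀ d : ℕ, (((D0 n + d : ℤ)) : ℚ) = d + n * (n - 1) / 2 := by
    intro d
    push_cast
    rw [D0_q]
    ring
  have hz : ∀ k d : ℕ, d < k → (((D0 n + d : ℤ)) : ℚ) - ((k : ℤ) : ℚ) < n * (n - 1) / 2 := by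
    intro k d hdk
    rw [hq]
    have : (d : ℚ) < k := by exact_mod_cast hdk
    push_cast
    linarith
  have hT : ∀ k : ℕ, 1 ≤ k → ∀ N, N ≤ n → T f g k (D0 n + N : ℤ) =
      ∑ j ∈ Finset.range (N / k), τ k (j + 1) * E f g (D0 n + (N - k * (j + 1) : ℕ) : ℤ) := by
    intro k hk N hN
    have hcast : ∀ d : ℕ, (D0 n + (d + k : ℕ) : ℤ) = (D0 n + d : ℤ) + k := by
      intro d
      push_cast
      ring
    exact (solve (n := n) hk (fun d => E f g (D0 n + d : ℤ)) (fun d => M f g k (D0 n + d : ℤ))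
      (fun d => M g f k (D0 n + d : ℤ)) (fun d => T f g k (D0 n + d : ℤ))
      (fun d => S f g k (D0 n + d : ℤ)) (β k) (β' k) σ σ' (fun j => μ k (j + 1))
      (fun j => μ' k (j + 1)) (fun j => τ k (j + 1)) (fun j => ς k (j + 1))
      (fun d hd => by
        simp only [hcast]
        exact M_rec hf hg (hb k d hk hd))
      (fun d hd => by
        simp only [hcast]
        rw [M_rec hg hf (hb' k d hk hd), E_comm])
      (fun d hd => by
        simp only [hcast]
        exact T_rec hf hg (by omega) (hb k d hk hd) (hb' k d hk hd))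
      (fun d hd => by
        simp only [hcast]
        have := T_S hf hg (k := (k : ℤ)) (D := (D0 n + d : ℤ)) (full_of_alt hf (hq d) hd)
        rw [this]
        push_cast
        ring)
      (fun d hd => M_zero hg (hz k d hd)) (fun d hd => M_zero hf (hz k d hd))
      (fun d hd => T_zero hf (hz k d hd)) (fun d hd => S_zero hg (hz k d hd))
      (μ0 k) (fun j => μs k (j + 1) (by omega)) (μ0' k) (fun j => μs' k (j + 1) (by omega))
      (τ0 k) (fun j => τs k (j + 1) (by omega)) (ς0 k) (fun j => ςs k (j + 1) (by omega)) N hN).2.2.1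
  have h1 := sum_T hf hg (D0 n + N)
  have h2 : ((D0 n + N : ℕ) : K) - n * (n - 1) / 2 = N := by
    have e1 : ((D0 n : ℚ) : K) = ((n * (n - 1) / 2 : ℚ) : K) := by rw [D0_q]
    push_cast at e1 ⊢
    rw [e1]
    ring
  rw [h2] at h1
  have h3 : ((D0 n + N : ℕ) : ℤ) = (D0 n + N : ℤ) := by push_cast; ring
  rw [h3] at h1
  rw [← h1, Nat.add_comm (D0 n) N, Finset.sum_range_add, Finset.sum_eq_zero (s := Finset.range (D0 n)),
    add_zero, ← regroup N τ (fun d => E f g (D0 n + d : ℤ))]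
  · apply Finset.sum_congr rfl
    intro k _
    have := hT (k + 1) (by omega) N hN
    push_cast at this ⊢
    exact this
  · intro k _
    apply T_zero hf
    have := hz (N + k + 1) N (by omega)
    push_cast at this ⊢
    exact this

end Pool.Agent.Q156.SC
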