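import Mathlib
import Pool.Agent.Q156.SC.Alt
import Pool.Agent.Q156.SC.Wf
import Pool.Agent.Q156.SC.Us
import Pool.Agent.Q156.SC.Yd
import Pool.Agent.Q156.SC.Yv
import Pool.Agent.Q156.SC.En
import Pool.Agent.Q156.SC.Rec
import Pool.Agent.Q156.SC.Ps
import Pool.Agent.Q156.SC.Dv

set_option autoImplicit false
set_option linter.unusedSectionVars false

/-!
# The two generating functions over the rational numbers
-/

namespace Pool.Agent.Q156.SC

open Finset PowerSeries

/-- the sum of `∏ (z + c_sp) (-z + c_sp) / h^2` -/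
noncomputable def FA (z : ℚ) (N : ℕ) : ℚ :=
  ∑ μ : YD N, (∏ c ∈ μ.1.cells, ((z + csp μ.1 c) / hook μ.1 c)) *
    ∏ c ∈ μ.1.cells, ((-z + csp μ.1 c) / hook μ.1 c)

/-- the sum of `∏ (z + c_sp) / h` -/
noncomputable def FB (z : ℚ) (N : ℕ) : ℚ :=
  ∑ μ : YD N, ∏ c ∈ μ.1.cells, ((z + csp μ.1 c) / hook μ.1 c)

theorem two_a {z : ℚ} (hz : ∀ m : ℤ, z ≠ m) (n : ℕ) (m : ℤ) : 2 * (z / 2 - n + 1) ≠ m := by
  intro h
  apply hz (m + 2 * n - 2)
  push_cast
  linear_combination h

theorem D_cast (n d : ℕ) : (((D0 n + d : ℤ)) : ℚ) = d + n * (n - 1) / 2 := by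
  push_cast
  rw [D0_q]
  ring

theorem ev_eq (k : ℕ) : (1 + (-1) ^ k : ℚ) / 2 = ev k := by
  unfold ev
  rcases Nat.even_or_odd k with h | h
  · rw [h.neg_one_pow, if_pos h.two_dvd]
    norm_num
  · rw [h.neg_one_pow, if_neg]
    · norm_num
    · intro h2
      rw [Nat.odd_iff] at h
      omega

theorem ev_sq (k : ℕ) : ev k * ev k = ev k := by
  unfold ev
  split_ifs <;> ring

theorem V_bdry' {z : ℚ} (hz : ∀ m : ℤ, z ≠ m) {n : ℕ} (k d : ℕ) (hk : 1 ≤ k) (hd : d + k ≤ n) :
    Bdry (n := n) (V (z / 2 - n + 1)) (z + ev k) (-1) k (D0 n + d : ℤ) := by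
  have h := V_bdry (n := n) (two_a hz n) hk hd (D_cast n d)
  have e : (2 * (z / 2 - n + 1) + 2 * n - 2 + (1 + (-1) ^ k) / 2 : ℚ) = z + ev k := by
    rw [ev_eq]
    ring
  rw [e] at h
  exact h

theorem U_bdry' {n : ℕ} (k d : ℕ) (hk : 1 ≤ k) (hd : d + k ≤ n) :
    Bdry (n := n) (K := ℚ) U (1 - ev k) 1 k (D0 n + d : ℤ) := by
  have h := U_bdry (n := n) (K := ℚ) hk hd (D_cast n d)
  have e : ((1 - (-1) ^ k) / 2 : ℚ) = 1 - ev k := by
    rw [← ev_eq]
    ring
  rw [e] at h
  exact h

theorem neg_nint {z : ℚ} (hz : ∀ m : ℤ, z ≠ m) : ∀ m : ℤ, -z ≠ m := by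
  intro m h
  apply hz (-m)
  push_cast
  linear_combination -h

theorem recA {z : ℚ} (hz : ∀ m : ℤ, z ≠ m) (N : ℕ) :
    (N : ℚ) * FA z N = ∑ x ∈ HasAntidiagonal.antidiagonal N,
      (∑ y ∈ x.1.divisorsAntidiagonal, tauA z y.1 y.2) * FA z x.2 := by
  have hz' := neg_nint hz
  have hE : ∀ d, d ≤ N → E (n := N) (V (z / 2 - N + 1)) (V ((-z) / 2 - N + 1)) (D0 N + d : ℤ) =
      ((N.factorial : ℚ) * CC N z * CC N (-z)) * FA z d := by
    intro d hd
    rw [E_young hd (V_alt _) (V_alt _) (D_cast N d)]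
    unfold FA
    rw [mul_assoc (N.factorial : ℚ), mul_assoc (N.factorial : ℚ)]
    congr 1
    rw [Finset.mul_sum]
    apply Finset.sum_congr rfl
    intro μ _
    have hc : μ.1.colLen 0 ≤ N := by
      have h1 := colLen_le_card μ.1 0
      have h2 := μ.2
      omega
    rw [V_young hz hc, V_young hz' hc]
    ring
  have hrec := E_rec (n := N) (V_alt (z / 2 - N + 1)) (V_alt ((-z) / 2 - N + 1))
    (fun k => z + ev k) (fun k => -z + ev k) (-1) (-1) (V_bdry' hz) (V_bdry' hz')
    (fun k j => if 2 ∣ j then -(-z + ev k) else z + ev k)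
    (fun k j => if 2 ∣ j then -(z + ev k) else -z + ev k)
    (tauA z) (fun k j => if j = 1 then (k : ℚ) else tauA z k (j - 1))
    (fun k => by rw [if_neg (by omega)])
    (fun k j hj => by
      by_cases h : 2 ∣ j
      · rw [if_pos h, if_neg (by omega)]
        ring
      · rw [if_neg h, if_pos (by omega)]
        ring)
    (fun k => by rw [if_neg (by omega)])
    (fun k j hj => by
      by_cases h : 2 ∣ j
      · rw [if_pos h, if_neg (by omega)]
        ring
      · rw [if_neg h, if_pos (by omega)]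
        ring)
    (fun k => by
      unfold tauA
      rw [if_neg (by omega)]
      have := ev_sq k
      push_cast
      linear_combination -this)
    (fun k j hj => by
      have hev := ev_sq k
      unfold tauA
      by_cases h : 2 ∣ j
      · rw [if_pos h, if_pos h, if_neg (by omega : ¬ 2 ∣ j + 1), if_neg (by omega : ¬ j = 1),
          if_neg (by omega : ¬ 2 ∣ j - 1), Nat.cast_sub hj]
        push_cast
        linear_combination (-2 : ℚ) * hev
      · by_cases h1 : j = 1
        · subst h1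
          rw [if_neg h, if_neg h, if_pos (by omega : 2 ∣ 1 + 1), if_pos rfl]
          push_cast
          linear_combination (2 : ℚ) * hev
        · rw [if_neg h, if_neg h, if_pos (by omega : 2 ∣ j + 1), if_neg h1,
            if_pos (by omega : 2 ∣ j - 1), Nat.cast_sub hj]
          push_cast
          linear_combination (2 : ℚ) * hev)
    (fun k => by rw [if_pos rfl])
    (fun k j hj => by rw [if_neg (by omega), Nat.add_sub_cancel]) le_rfl
  have hc : ((N.factorial : ℚ) * CC N z * CC N (-z)) ≠ 0 := by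
    apply mul_ne_zero (mul_ne_zero _ (CC_ne hz N)) (CC_ne hz' N)
    exact_mod_cast Nat.factorial_ne_zero N
  rw [hE N le_rfl] at hrec
  apply mul_left_cancel₀ hc
  have e1 : ∑ x ∈ HasAntidiagonal.antidiagonal N,
      (∑ y ∈ x.1.divisorsAntidiagonal, tauA z y.1 y.2) *
        E (n := N) (V (z / 2 - N + 1)) (V ((-z) / 2 - N + 1)) (D0 N + x.2 : ℤ) =
      ((N.factorial : ℚ) * CC N z * CC N (-z)) * ∑ x ∈ HasAntidiagonal.antidiagonal N,
      (∑ y ∈ x.1.divisorsAntidiagonal, tauA z y.1 y.2) * FA z x.2 := by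
    rw [Finset.mul_sum]
    apply Finset.sum_congr rfl
    intro x hx
    rw [HasAntidiagonal.mem_antidiagonal] at hx
    rw [hE x.2 (by omega)]
    ring
  rw [← e1, ← hrec]
  ring

theorem recB {z : ℚ} (hz : ∀ m : ℤ, z ≠ m) (N : ℕ) :
    (N : ℚ) * FB z N = ∑ x ∈ HasAntidiagonal.antidiagonal N,
      (∑ y ∈ x.1.divisorsAntidiagonal, tauB z y.1 y.2) * FB z x.2 := by
  have hE : ∀ d, d ≤ N → E (n := N) (V (z / 2 - N + 1)) U (D0 N + d : ℤ) =
      ((N.factorial : ℚ) * CC N z) * FB z d := by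
    intro d hd
    rw [E_young hd (V_alt _) U_alt (D_cast N d)]
    unfold FB
    rw [mul_assoc (N.factorial : ℚ)]
    congr 1
    rw [Finset.mul_sum]
    apply Finset.sum_congr rfl
    intro μ _
    have hc : μ.1.colLen 0 ≤ N := by
      have h1 := colLen_le_card μ.1 0
      have h2 := μ.2
      omega
    rw [V_young hz hc, U_young]
    ring
  have hrec := E_rec (n := N) (V_alt (z / 2 - N + 1)) U_alt
    (fun k => z + ev k) (fun k => 1 - ev k) (-1) 1 (V_bdry' hz) (fun k d => U_bdry' k d)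
    (fun k j => c1 j * (z + ev k) - c2 j * (1 - ev k))
    (fun k j => c1 j * (1 - ev k) + c2 j * (z + ev k))
    (tauB z) (fun k j => if j = 1 then (k : ℚ) else tauB z k (j - 1))
    (fun k => by norm_num [c1, c2])
    (fun k j hj => by
      rw [c1_succ, c2_succ]
      ring)
    (fun k => by norm_num [c1, c2])
    (fun k j hj => by
      rw [c1_succ, c2_succ]
      ring)
    (fun k => by
      have := ev_sq k
      have e1 : c1 1 = 1 := by norm_num [c1]
      have e2 : c2 1 = 0 := by norm_num [c2]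
      unfold tauB
      rw [e1, e2]
      push_cast
      linear_combination this)
    (fun k j hj => by
      have hev := ev_sq k
      by_cases h1 : j = 1
      · subst h1
        norm_num [tauB, c1, c2]
        linear_combination (0 : ℚ) * hev
      · obtain ⟨i, rfl⟩ : ∃ i, j = i + 1 := ⟨j - 1, by omega⟩
        rw [if_neg h1, Nat.add_sub_cancel]
        unfold tauB
        rw [c1_succ (i + 1), c2_succ (i + 1), c1_succ i, c2_succ i]
        push_cast
        linear_combination (-2 * c1 i) * hev)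
    (fun k => by rw [if_pos rfl])
    (fun k j hj => by rw [if_neg (by omega), Nat.add_sub_cancel]) le_rfl
  have hc : ((N.factorial : ℚ) * CC N z) ≠ 0 := by
    apply mul_ne_zero _ (CC_ne hz N)
    exact_mod_cast Nat.factorial_ne_zero N
  rw [hE N le_rfl] at hrec
  apply mul_left_cancel₀ hc
  have e1 : ∑ x ∈ HasAntidiagonal.antidiagonal N,
      (∑ y ∈ x.1.divisorsAntidiagonal, tauB z y.1 y.2) *
        E (n := N) (V (z / 2 - N + 1)) U (D0 N + x.2 : ℤ) =
      ((N.factorial : ℚ) * CC N z) * ∑ x ∈ HasAntidiagonal.antidiagonal N,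
      (∑ y ∈ x.1.divisorsAntidiagonal, tauB z y.1 y.2) * FB z x.2 := by
    rw [Finset.mul_sum]
    apply Finset.sum_congr rfl
    intro x hx
    rw [HasAntidiagonal.mem_antidiagonal] at hx
    rw [hE x.2 (by omega)]
    ring
  rw [← e1, ← hrec]
  ring

end Pool.Agent.Q156.SC
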