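import Mathlib
import Pool.Agent.Q156.SC.Alt
import Pool.Agent.Q156.SC.Wf
import Pool.Agent.Q156.SC.Us
import Pool.Agent.Q156.SC.Yd
import Pool.Agent.Q156.SC.Yv
import Pool.Agent.Q156.SC.En
import Pool.Agent.Q156.SC.Rec
import Pool.Agent.Q156.SC.Ps
import Pool.Agent.Q156.SC.Dv
import Pool.Agent.Q156.SC.Main

set_option autoImplicit false
set_option linter.unusedSectionVars false

/-!
# The two generating functions over every commutative `ℚ`-algebra
-/

namespace Pool.Agent.Q156.SC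

open Finset PowerSeries

/-- the orthogonal content of the cell `(i+1, j+1)`; rows and columns are counted from `0` -/
def co (μ : YoungDiagram) (c : ℕ × ℕ) : ℤ :=
  if c.2 ≤ c.1 then ((μ.rowLen c.1 : ℤ) - (c.1 + 1)) + ((μ.rowLen c.2 : ℤ) - (c.2 + 1))
  else (((c.1 : ℤ) + 1) - μ.colLen c.1) + (((c.2 : ℤ) + 1) - μ.colLen c.2) - 2

/-! ## Conjugation -/

theorem co_transpose (μ : YoungDiagram) (c : ℕ × ℕ) : co μ.transpose c.swap = - csp μ c := by
  unfold co csp
  rw [Prod.fst_swap, Prod.snd_swap, YoungDiagram.rowLen_transpose, YoungDiagram.rowLen_transpose,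
    YoungDiagram.colLen_transpose, YoungDiagram.colLen_transpose]
  by_cases h : c.2 < c.1
  · rw [if_neg (by omega), if_pos h]
    ring
  · rw [if_pos (by omega), if_neg h]
    ring

theorem hook_transpose (μ : YoungDiagram) (c : ℕ × ℕ) : hook μ.transpose c.swap = hook μ c := by
  unfold hook
  rw [Prod.fst_swap, Prod.snd_swap, YoungDiagram.rowLen_transpose, YoungDiagram.colLen_transpose]
  ring

theorem prod_transpose {M : Type*} [CommMonoid M] (μ : YoungDiagram) (F : ℕ × ℕ → M) :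
    ∏ c ∈ μ.transpose.cells, F c = ∏ c ∈ μ.cells, F c.swap := by
  have h : μ.transpose.cells = μ.cells.map (Equiv.prodComm ℕ ℕ).toEmbedding := rfl
  rw [h, Finset.prod_map]
  rfl

theorem card_transpose (μ : YoungDiagram) : μ.transpose.card = μ.card := by
  have h : μ.transpose.cells = μ.cells.map (Equiv.prodComm ℕ ℕ).toEmbedding := rfl
  unfold YoungDiagram.card
  rw [h, Finset.card_map]

/-- conjugation on the diagrams with `N` cells -/
def tr (N : ℕ) : YD N ≃ YD N where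
  toFun μ := ⟨μ.1.transpose, by rw [card_transpose]; exact μ.2⟩
  invFun μ := ⟨μ.1.transpose, by rw [card_transpose]; exact μ.2⟩
  left_inv μ := Subtype.ext (YoungDiagram.transpose_transpose _)
  right_inv μ := Subtype.ext (YoungDiagram.transpose_transpose _)

section general

variable {R : Type*} [CommRing R] [Algebra ℚ R]

/-- `∏ (t + c_sp^2) / h^2` -/
noncomputable def wsp (t : R) (μ : YoungDiagram) : R :=
  ∏ c ∈ μ.cells, ((t + (csp μ c : R) ^ 2) * algebraMap ℚ R (1 / (hook μ c : ℚ) ^ 2))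

/-- `∏ (t + c_O^2) / h^2` -/
noncomputable def wO (t : R) (μ : YoungDiagram) : R :=
  ∏ c ∈ μ.cells, ((t + (co μ c : R) ^ 2) * algebraMap ℚ R (1 / (hook μ c : ℚ) ^ 2))

/-- `∏ (t + c_O) / h` -/
noncomputable def WO (t : R) (μ : YoungDiagram) : R :=
  ∏ c ∈ μ.cells, ((t + (co μ c : R)) * algebraMap ℚ R (1 / (hook μ c : ℚ)))

noncomputable def Fsp (t : R) : PowerSeries R :=
  PowerSeries.mk fun N => ∑ᶠ μ : {μ : YoungDiagram // μ.card = N}, wsp t μ.1

noncomputable def FO (t : R) : PowerSeries R :=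
  PowerSeries.mk fun N => ∑ᶠ μ : {μ : YoungDiagram // μ.card = N}, wO t μ.1

noncomputable def GO (t : R) : PowerSeries R :=
  PowerSeries.mk fun N => ∑ᶠ μ : {μ : YoungDiagram // μ.card = N}, WO t μ.1

theorem Fsp_eq_FO (t : R) : Fsp t = FO t := by
  unfold Fsp FO
  congr 1
  funext N
  rw [← finsum_comp_equiv (tr N) (f := fun μ : YD N => wO t μ.1)]
  apply finsum_congr
  intro μ
  unfold wsp wO
  have h1 : ((tr N) μ).1 = μ.1.transpose := rfl
  rw [h1, prod_transpose]
  apply Finset.prod_congr rfl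
  intro c _
  rw [co_transpose, hook_transpose]
  push_cast
  ring

/-- the product for the first theorem -/
noncomputable def QA (M : ℕ) (t : R) : PowerSeries R :=
  ∏ j ∈ Icc 1 M, ((1 - X ^ (4 * j - 2)) * pw j t)

/-- the factor of the second theorem -/
noncomputable def AB (j : ℕ) (t : R) : PowerSeries R :=
  pw (8 * j) (binom t 2) * pw (8 * j - 6) (1 - binom t 2) * pw (4 * j - 1) t *
    pw (4 * j - 3) (-t) * pw (8 * j - 4) (binom (t + 1) 2 - 1) *
    pw (8 * j - 2) (1 - binom (t + 1) 2)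

noncomputable def QB (M : ℕ) (t : R) : PowerSeries R := ∏ j ∈ Icc 1 M, AB j t

/-! ## Naturality -/

variable {S : Type*} [CommRing S] [Algebra ℚ S]

theorem map_wsp (φ : R →ₐ[ℚ] S) (t : R) (μ : YoungDiagram) : φ (wsp t μ) = wsp (φ t) μ := by
  unfold wsp
  rw [map_prod]
  apply Finset.prod_congr rfl
  intro c _
  rw [map_mul, AlgHom.commutes, map_add, map_pow, map_intCast]

theorem map_WO (φ : R →ₐ[ℚ] S) (t : R) (μ : YoungDiagram) : φ (WO t μ) = WO (φ t) μ := by
  unfold WO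
  rw [map_prod]
  apply Finset.prod_congr rfl
  intro c _
  rw [map_mul, AlgHom.commutes, map_add, map_intCast]

theorem map_Fsp (φ : R →ₐ[ℚ] S) (t : R) : PowerSeries.map (φ : R →+* S) (Fsp t) = Fsp (φ t) := by
  ext N
  rw [PowerSeries.coeff_map]
  unfold Fsp
  rw [PowerSeries.coeff_mk, PowerSeries.coeff_mk, finsum_eq_sum_of_fintype,
    finsum_eq_sum_of_fintype, map_sum]
  apply Finset.sum_congr rfl
  intro μ _
  exact map_wsp φ t μ.1

theorem map_GO (φ : R →ₐ[ℚ] S) (t : R) : PowerSeries.map (φ : R →+* S) (GO t) = GO (φ t) := by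
  ext N
  rw [PowerSeries.coeff_map]
  unfold GO
  rw [PowerSeries.coeff_mk, PowerSeries.coeff_mk, finsum_eq_sum_of_fintype,
    finsum_eq_sum_of_fintype, map_sum]
  apply Finset.sum_congr rfl
  intro μ _
  exact map_WO φ t μ.1

theorem map_QA (φ : R →ₐ[ℚ] S) (M : ℕ) (t : R) :
    PowerSeries.map (φ : R →+* S) (QA M t) = QA M (φ t) := by
  unfold QA
  rw [map_prod]
  apply Finset.prod_congr rfl
  intro j _
  rw [map_mul, map_pw, map_sub, map_one, map_pow, PowerSeries.map_X]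

theorem map_QB (φ : R →ₐ[ℚ] S) (M : ℕ) (t : R) :
    PowerSeries.map (φ : R →+* S) (QB M t) = QB M (φ t) := by
  unfold QB
  rw [map_prod]
  apply Finset.prod_congr rfl
  intro j _
  unfold AB
  simp only [map_mul, map_pw, map_sub, map_one, map_neg, map_binom, map_add]

end general

/-! ## Over the rational numbers -/

theorem Fsp_rat (z : ℚ) : Fsp (-z ^ 2) = PowerSeries.mk (FA z) := by
  unfold Fsp FA
  congr 1
  funext N
  rw [finsum_eq_sum_of_fintype]
  apply Finset.sum_congr rfl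
  intro μ _
  rw [← Finset.prod_mul_distrib]
  unfold wsp
  apply Finset.prod_congr rfl
  intro c _
  simp only [eq_ratCast, Rat.cast_id]
  by_cases h : (hook μ.1 c : ℚ) = 0
  · rw [h]
    simp
  · field_simp
    ring

theorem GO_rat (t : ℚ) : GO t = PowerSeries.mk (fun N => (-1) ^ N * FB (-t) N) := by
  unfold GO FB
  congr 1
  funext N
  rw [← finsum_comp_equiv (tr N) (f := fun μ : YD N => WO t μ.1), finsum_eq_sum_of_fintype,
    Finset.mul_sum]
  apply Finset.sum_congr rfl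
  intro μ _
  have h1 : ((tr N) μ).1 = μ.1.transpose := rfl
  have h2 : ((-1 : ℚ)) ^ N = ∏ _c ∈ μ.1.cells, (-1 : ℚ) := by
    rw [Finset.prod_const]
    congr 1
    exact μ.2.symm
  rw [h1, h2, ← Finset.prod_mul_distrib]
  unfold WO
  rw [prod_transpose]
  apply Finset.prod_congr rfl
  intro c _
  rw [co_transpose, hook_transpose]
  simp only [eq_ratCast, Rat.cast_id]
  push_cast
  ring

theorem bot_unique (μ : YD 0) : μ.1 = ⊥ := by
  apply YoungDiagram.ext
  have h := μ.2
  unfold YoungDiagram.card at h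
  rw [Finset.card_eq_zero] at h
  rw [h]
  rfl

theorem sum_YD0 (F : YoungDiagram → ℚ) : ∑ μ : YD 0, F μ.1 = F ⊥ := by
  have h0 : (⊥ : YoungDiagram).card = 0 := by
    unfold YoungDiagram.card
    simp
  rw [Finset.sum_eq_single ⟨⊥, h0⟩]
  · intro μ _ h
    exact absurd (Subtype.ext (bot_unique μ)) h
  · intro h
    exact absurd (Finset.mem_univ _) h

theorem FA_zero (z : ℚ) : FA z 0 = 1 := by
  unfold FA
  rw [sum_YD0 (fun μ => (∏ c ∈ μ.cells, ((z + csp μ c) / hook μ c)) *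
    ∏ c ∈ μ.cells, ((-z + csp μ c) / hook μ c))]
  simp

theorem FB_zero (z : ℚ) : FB z 0 = 1 := by
  unfold FB
  rw [sum_YD0 (fun μ => (∏ c ∈ μ.cells, ((z + csp μ c) / hook μ c)))]
  simp

theorem LD_FA {z : ℚ} (hz : ∀ m : ℤ, z ≠ m) : LD (PowerSeries.mk (FA z))
    (PowerSeries.mk fun m => ∑ y ∈ m.divisorsAntidiagonal, tauA z y.1 y.2) := by
  unfold LD
  ext N
  rw [coeff_th, PowerSeries.coeff_mul, PowerSeries.coeff_mk, recA hz]
  apply Finset.sum_congr rfl
  intro x _
  rw [PowerSeries.coeff_mk, PowerSeries.coeff_mk]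

theorem LD_FB {z : ℚ} (hz : ∀ m : ℤ, z ≠ m) : LD (PowerSeries.mk (fun N => (-1) ^ N * FB z N))
    (PowerSeries.mk fun m => (-1) ^ m * ∑ y ∈ m.divisorsAntidiagonal, tauB z y.1 y.2) := by
  unfold LD
  ext N
  rw [coeff_th, PowerSeries.coeff_mul, PowerSeries.coeff_mk]
  have h := recB hz N
  have e : (N : ℚ) * ((-1) ^ N * FB z N) = (-1) ^ N * ((N : ℚ) * FB z N) := by ring
  rw [e, h, Finset.mul_sum]
  apply Finset.sum_congr rfl
  intro x hx
  rw [HasAntidiagonal.mem_antidiagonal] at hx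
  rw [PowerSeries.coeff_mk, PowerSeries.coeff_mk, ← hx, pow_add]
  ring

theorem coeff_geo (a : ℚ) (k m : ℕ) (hm : 1 ≤ m) :
    coeff m (PowerSeries.C (-(a * k)) * geo k) = -(a * if k ∣ m then (k : ℚ) else 0) := by
  rw [PowerSeries.coeff_C_mul]
  unfold geo
  rw [PowerSeries.coeff_mk]
  by_cases h : k ∣ m
  · rw [if_pos ⟨h, by omega⟩, if_pos h]
    ring
  · rw [if_neg (fun h1 => h h1.1), if_neg h]
    ring

theorem coeff_geo_zero (a : ℚ) (k : ℕ) : coeff 0 (PowerSeries.C a * geo k) = 0 := by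
  rw [PowerSeries.coeff_C_mul]
  unfold geo
  rw [PowerSeries.coeff_mk, if_neg (by simp)]
  ring

theorem LD_QA (M : ℕ) (t : ℚ) : LD (QA M t) (∑ j ∈ Icc 1 M,
    (PowerSeries.C (-(1 * ((4 * j - 2 : ℕ) : ℚ))) * geo (4 * j - 2) +
      PowerSeries.C (-(t * (j : ℚ))) * geo j)) := by
  apply LD.prod
  intro j hj
  rw [Finset.mem_Icc] at hj
  apply LD.mul
  · rw [one_mul]
    exact LD_one_sub (by omega)
  · exact LD_pw hj.1 t

theorem coeff_pw_zero (k : ℕ) (a : ℚ) : coeff 0 (pw k a) = 1 := by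
  unfold pw
  rw [PowerSeries.coeff_mk, if_pos (dvd_zero k), Nat.zero_div]
  simp [binom]

theorem cc_pw (k : ℕ) (a : ℚ) : constantCoeff (pw k a) = 1 := by
  rw [← PowerSeries.coeff_zero_eq_constantCoeff_apply]
  exact coeff_pw_zero k a

theorem cc_QA (M : ℕ) (t : ℚ) : constantCoeff (QA M t) = 1 := by
  unfold QA
  rw [map_prod]
  apply Finset.prod_eq_one
  intro j hj
  rw [Finset.mem_Icc] at hj
  rw [map_mul, cc_pw, map_sub, map_one, map_pow, PowerSeries.constantCoeff_X,
    zero_pow (by omega)]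
  ring

theorem cc_QB (M : ℕ) (t : ℚ) : constantCoeff (QB M t) = 1 := by
  unfold QB
  rw [map_prod]
  apply Finset.prod_eq_one
  intro j _
  unfold AB
  simp only [map_mul, cc_pw, mul_one]

theorem thmA_rat {z : ℚ} (hz : ∀ m : ℤ, z ≠ m) {N M : ℕ} (hN : N ≤ M) :
    coeff N (Fsp (-z ^ 2) * QA M (-z ^ 2)) = coeff N (1 : PowerSeries ℚ) := by
  rw [Fsp_rat]
  apply ((LD_FA hz).mul (LD_QA M (-z ^ 2))).unique LD_one M ?_ ?_ ?_ N hN
  · rw [PowerSeries.coeff_zero_eq_constantCoeff_apply, PowerSeries.coeff_zero_eq_constantCoeff_apply,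
      map_mul, cc_QA, map_one, ← PowerSeries.coeff_zero_eq_constantCoeff_apply,
      PowerSeries.coeff_mk, FA_zero, mul_one]
  · rw [map_add, PowerSeries.coeff_mk, map_sum]
    rw [Nat.divisorsAntidiagonal_zero, Finset.sum_empty, zero_add]
    apply Finset.sum_eq_zero
    intro j _
    rw [map_add, coeff_geo_zero, coeff_geo_zero, add_zero]
  · intro m hm
    rw [map_add, PowerSeries.coeff_mk, map_sum, map_zero]
    rcases Nat.eq_zero_or_pos m with h0 | h0
    · subst h0
      rw [Nat.divisorsAntidiagonal_zero, Finset.sum_empty, zero_add]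
      apply Finset.sum_eq_zero
      intro j _
      rw [map_add, coeff_geo_zero, coeff_geo_zero, add_zero]
    · have e1 : ∀ j ∈ Icc 1 M, coeff m
          (PowerSeries.C (-(1 * ((4 * j - 2 : ℕ) : ℚ))) * geo (4 * j - 2) +
            PowerSeries.C (-(-z ^ 2 * (j : ℚ))) * geo j) =
          -(if 4 * j - 2 ∣ m then ((4 * j - 2 : ℕ) : ℚ) else 0) -
          (-z ^ 2) * (if 1 * j - 0 ∣ m then ((1 * j - 0 : ℕ) : ℚ) else 0) := by
        intro j _
        rw [map_add, coeff_geo _ _ _ h0, coeff_geo _ _ _ h0, one_mul, Nat.sub_zero, one_mul]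
        ring
      rw [Finset.sum_congr rfl e1, Finset.sum_sub_distrib, Finset.sum_neg_distrib,
        ← Finset.mul_sum, sum_progression 4 2 (by omega) h0 hm,
        sum_progression 1 0 (by omega) h0 hm, sum_tauA]
      have e2 : ∀ y ∈ m.divisorsAntidiagonal, (if 1 ∣ y.2 + 0 then (y.2 : ℚ) else 0) = y.2 := by
        intro y _
        rw [if_pos (one_dvd _)]
      rw [Finset.sum_congr rfl e2]
      ring

theorem LD_QB (M : ℕ) (t : ℚ) : LD (QB M t) (∑ j ∈ Icc 1 M,
    (PowerSeries.C (-(binom t 2 * ((8 * j : ℕ) : ℚ))) * geo (8 * j) +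
      PowerSeries.C (-((1 - binom t 2) * ((8 * j - 6 : ℕ) : ℚ))) * geo (8 * j - 6) +
      PowerSeries.C (-(t * ((4 * j - 1 : ℕ) : ℚ))) * geo (4 * j - 1) +
      PowerSeries.C (-(-t * ((4 * j - 3 : ℕ) : ℚ))) * geo (4 * j - 3) +
      PowerSeries.C (-((binom (t + 1) 2 - 1) * ((8 * j - 4 : ℕ) : ℚ))) * geo (8 * j - 4) +
      PowerSeries.C (-((1 - binom (t + 1) 2) * ((8 * j - 2 : ℕ) : ℚ))) * geo (8 * j - 2))) := by
  apply LD.prod
  intro j hj
  rw [Finset.mem_Icc] at hj
  unfold AB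
  exact (((((LD_pw (by omega) _).mul (LD_pw (by omega) _)).mul (LD_pw (by omega) _)).mul
    (LD_pw (by omega) _)).mul (LD_pw (by omega) _)).mul (LD_pw (by omega) _)

theorem binom_two (t : ℚ) : binom t 2 = t * (t - 1) / 2 := by
  unfold binom
  rw [Finset.prod_range_succ, Finset.prod_range_succ, Finset.prod_range_zero]
  simp only [eq_ratCast, Rat.cast_id]
  norm_num [Nat.factorial]
  ring

theorem thmB_rat {t : ℚ} (ht : ∀ m : ℤ, -t ≠ m) {N M : ℕ} (hN : N ≤ M) :
    coeff N (GO t) = coeff N (QB M t) := by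
  rw [GO_rat]
  apply (LD_FB ht).unique (LD_QB M t) M ?_ ?_ ?_ N hN
  · rw [PowerSeries.coeff_mk, FB_zero, PowerSeries.coeff_zero_eq_constantCoeff_apply, cc_QB]
    norm_num
  · rw [PowerSeries.coeff_mk, Nat.divisorsAntidiagonal_zero, Finset.sum_empty, mul_zero]
  · intro m hm
    rw [PowerSeries.coeff_mk, map_sum]
    rcases Nat.eq_zero_or_pos m with h0 | h0
    · subst h0
      rw [Nat.divisorsAntidiagonal_zero, Finset.sum_empty, mul_zero]
      symm
      apply Finset.sum_eq_zero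
      intro j _
      simp only [map_add, coeff_geo_zero, add_zero]
    · rw [sum_tauB]
      have e1 : ∀ j ∈ Icc 1 M, coeff m
          (PowerSeries.C (-(binom t 2 * ((8 * j : ℕ) : ℚ))) * geo (8 * j) +
          PowerSeries.C (-((1 - binom t 2) * ((8 * j - 6 : ℕ) : ℚ))) * geo (8 * j - 6) +
          PowerSeries.C (-(t * ((4 * j - 1 : ℕ) : ℚ))) * geo (4 * j - 1) +
          PowerSeries.C (-(-t * ((4 * j - 3 : ℕ) : ℚ))) * geo (4 * j - 3) +
          PowerSeries.C (-((binom (t + 1) 2 - 1) * ((8 * j - 4 : ℕ) : ℚ))) * geo (8 * j - 4) +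
          PowerSeries.C (-((1 - binom (t + 1) 2) * ((8 * j - 2 : ℕ) : ℚ))) * geo (8 * j - 2)) =
          (-(t * (t - 1) / 2)) * (if 8 * j - 0 ∣ m then ((8 * j - 0 : ℕ) : ℚ) else 0) +
          (-(1 - t * (t - 1) / 2)) * (if 8 * j - 6 ∣ m then ((8 * j - 6 : ℕ) : ℚ) else 0) +
          (-t) * (if 4 * j - 1 ∣ m then ((4 * j - 1 : ℕ) : ℚ) else 0) +
          t * (if 4 * j - 3 ∣ m then ((4 * j - 3 : ℕ) : ℚ) else 0) +
          (-(t * (t + 1) / 2 - 1)) * (if 8 * j - 4 ∣ m then ((8 * j - 4 : ℕ) : ℚ) else 0) +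
          (-(1 - t * (t + 1) / 2)) * (if 8 * j - 2 ∣ m then ((8 * j - 2 : ℕ) : ℚ) else 0) := by
        intro j _
        simp only [map_add, coeff_geo _ _ _ h0, binom_two, Nat.sub_zero]
        ring
      rw [Finset.sum_congr rfl e1]
      simp only [Finset.sum_add_distrib, ← Finset.mul_sum]
      rw [sum_progression 8 0 (by omega) h0 hm, sum_progression 8 6 (by omega) h0 hm,
        sum_progression 4 1 (by omega) h0 hm, sum_progression 4 3 (by omega) h0 hm,
        sum_progression 8 4 (by omega) h0 hm, sum_progression 8 2 (by omega) h0 hm]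
      unfold ex
      simp only [Finset.sum_add_distrib, ← Finset.mul_sum]
      ring

/-! ## Transfer -/

theorem half_nint (k : ℕ) : ∀ m : ℤ, ((k : ℚ) + 1 / 2) ≠ m := by
  intro m h
  have h2 : (2 * k + 1 : ℤ) = 2 * m := by
    have : ((2 * k + 1 : ℤ) : ℚ) = ((2 * m : ℤ) : ℚ) := by
      push_cast
      linear_combination 2 * h
    exact_mod_cast this
  omega

open Polynomial in
theorem polyA {N M : ℕ} (hN : N ≤ M) :
    PowerSeries.coeff N (Fsp (Polynomial.X : ℚ[X]) * QA M (Polynomial.X : ℚ[X])) =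
      PowerSeries.coeff N (1 : PowerSeries ℚ[X]) := by
  apply Polynomial.eq_of_infinite_eval_eq
  apply Set.infinite_of_injective_forall_mem (f := fun k : ℕ => -((k : ℚ) + 1 / 2) ^ 2)
  · intro a b h
    simp only [neg_inj] at h
    have h1 : ((a : ℚ) + 1 / 2) = (b : ℚ) + 1 / 2 := by
      apply (sq_eq_sq₀ (by positivity) (by positivity)).1 h
    have h2 : (a : ℚ) = b := by linarith
    exact_mod_cast h2
  · intro k
    rw [Set.mem_ofPred_eq]
    have h1 := thmA_rat (half_nint k) hN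
    have key : ∀ P : PowerSeries ℚ[X], Polynomial.eval (-((k : ℚ) + 1 / 2) ^ 2)
        (PowerSeries.coeff N P) = PowerSeries.coeff N (PowerSeries.map
        ((Polynomial.aeval (-((k : ℚ) + 1 / 2) ^ 2) : ℚ[X] →ₐ[ℚ] ℚ) : ℚ[X] →+* ℚ) P) := by
      intro P
      rw [PowerSeries.coeff_map]
      show _ = (Polynomial.aeval (-((k : ℚ) + 1 / 2) ^ 2) : ℚ[X] →ₐ[ℚ] ℚ) (PowerSeries.coeff N P)
      rw [Polynomial.coe_aeval_eq_eval]
    rw [key, key, map_mul, map_Fsp, map_QA, map_one, Polynomial.aeval_X]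
    exact h1

open Polynomial in
theorem polyB {N M : ℕ} (hN : N ≤ M) :
    PowerSeries.coeff N (GO (Polynomial.X : ℚ[X])) =
      PowerSeries.coeff N (QB M (Polynomial.X : ℚ[X])) := by
  apply Polynomial.eq_of_infinite_eval_eq
  apply Set.infinite_of_injective_forall_mem (f := fun k : ℕ => -((k : ℚ) + 1 / 2))
  · intro a b h
    simp only [neg_inj, add_left_inj] at h
    exact_mod_cast h
  · intro k
    rw [Set.mem_ofPred_eq]
    have h1 := thmB_rat (t := -((k : ℚ) + 1 / 2)) (by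
      rw [neg_neg]
      exact half_nint k) hN
    have key : ∀ P : PowerSeries ℚ[X], Polynomial.eval (-((k : ℚ) + 1 / 2))
        (PowerSeries.coeff N P) = PowerSeries.coeff N (PowerSeries.map
        ((Polynomial.aeval (-((k : ℚ) + 1 / 2)) : ℚ[X] →ₐ[ℚ] ℚ) : ℚ[X] →+* ℚ) P) := by
      intro P
      rw [PowerSeries.coeff_map]
      show _ = (Polynomial.aeval (-((k : ℚ) + 1 / 2)) : ℚ[X] →ₐ[ℚ] ℚ) (PowerSeries.coeff N P)
      rw [Polynomial.coe_aeval_eq_eval]
    rw [key, key, map_GO, map_QB, Polynomial.aeval_X]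
    exact h1

variable {R : Type*} [CommRing R] [Algebra ℚ R]

theorem thmA (t : R) {N M : ℕ} (hN : N ≤ M) :
    PowerSeries.coeff N (Fsp t * QA M t) = PowerSeries.coeff N (1 : PowerSeries R) := by
  have h := congrArg (Polynomial.aeval t : Polynomial ℚ →ₐ[ℚ] R) (polyA hN)
  have key : ∀ P : PowerSeries (Polynomial ℚ), (Polynomial.aeval t : Polynomial ℚ →ₐ[ℚ] R)
      (PowerSeries.coeff N P) = PowerSeries.coeff N (PowerSeries.map
      ((Polynomial.aeval t : Polynomial ℚ →ₐ[ℚ] R) : Polynomial ℚ →+* R) P) := by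
    intro P
    rw [PowerSeries.coeff_map]
    rfl
  rw [key, key, map_mul, map_Fsp, map_QA, map_one, Polynomial.aeval_X] at h
  exact h

theorem thmB (t : R) {N M : ℕ} (hN : N ≤ M) :
    PowerSeries.coeff N (GO t) = PowerSeries.coeff N (QB M t) := by
  have h := congrArg (Polynomial.aeval t : Polynomial ℚ →ₐ[ℚ] R) (polyB hN)
  have key : ∀ P : PowerSeries (Polynomial ℚ), (Polynomial.aeval t : Polynomial ℚ →ₐ[ℚ] R)
      (PowerSeries.coeff N P) = PowerSeries.coeff N (PowerSeries.map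
      ((Polynomial.aeval t : Polynomial ℚ →ₐ[ℚ] R) : Polynomial ℚ →+* R) P) := by
    intro P
    rw [PowerSeries.coeff_map]
    rfl
  rw [key, key, map_GO, map_QB, Polynomial.aeval_X] at h
  exact h

end Pool.Agent.Q156.SC
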